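import Pool.Agent.H152R3.KD.Stmts

/-!
Task NT of project KD: the number theoretic construction (nested intervals).
-/

set_option autoImplicit false

open Set Filter Topology

namespace Pool.Agent.H449R3.KDNT

/-- half of the length `D` as a function of the rotation number -/
noncomputable def F (g : ℝ) : ℝ := (1 + 2 * g) / (2 * (1 + 4 * g))

/-- the defect -/
noncomputable def e (Q P : ℕ) (g : ℝ) : ℝ := F g - (Q * g - P)

lemma F_sub {x y : ℝ} (hx : 0 < x) (hy : 0 < y) :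
    F x - F y = (y - x) / ((1 + 4 * x) * (1 + 4 * y)) := by
  unfold F
  have h1 : 1 + 4 * x ≠ 0 := by positivity
  have h2 : 1 + 4 * y ≠ 0 := by positivity
  field_simp
  ring

lemma F_bd {x y : ℝ} (hx : 0 < x) (hxy : x ≤ y) : 0 ≤ F x - F y ∧ F x - F y ≤ y - x := by
  have hy : 0 < y := hx.trans_le hxy
  rw [F_sub hx hy]
  have h0 : 0 ≤ y - x := by linarith
  have h1 : 1 ≤ (1 + 4 * x) * (1 + 4 * y) := by nlinarith [mul_pos hx hy]
  exact ⟨by positivity, div_le_self h0 h1⟩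

lemma e_lt {Q P : ℕ} (hQ : 1 ≤ Q) {x y : ℝ} (hx : 0 < x) (hxy : x < y) : e Q P y < e Q P x := by
  unfold e
  have h1 := (F_bd hx hxy.le).1
  have h2 : (1 : ℝ) ≤ Q := by exact_mod_cast hQ
  nlinarith

lemma e_le {Q P : ℕ} {x y : ℝ} (hx : 0 < x) (hxy : x ≤ y) :
    e Q P x - e Q P y ≤ (Q + 1) * (y - x) := by
  unfold e
  have h1 := (F_bd hx hxy).2
  nlinarith

lemma F_cont {x : ℝ} (hx : 0 < x) : ContinuousAt F x := by
  unfold F
  apply ContinuousAt.div (by fun_prop) (by fun_prop)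
  positivity

lemma irr {Q P : ℕ} (hQ : 1 ≤ Q) {x : ℝ} (hx : 0 < x) (h : e Q P x = 0) : Irrational x := by
  rintro ⟨r, rfl⟩
  have h1 : (1 + 2 * (r : ℝ)) = 2 * (1 + 4 * (r : ℝ)) * (Q * r - P) := by
    unfold e F at h
    have h2 : (1 + 4 * (r : ℝ)) ≠ 0 := by positivity
    field_simp at h
    linarith
  have h2 : (8 * Q * r + Q - 4 * P - 1 : ℚ) * (8 * Q * r + Q - 4 * P - 1 : ℚ) =
      (((Q + 4 * P) ^ 2 + 6 * Q + 8 * P + 1 : ℕ) : ℚ) := by
    have h3 : (8 * Q * r + Q - 4 * P - 1 : ℝ) * (8 * Q * r + Q - 4 * P - 1 : ℝ) =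
      (((Q + 4 * P) ^ 2 + 6 * Q + 8 * P + 1 : ℕ) : ℝ) := by
      push_cast
      linear_combination (-8 * (Q : ℝ)) * h1
    exact_mod_cast h3
  have h3 : IsSquare ((((Q + 4 * P) ^ 2 + 6 * Q + 8 * P + 1 : ℕ) : ℚ)) := ⟨_, h2.symm⟩
  rw [Rat.isSquare_natCast_iff] at h3
  obtain ⟨m, hm⟩ := h3
  have h4 : Q + 4 * P + 1 < m := by
    by_contra hcon
    push Not at hcon
    nlinarith [Nat.mul_le_mul hcon hcon]
  have h5 : m < Q + 4 * P + 3 := by
    by_contra hcon
    push Not at hcon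
    nlinarith [Nat.mul_le_mul hcon hcon]
  have h6 : m = Q + 4 * P + 2 := by omega
  subst h6
  have h7 : 2 * Q + 1 = 8 * P + 4 := by nlinarith
  omega

lemma onesided {x : ℝ} (hx : Irrational x) {δ : ℝ} (hδ : 0 < δ) :
    ∃ (q : ℕ) (p : ℤ), 1 ≤ q ∧ 0 < q * x - p ∧ q * x - p < δ := by
  set δ' := min δ 1 with hδ'
  have hδ0 : 0 < δ' := lt_min hδ one_pos
  obtain ⟨n, hn⟩ := exists_nat_gt (1 / δ')
  have hn0 : 0 < n := by
    have : (0 : ℝ) < n := lt_trans (by positivity) hn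
    exact_mod_cast this
  obtain ⟨j, k, hk0, -, hjk⟩ := Real.exists_int_int_abs_mul_sub_le x hn0
  have h1 : |(k : ℝ) * x - j| < δ' := by
    apply lt_of_le_of_lt hjk
    rw [div_lt_iff₀ (by positivity)]
    rw [div_lt_iff₀ hδ0] at hn
    nlinarith
  have hne : ∀ a b : ℤ, a ≠ 0 → (a : ℝ) * x - b ≠ 0 := by
    intro a b ha h
    exact (hx.intCast_mul ha).ne_int b (sub_eq_zero.1 h)
  have hkc : ((k.toNat : ℕ) : ℝ) = (k : ℝ) := by
    have : ((k.toNat : ℕ) : ℤ) = k := Int.toNat_of_nonneg hk0.le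
    exact_mod_cast this
  have hk1 : 1 ≤ k.toNat := by omega
  rcases lt_or_gt_of_ne (hne k j hk0.ne') with h2 | h2
  · rw [abs_of_neg h2] at h1
    set η := -((k : ℝ) * x - j) with hη
    have hη0 : 0 < η := by rw [hη]; linarith
    have hη1 : η ≤ 1 := h1.le.trans (min_le_right _ _)
    set m := ⌊1 / η⌋₊ with hm
    have hm1 : 1 ≤ m := by
      rw [hm, Nat.one_le_floor_iff]
      rw [le_div_iff₀ hη0]
      linarith
    have hm2 : (m : ℝ) * η ≤ 1 := by
      have := Nat.floor_le (a := 1 / η) (by positivity)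
      rw [← hm, le_div_iff₀ hη0] at this
      exact this
    have hm3 : 1 < ((m : ℝ) + 1) * η := by
      have := Nat.lt_floor_add_one (1 / η)
      rw [← hm, div_lt_iff₀ hη0] at this
      exact this
    refine ⟨m * k.toNat, m * j - 1, Nat.mul_pos hm1 hk1, ?_, ?_⟩
    · have h3 : ((m * k.toNat : ℕ) : ℝ) * x - ((m * j - 1 : ℤ) : ℝ) = 1 - m * η := by
        push_cast
        rw [hkc, hη]
        ring
      have h4 : ((m * k.toNat : ℕ) : ℝ) * x - ((m * j - 1 : ℤ) : ℝ) ≠ 0 := by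
        exact sub_ne_zero.2 ((hx.natCast_mul (Nat.mul_pos hm1 hk1).ne').ne_int (m * j - 1))
      rw [h3] at h4 ⊢
      exact lt_of_le_of_ne (by linarith) (Ne.symm h4)
    · have h3 : ((m * k.toNat : ℕ) : ℝ) * x - ((m * j - 1 : ℤ) : ℝ) = 1 - m * η := by
        push_cast
        rw [hkc, hη]
        ring
      rw [h3]
      have h5 : η < δ := h1.trans_le (min_le_left _ _)
      linarith
  · rw [abs_of_pos h2] at h1
    refine ⟨k.toNat, j, hk1, ?_, ?_⟩
    · rw [hkc]; exact h2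
    · rw [hkc]; exact h1.trans_le (min_le_left _ _)

/-- a state of the construction -/
structure St where
  Q : ℕ
  P : ℕ
  a : ℝ
  x : ℝ
  hQ : 1 ≤ Q
  ha : 1 / 4 < a
  hax : a < x
  hx : x < 1 / 2
  hroot : e Q P x = 0

/-- one step -/
structure Rel (s s' : St) : Prop where
  a_le : s.a ≤ s'.a
  x_le : s'.x ≤ s.x
  Qlt : s.Q < s'.Q
  pos : ∀ g ∈ Icc s'.a s'.x, 0 < ((s'.Q : ℝ) - s.Q) * g - ((s'.P : ℝ) - s.P)
  small : ∀ g ∈ Icc s'.a s'.x, ((s'.Q : ℝ) - s.Q) * (((s'.Q : ℝ) - s.Q) * g - ((s'.P : ℝ) - s.P)) ≤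
    (1 / 2) ^ s.Q
  esmall : ∀ g ∈ Icc s'.a s'.x, |e s'.Q s'.P g| ≤ (1 / 2) ^ s.Q
  kill : ∀ g ∈ Icc s'.a s'.x, ∀ j ∈ Finset.Icc (-(s.Q : ℤ)) s.Q, ∀ k : ℤ, 2 * F g ≠ j * g + k
  irrat : ∀ g ∈ Icc s'.a s'.x, ∀ j ∈ Finset.Icc 1 (s.Q : ℤ), ∀ k : ℤ, (j : ℝ) * g ≠ k

lemma step (s : St) : ∃ s' : St, Rel s s' := by
  have ha0 := s.ha
  have hax := s.hax
  have hx2 := s.hx
  have hQ := s.hQ
  have hxpos : 0 < s.x := by linarith
  have hxirr : Irrational s.x := irr s.hQ hxpos s.hroot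
  have hQ1 : (1 : ℝ) ≤ s.Q := by exact_mod_cast hQ
  set δ : ℝ := min (min (s.x - s.a) (1 / 4)) ((1 / 2) ^ s.Q / (s.Q + 1)) with hδ
  have hδ0 : 0 < δ := by
    refine lt_min (lt_min (by linarith) (by norm_num)) (by positivity)
  obtain ⟨q, p, hq1, hqp0, hqpδ⟩ := onesided hxirr hδ0
  have hqR : (1 : ℝ) ≤ q := by exact_mod_cast hq1
  have hqpos : (0 : ℝ) < q := by linarith
  have hδa : δ ≤ s.x - s.a := (min_le_left _ _).trans (min_le_left _ _)
  have hδ4 : δ ≤ 1 / 4 := (min_le_left _ _).trans (min_le_right _ _)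
  have hδQ : δ ≤ (1 / 2) ^ s.Q / (s.Q + 1) := min_le_right _ _
  have hp0 : 0 ≤ p := by
    have h1 : (q : ℝ) * s.x > 1 / 4 := by nlinarith
    have h2 : (0 : ℝ) < p := by linarith
    have : 0 < p := by exact_mod_cast h2
    exact this.le
  obtain ⟨P₁, rfl⟩ := Int.eq_ofNat_of_zero_le hp0
  simp only [Int.cast_natCast] at hqp0 hqpδ
  -- the point p / q
  set y : ℝ := (P₁ : ℝ) / q with hy
  have hqy : (q : ℝ) * y = P₁ := by rw [hy]; field_simp
  have hyx : y < s.x := by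
    rw [hy, div_lt_iff₀ hqpos]; linarith
  have hay : s.a < y := by
    by_contra hcon
    push Not at hcon
    have : (q : ℝ) * (s.x - y) ≥ s.x - y := by nlinarith
    nlinarith
  have hypos : 0 < y := by linarith
  have he' : ∀ g, e (s.Q + q) (s.P + P₁) g = e s.Q s.P g - (q * g - P₁) := by
    intro g
    unfold e
    push_cast
    ring
  have hy1 : 0 < e (s.Q + q) (s.P + P₁) y := by
    rw [he', hqy, sub_self, sub_zero]
    have := e_lt (P := s.P) hQ hypos hyx
    rw [s.hroot] at this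
    exact this
  have hx1 : e (s.Q + q) (s.P + P₁) s.x < 0 := by
    rw [he', s.hroot]
    linarith
  have hcont : ContinuousOn (e (s.Q + q) (s.P + P₁)) (Icc y s.x) := by
    intro g hg
    have hg0 : 0 < g := hypos.trans_le hg.1
    apply ContinuousAt.continuousWithinAt
    unfold e
    exact (F_cont hg0).sub (by fun_prop)
  obtain ⟨x', hx'mem, hx'⟩ := intermediate_value_Ioo' hyx.le hcont ⟨hx1, hy1⟩
  have hx'pos : 0 < x' := hypos.trans hx'mem.1
  have hx'irr : Irrational x' := irr (by omega) hx'pos hx'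
  have hroot' := hx'
  rw [he'] at hx'
  have hpos' : 0 < (q : ℝ) * x' - P₁ := by
    have := mul_lt_mul_of_pos_left hx'mem.1 hqpos
    linarith
  have hsmall' : (q : ℝ) * (q * x' - P₁) < (1 / 2) ^ s.Q := by
    have h1 : (q : ℝ) * x' - P₁ = e s.Q s.P x' := by linarith
    have h2 := e_le (Q := s.Q) (P := s.P) hx'pos hx'mem.2.le
    rw [s.hroot, sub_zero] at h2
    have h3 : (q : ℝ) * (s.x - x') < q * s.x - P₁ := by
      have := mul_lt_mul_of_pos_left hx'mem.1 hqpos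
      linarith
    have h4 : (s.Q + 1 : ℝ) * δ ≤ (1 / 2) ^ s.Q := by
      rw [le_div_iff₀ (by positivity)] at hδQ
      linarith
    calc (q : ℝ) * (q * x' - P₁) = q * e s.Q s.P x' := by rw [h1]
      _ ≤ q * ((s.Q + 1) * (s.x - x')) := mul_le_mul_of_nonneg_left h2 hqpos.le
      _ = (s.Q + 1) * (q * (s.x - x')) := by ring
      _ < (s.Q + 1) * δ := mul_lt_mul_of_pos_left (h3.trans hqpδ) (by positivity)
      _ ≤ (1 / 2) ^ s.Q := h4
  -- open conditions
  have hFc : ContinuousAt F x' := F_cont hx'pos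
  have c1 : ∀ᶠ g in 𝓝 x', 0 < (q : ℝ) * g - P₁ :=
    (show ContinuousAt (fun g : ℝ => (q : ℝ) * g - P₁) x' by fun_prop).eventually_const_lt hpos'
  have c2 : ∀ᶠ g in 𝓝 x', (q : ℝ) * (q * g - P₁) < (1 / 2) ^ s.Q :=
    (show ContinuousAt (fun g : ℝ => (q : ℝ) * (q * g - P₁)) x' by fun_prop).eventually_lt_const
      hsmall'
  have c3 : ∀ᶠ g in 𝓝 x', |e (s.Q + q) (s.P + P₁) g| < (1 / 2) ^ s.Q := by
    have h1 : ContinuousAt (fun g : ℝ => |e (s.Q + q) (s.P + P₁) g|) x' := by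
      unfold e
      exact (hFc.sub (by fun_prop)).abs
    apply h1.eventually_lt_const
    show |e (s.Q + q) (s.P + P₁) x'| < _
    rw [hroot', abs_zero]
    positivity
  have hcl : IsClosed (range (fun k : ℤ => (k : ℝ))) := Int.isClosedEmbedding_coe_real.isClosed_range
  have c4 : ∀ᶠ g in 𝓝 x', ∀ j ∈ Finset.Icc (-(s.Q : ℤ)) s.Q, ∀ k : ℤ, 2 * F g ≠ j * g + k := by
    rw [Filter.eventually_all_finset]
    intro j hj
    have h1 : ContinuousAt (fun g : ℝ => 2 * F g - j * g) x' :=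
      (hFc.const_mul 2).sub (by fun_prop)
    have h2 : (2 * F x' - j * x') ∈ (range (fun k : ℤ => (k : ℝ)))ᶜ := by
      rintro ⟨k, hk⟩
      simp only at hk
      have h3 : F x' = ((s.Q + q : ℕ) : ℝ) * x' - ((s.P + P₁ : ℕ) : ℝ) := by
        unfold e at hroot'
        linarith
      rw [Finset.mem_Icc] at hj
      have h4 : (2 * (s.Q + q : ℕ) - j : ℤ) ≠ 0 := by push_cast; omega
      apply (hx'irr.intCast_mul h4).ne_int (k + 2 * (s.P + P₁ : ℕ))
      push_cast
      push_cast at h3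
      rw [h3] at hk
      linarith
    filter_upwards [h1.preimage_mem_nhds (hcl.isOpen_compl.mem_nhds h2)] with g hg k hk
    exact hg ⟨k, by simp only; linarith⟩
  have c5 : ∀ᶠ g in 𝓝 x', ∀ j ∈ Finset.Icc 1 (s.Q : ℤ), ∀ k : ℤ, (j : ℝ) * g ≠ k := by
    rw [Filter.eventually_all_finset]
    intro j hj
    rw [Finset.mem_Icc] at hj
    have h1 : ContinuousAt (fun g : ℝ => (j : ℝ) * g) x' := by fun_prop
    have h2 : ((j : ℝ) * x') ∈ (range (fun k : ℤ => (k : ℝ)))ᶜ := by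
      rintro ⟨k, hk⟩
      exact (hx'irr.intCast_mul (by omega : j ≠ 0)).ne_int k hk.symm
    filter_upwards [h1.preimage_mem_nhds (hcl.isOpen_compl.mem_nhds h2)] with g hg k hk
    exact hg ⟨k, hk.symm⟩
  obtain ⟨ε, hε, hball⟩ := Metric.eventually_nhds_iff.1 (c1.and (c2.and (c3.and (c4.and c5))))
  have hmem : ∀ g ∈ Icc (max s.a (x' - ε / 2)) x', dist g x' < ε := by
    intro g hg
    rw [Real.dist_eq, abs_lt]
    have h1 := (le_max_right _ _).trans hg.1
    have h2 := hg.2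
    constructor <;> linarith
  refine ⟨⟨s.Q + q, s.P + P₁, max s.a (x' - ε / 2), x', by omega, lt_max_of_lt_left ha0,
    max_lt (hay.trans hx'mem.1) (by linarith), hx'mem.2.trans hx2, hroot'⟩, ?_⟩
  have hqq : (((s.Q + q : ℕ) : ℝ) - s.Q) = q := by push_cast; ring
  have hPP : (((s.P + P₁ : ℕ) : ℝ) - s.P) = P₁ := by push_cast; ring
  constructor
  · exact le_max_left _ _
  · exact hx'mem.2.le
  · show s.Q < s.Q + q
    omega
  · intro g hg
    show 0 < (((s.Q + q : ℕ) : ℝ) - s.Q) * g - (((s.P + P₁ : ℕ) : ℝ) - s.P)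
    rw [hqq, hPP]
    exact (hball (hmem g hg)).1
  · intro g hg
    show (((s.Q + q : ℕ) : ℝ) - s.Q) * ((((s.Q + q : ℕ) : ℝ) - s.Q) * g -
      (((s.P + P₁ : ℕ) : ℝ) - s.P)) ≤ _
    rw [hqq, hPP]
    exact (hball (hmem g hg)).2.1.le
  · intro g hg
    exact (hball (hmem g hg)).2.2.1.le
  · intro g hg
    exact (hball (hmem g hg)).2.2.2.1
  · intro g hg
    exact (hball (hmem g hg)).2.2.2.2

/-- the initial state -/
lemma init : ∃ s : St, s.Q = 1 ∧ s.P = 0 := by
  have h1 : ((1 : ℝ) / √8) = √8 / 8 := by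
    rw [div_eq_div_iff (by positivity) (by norm_num)]
    rw [Real.mul_self_sqrt (by norm_num)]
    norm_num
  have h8 : √8 * √8 = 8 := Real.mul_self_sqrt (by norm_num)
  have h2 : (2.8 : ℝ) < √8 := Real.lt_sqrt_of_sq_lt (by norm_num)
  have h3 : √8 < (2.9 : ℝ) := by
    rw [Real.sqrt_lt' (by norm_num)]
    norm_num
  refine ⟨⟨1, 0, 0.3, √8 / 8, le_rfl, by norm_num, by norm_num; linarith, by linarith, ?_⟩, rfl, rfl⟩
  unfold e F
  push_cast
  rw [sub_eq_zero, div_eq_iff (by positivity)]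
  nlinarith

/-- the multipliers -/
def Qs (s : ℕ → St) : ℕ → ℕ
  | 0 => 1
  | m + 1 => (s (m + 1)).Q - (s m).Q

/-- the integer parts -/
def Ps (s : ℕ → St) : ℕ → ℤ
  | 0 => 0
  | m + 1 => ((s (m + 1)).P : ℤ) - (s m).P

theorem taskNT : Pool.Agent.H152R3.KD.TaskNT := by
  obtain ⟨s0, hs0Q, hs0P⟩ := init
  choose f hf using step
  set s : ℕ → St := fun n => f^[n] s0 with hs
  have hrel : ∀ n, Rel (s n) (s (n + 1)) := by
    intro n
    simp only [hs, Function.iterate_succ_apply']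
    exact hf _
  have hs00 : s 0 = s0 := rfl
  have hQn : ∀ n, n + 1 ≤ (s n).Q := by
    intro n
    induction n with
    | zero => rw [hs00, hs0Q]
    | succ n ih => have := (hrel n).Qlt; omega
  have hmono : Monotone fun n => (s n).a := monotone_nat_of_le_succ fun n => (hrel n).a_le
  have hanti : Antitone fun n => (s n).x := antitone_nat_of_succ_le fun n => (hrel n).x_le
  have hmem := Monotone.ciSup_mem_iInter_Icc_of_antitone hmono hanti (fun n => (s n).hax.le)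
  set γ : ℝ := ⨆ n, (s n).a with hγ
  rw [mem_iInter] at hmem
  have hg1 : 1 / 4 < γ := (s 0).ha.trans_le (hmem 0).1
  have hg2 : γ < 1 / 2 := (hmem 0).2.trans_lt (s 0).hx
  have hirr : Irrational γ := by
    rintro ⟨r, hr⟩
    have h1 := (hrel r.den).irrat γ (hmem _) r.den (by
      rw [Finset.mem_Icc]
      have h2 := hQn r.den
      have h3 := r.pos
      constructor
      · exact_mod_cast h3
      · have : r.den ≤ (s r.den).Q := by omega
        exact_mod_cast this) r.num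
    apply h1
    rw [← hr]
    have h4 := Rat.den_mul_eq_num r
    exact_mod_cast h4
  have hD : (1 + 2 * γ) / (1 + 4 * γ) = 2 * F γ := by
    unfold F
    have : 1 + 4 * γ ≠ 0 := by positivity
    field_simp
  refine ⟨γ, hg1, hg2, hirr, ?_, ?_⟩
  · intro j k h
    rw [hD] at h
    refine (hrel j.natAbs).kill γ (hmem _) j ?_ k h
    rw [Finset.mem_Icc]
    have h2 := hQn j.natAbs
    constructor <;> omega
  · -- the sequences
    obtain ⟨Qf, hQf⟩ : ∃ Qf : ℕ → ℕ, Qf = Qs s := ⟨_, rfl⟩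
    obtain ⟨Pf, hPf⟩ : ∃ Pf : ℕ → ℤ, Pf = Ps s := ⟨_, rfl⟩
    have hQs : ∀ m, ((Qf (m + 1) : ℕ) : ℝ) = ((s (m + 1)).Q : ℝ) - (s m).Q := by
      intro m
      rw [hQf]
      show (((s (m + 1)).Q - (s m).Q : ℕ) : ℝ) = _
      rw [Nat.cast_sub (hrel m).Qlt.le]
    have hPs : ∀ m, ((Pf (m + 1) : ℤ) : ℝ) = ((s (m + 1)).P : ℝ) - (s m).P := by
      intro m
      rw [hPf]
      show ((((s (m + 1)).P : ℤ) - (s m).P : ℤ) : ℝ) = _
      push_cast
      rfl
    have hQ0 : ((Qf 0 : ℕ) : ℝ) = 1 := by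
      rw [hQf]; show ((1 : ℕ) : ℝ) = 1; norm_num
    have hP0 : ((Pf 0 : ℤ) : ℝ) = 0 := by
      rw [hPf]; show ((0 : ℤ) : ℝ) = 0; norm_num
    have hpos : ∀ n, 0 < (Qf n : ℝ) * γ - Pf n := by
      intro n
      rcases n with _ | m
      · rw [hQ0, hP0]; linarith
      · rw [hQs, hPs]
        exact (hrel m).pos γ (hmem _)
    have hsm : ∀ m, (Qf (m + 1) : ℝ) * ((Qf (m + 1) : ℝ) * γ - Pf (m + 1)) ≤ (1 / 2) ^ m := by
      intro m
      rw [hQs, hPs]
      refine ((hrel m).small γ (hmem _)).trans ?_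
      exact pow_le_pow_of_le_one (by norm_num) (by norm_num) (by have := hQn m; omega)
    have hgeo : Summable (fun m : ℕ => ((1 : ℝ) / 2) ^ m) :=
      summable_geometric_of_lt_one (by norm_num) (by norm_num)
    have hpart : ∀ n, ∑ i ∈ Finset.range (n + 1), ((Qf i : ℝ) * γ - Pf i) =
        (s n).Q * γ - (s n).P := by
      intro n
      induction n with
      | zero =>
        rw [Finset.sum_range_one, hQ0, hP0, hs00, hs0Q, hs0P]
        push_cast
        ring
      | succ n ih =>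
        rw [Finset.sum_range_succ, ih, hQs, hPs]
        ring
    refine ⟨Qf, Pf, hpos, ?_, ?_⟩
    · rw [← summable_nat_add_iff 1]
      refine Summable.of_nonneg_of_le (fun m => ?_) hsm hgeo
      exact mul_nonneg (Nat.cast_nonneg _) (hpos _).le
    · rw [hD]
      apply HasSum.mul_left
      rw [hasSum_iff_tendsto_nat_of_nonneg (fun i => (hpos i).le)]
      rw [← tendsto_add_atTop_iff_nat 2]
      have h1 : ∀ n, ∑ i ∈ Finset.range (n + 2), ((Qf i : ℝ) * γ - Pf i) =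
          F γ - e (s (n + 1)).Q (s (n + 1)).P γ := by
        intro n
        rw [hpart (n + 1)]
        unfold e
        ring
      have h2 : Tendsto (fun n => e (s (n + 1)).Q (s (n + 1)).P γ) atTop (𝓝 0) := by
        apply squeeze_zero_norm (a := fun n : ℕ => ((1 : ℝ) / 2) ^ n)
        · intro n
          rw [Real.norm_eq_abs]
          refine ((hrel n).esmall γ (hmem _)).trans ?_
          exact pow_le_pow_of_le_one (by norm_num) (by norm_num) (by have := hQn n; omega)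
        · exact tendsto_pow_atTop_nhds_zero_of_lt_one (by norm_num) (by norm_num)
      have h3 := (tendsto_const_nhds (x := F γ)).sub h2
      rw [sub_zero] at h3
      exact h3.congr fun n => (h1 n).symm

end Pool.Agent.H449R3.KDNT
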