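import Pool.Agent.H508R3.AT.Stmts

/-!
Task T9 of project 508-AT: lower bound for the noise.
-/

set_option autoImplicit false

namespace Pool.Agent.H449R3.AT

open MeasureTheory Filter Topology Set Matrix
open Pool.Agent.H695R3.AT
open Pool.Agent.H508R3.AT

lemma sq_meas (T : ℝ) : Measurable (sq T) := by unfold Pool.Agent.H508R3.AT.sq; fun_prop

lemma sq_nn (T t : ℝ) : 0 ≤ sq T t := by unfold Pool.Agent.H508R3.AT.sq; positivity

lemma sq_le_one {T : ℝ} (hT : 0 < T) (t : ℝ) : sq T t ≤ 1 := by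
  unfold Pool.Agent.H508R3.AT.sq
  have h1 : 0 < T + |t| := by positivity
  have h2 : |t| / (T + |t|) ≤ 1 := by rw [div_le_one h1]; linarith
  have h3 : 0 ≤ |t| / (T + |t|) := by positivity
  nlinarith

lemma sq_ge {T x x0 t : ℝ} (hT : 0 < T) (hx : 0 < x) (hx0 : x ≤ x0) (h : x ≤ |t|) :
    (x / (T + x0)) ^ 2 ≤ sq T t := by
  unfold Pool.Agent.H508R3.AT.sq
  have hx00 : 0 < x0 := hx.trans_le hx0
  apply pow_le_pow_left₀ (by positivity)
  have ht : 0 < |t| := hx.trans_le h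
  calc x / (T + x0) ≤ x / (T + x) := by gcongr
    _ ≤ |t| / (T + |t|) := by
      rw [div_le_div_iff₀ (by positivity) (by positivity)]
      nlinarith [mul_le_mul_of_nonneg_right h hT.le]

lemma inv_gap0 {y δ tt : ℝ} (hδ : 0 < δ) (h : δ ≤ |y|) (h2 : |y| < tt) :
    δ / tt ^ 2 ≤ |y⁻¹| := by
  have hy : 0 < |y| := hδ.trans_le h
  have htt : 0 < tt := hy.trans h2
  rw [abs_inv, ← one_div, div_le_div_iff₀ (by positivity) hy]
  nlinarith [mul_le_mul h h2.le hy.le hy.le, mul_le_mul h2.le h2.le hy.le htt.le]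

lemma inv_gap {y y' δ tt : ℝ} (hδ : 0 < δ) (h : δ ≤ |y - y'|) (h1 : |y| < tt) (h2 : |y'| < tt) :
    δ / tt ^ 2 ≤ |y⁻¹ - y'⁻¹| := by
  have htt : 0 < tt := (abs_nonneg y).trans_lt h1
  by_cases hy : y = 0
  · subst hy
    rw [_root_.inv_zero, zero_sub, abs_neg]
    rw [zero_sub, abs_neg] at h
    exact inv_gap0 hδ h h2
  by_cases hy' : y' = 0
  · subst hy'
    rw [_root_.inv_zero, sub_zero]
    rw [sub_zero] at h
    exact inv_gap0 hδ h h1
  have e : y⁻¹ - y'⁻¹ = (y' - y) / (y * y') := by field_simp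
  rw [e, abs_div, abs_mul, abs_sub_comm y' y]
  have hp : 0 < |y| := abs_pos.2 hy
  have hp' : 0 < |y'| := abs_pos.2 hy'
  rw [div_le_div_iff₀ (by positivity) (by positivity)]
  calc δ * (|y| * |y'|) ≤ δ * (tt * tt) := by gcongr
    _ ≤ |y - y'| * tt ^ 2 := by rw [← pow_two]; gcongr

section
variable {s : ℕ → ℕ}

lemma YY_meas_left (lam : ℝ) (n : ℕ) (E : ℝ) : Measurable (fun v : Om s => YY s lam v n E) :=
  (YY_meas (s := s) lam n).comp (measurable_id.prodMk measurable_const)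

/-- the pairs for which the shell averages are far apart but bounded have a large probability -/
lemma pair_real (μ : Measure (Om s)) [IsProbabilityMeasure μ] (lam : ℝ) (n : ℕ) (E : ℝ)
    (c₃ δ tt : ℝ) (hc3 : 0 < c₃)
    (h1 : ENNReal.ofReal c₃ ≤ (μ.prod μ) {p | δ ≤ |YY s lam p.1 n E - YY s lam p.2 n E|})
    (h2 : μ {v | tt ≤ |YY s lam v n E|} < ENNReal.ofReal (c₃ / 4)) (Q : Set (Om s × Om s))
    (hQ : ∀ p : Om s × Om s, δ ≤ |YY s lam p.1 n E - YY s lam p.2 n E| → |YY s lam p.1 n E| < tt →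
      |YY s lam p.2 n E| < tt → p ∈ Q) : c₃ / 2 ≤ (μ.prod μ).real Q := by
  set S : Set (Om s) := {v | tt ≤ |YY s lam v n E|} with hS
  have hsub : {p : Om s × Om s | δ ≤ |YY s lam p.1 n E - YY s lam p.2 n E|} ⊆
      Q ∪ (S ×ˢ univ ∪ univ ×ˢ S) := by
    intro p hp
    by_cases ha : |YY s lam p.1 n E| < tt
    · by_cases hb : |YY s lam p.2 n E| < tt
      · exact Or.inl (hQ p hp ha hb)
      · exact Or.inr (Or.inr ⟨mem_univ _, not_lt.1 hb⟩)
    · exact Or.inr (Or.inl ⟨not_lt.1 ha, mem_univ _⟩)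
  have hS1 : (μ.prod μ) (S ×ˢ univ) = μ S := by rw [Measure.prod_prod, measure_univ, mul_one]
  have hS2 : (μ.prod μ) (univ ×ˢ S) = μ S := by rw [Measure.prod_prod, measure_univ, one_mul]
  have h3 : ENNReal.ofReal c₃ ≤ (μ.prod μ) Q +
      (ENNReal.ofReal (c₃ / 4) + ENNReal.ofReal (c₃ / 4)) := by
    refine h1.trans ((measure_mono hsub).trans ((measure_union_le _ _).trans ?_))
    gcongr
    refine (measure_union_le _ _).trans ?_
    rw [hS1, hS2]
    exact add_le_add h2.le h2.le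
  rw [← ENNReal.ofReal_add (by positivity) (by positivity)] at h3
  have h4 : (μ.prod μ) Q = ENNReal.ofReal ((μ.prod μ).real Q) := by
    rw [Measure.real, ENNReal.ofReal_toReal (measure_ne_top _ _)]
  rw [h4, ← ENNReal.ofReal_add measureReal_nonneg (by positivity),
    ENNReal.ofReal_le_ofReal_iff (by positivity)] at h3
  linarith

lemma integral_ge (μ : Measure (Om s)) [IsProbabilityMeasure μ] (lam : ℝ) (n : ℕ) (E : ℝ)
    (c₃ δ tt T x0 : ℝ) (hc3 : 0 < c₃) (hδ : 0 < δ) (htt : 0 < tt) (hT : 0 < T)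
    (hx0 : δ / tt ^ 2 ≤ x0)
    (h1 : ENNReal.ofReal c₃ ≤ (μ.prod μ) {p | δ ≤ |YY s lam p.1 n E - YY s lam p.2 n E|})
    (h2 : μ {v | tt ≤ |YY s lam v n E|} < ENNReal.ofReal (c₃ / 4)) :
    (δ / tt ^ 2 / (T + x0)) ^ 2 * (c₃ / 2) ≤ ∫ p : Om s × Om s,
      sq T ((YY s lam p.1 n E)⁻¹ - (YY s lam p.2 n E)⁻¹) ∂(μ.prod μ) := by
  have hm : Measurable (fun p : Om s × Om s =>
      sq T ((YY s lam p.1 n E)⁻¹ - (YY s lam p.2 n E)⁻¹)) := by
    apply (sq_meas T).comp
    exact ((YY_meas_left lam n E).comp measurable_fst).inv.sub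
      ((YY_meas_left lam n E).comp measurable_snd).inv
  have hint : Integrable (fun p : Om s × Om s =>
      sq T ((YY s lam p.1 n E)⁻¹ - (YY s lam p.2 n E)⁻¹)) (μ.prod μ) := by
    refine Integrable.of_bound hm.aestronglyMeasurable 1 (ae_of_all _ fun p => ?_)
    rw [Real.norm_eq_abs, abs_of_nonneg (sq_nn _ _)]
    exact sq_le_one hT _
  have hk := mul_meas_ge_le_integral_of_nonneg (ae_of_all _ fun p => sq_nn _ _) hint
    ((δ / tt ^ 2 / (T + x0)) ^ 2)
  refine le_trans ?_ hk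
  apply mul_le_mul_of_nonneg_left _ (by positivity)
  apply pair_real μ lam n E c₃ δ tt hc3 h1 h2
  intro p hp1 hp2 hp3
  exact sq_ge hT (by positivity) hx0 (inv_gap hδ hp1 hp2 hp3)

end

theorem t9 (h9 : T9a) (h10 : T10) : T9 := by
  intro Pv hPv lam a b T η hlam hab hT hη
  obtain ⟨c₂, c₃, hc2, hc3, H9⟩ := h9 Pv hPv lam a b hlam
  obtain ⟨C, hC, H10⟩ := h10 a b
  have : IsProbabilityMeasure Pv := hPv.1
  set tt : ℝ := 8 * C / (c₃ * η) with htt
  have htt0 : 0 < tt := by positivity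
  set x0 : ℝ := c₂ / tt ^ 2 with hx0
  have hx00 : 0 < x0 := by positivity
  refine ⟨(c₂ / tt ^ 2 / (T + x0)) ^ 2 * (c₃ / 2) * (η / 2), by positivity, ?_⟩
  intro s hs n G hG hGab hGη
  set μ : Measure (Om s) := PP s Pv with hμ
  have hsn : (0 : ℝ) < s n := by exact_mod_cast hs n
  have hsn1 : (1 : ℝ) ≤ s n := by exact_mod_cast hs n
  have hsq : 1 ≤ √(s n : ℝ) := by rw [Real.one_le_sqrt]; exact hsn1
  set A : ℝ → ENNReal := fun E => μ {v | tt ≤ |YY s lam v n E|} with hA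
  set S : Set (Om s × ℝ) := {p | tt ≤ |YY s lam p.1 n p.2|} with hS
  have hSm : MeasurableSet S := by
    have := YY_meas (s := s) lam n
    exact measurableSet_le measurable_const this.abs
  have hAm : Measurable A := measurable_measure_prodMk_right hSm
  have hfub : ∫⁻ E in Icc a b, A E ≤ ENNReal.ofReal (C / tt) := by
    have e1 : ∫⁻ E in Icc a b, A E = (μ.prod (volume.restrict (Icc a b))) S := by
      rw [Measure.prod_apply_symm hSm]
      rfl
    rw [e1, Measure.prod_apply hSm]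
    calc ∫⁻ v, (volume.restrict (Icc a b)) (Prod.mk v ⁻¹' S) ∂μ
        ≤ ∫⁻ v, ENNReal.ofReal (C / tt) ∂μ := by
          apply lintegral_mono
          intro v
          have hmv : MeasurableSet (Prod.mk v ⁻¹' S) := measurable_prodMk_left hSm
          simp only
          rw [Measure.restrict_apply hmv]
          refine le_trans (le_of_eq ?_) (H10 (s n) (hs n) (fun i => lam * v ⟨n, i⟩) tt htt0)
          congr 1
          ext E
          simp only [hS, YY, mem_inter_iff, mem_preimage, mem_ofPred_eq]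
          tauto
      _ = ENNReal.ofReal (C / tt) := by simp
  set Bad : Set ℝ := {E | ENNReal.ofReal (c₃ / 4) ≤ A E} with hBad
  have hBadm : MeasurableSet Bad := measurableSet_le measurable_const hAm
  have hbad : (volume.restrict (Icc a b)) Bad ≤ ENNReal.ofReal (η / 2) := by
    have h1 := meas_ge_le_lintegral_div (μ := volume.restrict (Icc a b)) hAm.aemeasurable
      (ε := ENNReal.ofReal (c₃ / 4)) (by simpa using hc3) ENNReal.ofReal_ne_top
    refine h1.trans ?_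
    calc (∫⁻ E in Icc a b, A E) / ENNReal.ofReal (c₃ / 4)
        ≤ ENNReal.ofReal (C / tt) / ENNReal.ofReal (c₃ / 4) := ENNReal.div_le_div_right hfub _
      _ = ENNReal.ofReal (C / tt / (c₃ / 4)) := by
          rw [ENNReal.ofReal_div_of_pos (x := C / tt) (y := c₃ / 4) (by positivity)]
      _ = ENNReal.ofReal (η / 2) := by
          congr 1
          rw [htt]
          field_simp
          norm_num
  have hGbad : volume (G ∩ Bad) ≤ ENNReal.ofReal (η / 2) := by
    refine le_trans ?_ hbad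
    rw [Measure.restrict_apply hBadm]
    apply measure_mono
    intro E hE
    exact ⟨hE.2, hGab hE.1⟩
  have hgood : ENNReal.ofReal (η / 2) ≤ volume (G \ Bad) := by
    have h1 : volume G ≤ volume (G ∩ Bad) + volume (G \ Bad) := by
      rw [measure_inter_add_sdiff G hBadm]
    have h2 : ENNReal.ofReal (η / 2) + ENNReal.ofReal (η / 2) = ENNReal.ofReal η := by
      rw [← ENNReal.ofReal_add (by positivity) (by positivity)]
      congr 1
      ring
    have h3 : ENNReal.ofReal (η / 2) + ENNReal.ofReal (η / 2) ≤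
        ENNReal.ofReal (η / 2) + volume (G \ Bad) := by
      rw [h2]
      refine hGη.trans (h1.trans ?_)
      gcongr
    exact (ENNReal.add_le_add_iff_left ENNReal.ofReal_ne_top).1 h3
  have hδ : 0 < c₂ / √(s n : ℝ) := by positivity
  have hxle : c₂ / √(s n : ℝ) / tt ^ 2 ≤ x0 := by
    rw [hx0]
    gcongr
    exact div_le_self hc2.le hsq
  have hpt : ∀ E ∈ G \ Bad, ENNReal.ofReal ((c₂ / √(s n : ℝ) / tt ^ 2 / (T + x0)) ^ 2 * (c₃ / 2)) ≤
      ENNReal.ofReal (∫ p : Om s × Om s,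
      sq T ((YY s lam p.1 n E)⁻¹ - (YY s lam p.2 n E)⁻¹) ∂(μ.prod μ)) := by
    intro E hE
    apply ENNReal.ofReal_le_ofReal
    apply integral_ge μ lam n E c₃ (c₂ / √(s n : ℝ)) tt T x0 hc3 hδ htt0 hT hxle
      (H9 s hs n E (hGab hE.1))
    exact not_le.1 hE.2
  calc ENNReal.ofReal ((c₂ / tt ^ 2 / (T + x0)) ^ 2 * (c₃ / 2) * (η / 2) / s n)
      = ENNReal.ofReal ((c₂ / √(s n : ℝ) / tt ^ 2 / (T + x0)) ^ 2 * (c₃ / 2)) *
        ENNReal.ofReal (η / 2) := by
        rw [← ENNReal.ofReal_mul (by positivity)]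
        congr 1
        have h5 : √(s n : ℝ) ^ 2 = s n := Real.sq_sqrt hsn.le
        have e : (c₂ / √(s n : ℝ) / tt ^ 2 / (T + x0)) ^ 2 =
            (c₂ / tt ^ 2 / (T + x0)) ^ 2 / s n := by
          have e2 : c₂ / √(s n : ℝ) / tt ^ 2 / (T + x0) =
              c₂ / tt ^ 2 / (T + x0) / √(s n : ℝ) := by ring
          rw [e2, div_pow _ (√(s n : ℝ)), h5]
        rw [e]
        ring
    _ ≤ ENNReal.ofReal ((c₂ / √(s n : ℝ) / tt ^ 2 / (T + x0)) ^ 2 * (c₃ / 2)) *
        volume (G \ Bad) := by gcongr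
    _ = ∫⁻ _ in G \ Bad,
        ENNReal.ofReal ((c₂ / √(s n : ℝ) / tt ^ 2 / (T + x0)) ^ 2 * (c₃ / 2)) := by
        rw [setLIntegral_const]
    _ ≤ ∫⁻ E in G \ Bad, ENNReal.ofReal (∫ p : Om s × Om s,
      sq T ((YY s lam p.1 n E)⁻¹ - (YY s lam p.2 n E)⁻¹) ∂(μ.prod μ)) :=
        setLIntegral_mono' (hG.diff hBadm) hpt
    _ ≤ _ := lintegral_mono_set sdiff_subset

end Pool.Agent.H449R3.AT
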