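import Pool.Agent.H452R3.CHI.Stmts

/-!
Task Janson of project H452-CHI: the inequality of Janson for finite product measures
(proof of Boppana and Spencer).
-/

set_option autoImplicit false

namespace Pool.Agent.H449R3.CHI

open Pool.Agent.H452R3.CHI Finset

open scoped Classical

variable {E : Type} [Fintype E]

/-- expectation in the product model -/
noncomputable def EP (p : E → ℝ) (f : Finset E → ℝ) : ℝ := ∑ T : Finset E, pw p T * f T

lemma pw_nonneg {p : E → ℝ} (h0 : ∀ e, 0 ≤ p e) (h1 : ∀ e, p e ≤ 1) (T : Finset E) :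
    0 ≤ pw p T := by
  unfold pw
  apply Finset.prod_nonneg
  intro e _
  split_ifs
  · exact h0 e
  · linarith [h1 e]

lemma pw_mul (p : E → ℝ) (S T : Finset E) : pw p S * pw p T = pw p (S ⊓ T) * pw p (S ⊔ T) := by
  unfold pw
  rw [← Finset.prod_mul_distrib, ← Finset.prod_mul_distrib]
  apply Finset.prod_congr rfl
  intro e _
  by_cases h1 : e ∈ S <;> by_cases h2 : e ∈ T <;> simp [h1, h2, mul_comm]

lemma sum_split (e : E) (g : Finset E → ℝ) :
    ∑ T : Finset E, g T = ∑ t ∈ (univ.erase e).powerset, g t +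
      ∑ t ∈ (univ.erase e).powerset, g (insert e t) := by
  rw [← Finset.sum_powerset_insert (Finset.notMem_erase e univ) g,
    Finset.insert_erase (mem_univ e), Finset.powerset_univ]

lemma pw_split (p : E → ℝ) (e : E) (T : Finset E) :
    pw p T = (if e ∈ T then p e else 1 - p e) *
      ∏ x ∈ univ.erase e, (if x ∈ T then p x else 1 - p x) := by
  unfold pw
  exact (Finset.mul_prod_erase univ (fun x => if x ∈ T then p x else 1 - p x) (mem_univ e)).symm

lemma step1 (p : E → ℝ) (e : E) (f : Finset E → ℝ) (hf : ∀ T, f (insert e T) = f T) :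
    EP p (fun T => if e ∈ T then 0 else f T) = (1 - p e) * EP p f := by
  unfold EP
  rw [sum_split e, sum_split e (fun T => pw p T * f T), mul_add, Finset.mul_sum, Finset.mul_sum,
    ← Finset.sum_add_distrib, ← Finset.sum_add_distrib]
  apply Finset.sum_congr rfl
  intro t ht
  have het : e ∉ t := fun h => by
    have := (Finset.mem_powerset.1 ht) h
    simp at this
  have h1 : pw p (insert e t) = p e * ∏ x ∈ univ.erase e, (if x ∈ t then p x else 1 - p x) := by
    rw [pw_split p e, if_pos (Finset.mem_insert_self e t)]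
    congr 1
    apply Finset.prod_congr rfl
    intro x hx
    have hxe : x ≠ e := Finset.ne_of_mem_erase hx
    simp [Finset.mem_insert, hxe]
  have h2 : pw p t = (1 - p e) * ∏ x ∈ univ.erase e, (if x ∈ t then p x else 1 - p x) := by
    rw [pw_split p e, if_neg het]
  simp only [het, if_false, Finset.mem_insert_self, if_true, mul_zero, add_zero]
  rw [h1, h2, hf]
  ring

lemma disj (p : E → ℝ) (F : Finset E) : ∀ f : Finset E → ℝ,
    (∀ e ∈ F, ∀ T, f (insert e T) = f T) →
    EP p (fun T => if Disjoint T F then f T else 0) = (∏ e ∈ F, (1 - p e)) * EP p f := by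
  induction F using Finset.induction_on with
  | empty =>
    intro f _
    simp
  | insert e F he ih =>
    intro f hf
    have h1 : (fun T : Finset E => if Disjoint T (insert e F) then f T else 0) =
        fun T => if Disjoint T F then (if e ∈ T then 0 else f T) else 0 := by
      funext T
      have hd : Disjoint T (insert e F) ↔ e ∉ T ∧ Disjoint T F := Finset.disjoint_insert_right
      by_cases h2 : e ∈ T <;> by_cases h3 : Disjoint T F <;> simp [hd, h2, h3]
    rw [h1, ih, step1 p e f (hf e (Finset.mem_insert_self e F)), Finset.prod_insert he]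
    · ring
    · intro x hx T
      have hxe : e ≠ x := fun h => he (h ▸ hx)
      simp only [Finset.mem_insert, hxe, false_or, hf x (Finset.mem_insert_of_mem hx) T]

lemma EP_one (p : E → ℝ) : EP p (fun _ => 1) = 1 := by
  have h1 : ∏ e : E, (p e + (1 - p e)) = 1 := by simp
  rw [Finset.prod_add, Finset.powerset_univ] at h1
  unfold EP
  refine Eq.trans ?_ h1
  apply Finset.sum_congr rfl
  intro T _
  unfold pw
  rw [mul_one, Finset.prod_ite]
  congr 1
  · apply Finset.prod_congr _ fun _ _ => rfl
    ext x; simp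
  · apply Finset.prod_congr _ fun _ _ => rfl
    ext x; simp

lemma EP_disj (p : E → ℝ) (F : Finset E) :
    EP p (fun T => if Disjoint T F then 1 else 0) = ∏ e ∈ F, (1 - p e) := by
  have := disj p F (fun _ => 1) (fun _ _ _ => rfl)
  rw [this, EP_one, mul_one]

lemma EP_mono {p : E → ℝ} (h0 : ∀ e, 0 ≤ p e) (h1 : ∀ e, p e ≤ 1) {f g : Finset E → ℝ}
    (h : ∀ T, f T ≤ g T) : EP p f ≤ EP p g := by
  unfold EP
  exact Finset.sum_le_sum fun T _ => mul_le_mul_of_nonneg_left (h T) (pw_nonneg h0 h1 T)

lemma EP_sub (p : E → ℝ) (f g : Finset E → ℝ) : EP p (fun T => f T - g T) = EP p f - EP p g := by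
  unfold EP
  rw [← Finset.sum_sub_distrib]
  exact Finset.sum_congr rfl fun T _ => by ring

lemma EP_sum (p : E → ℝ) {ι : Type} (s : Finset ι) (f : ι → Finset E → ℝ) :
    EP p (fun T => ∑ j ∈ s, f j T) = ∑ j ∈ s, EP p (f j) := by
  unfold EP
  rw [Finset.sum_comm]
  exact Finset.sum_congr rfl fun T _ => by rw [Finset.mul_sum]

lemma harris {p : E → ℝ} (h0 : ∀ e, 0 ≤ p e) (h1 : ∀ e, p e ≤ 1) (f g : Finset E → ℝ)
    (hf : Monotone f) (hf0 : ∀ T, 0 ≤ f T) (hg : Antitone g) (hg1 : ∀ T, g T ≤ 1) :
    EP p (fun T => f T * g T) ≤ EP p f * EP p g := by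
  have h := fkg (α := Finset E) (β := ℝ) (μ := pw p) (f := f) (g := fun T => 1 - g T)
    (fun T => pw_nonneg h0 h1 T) hf0 (fun T => by simpa using hg1 T) hf
    (fun S T hST => sub_le_sub_left (hg hST) 1) (fun S T => (pw_mul p S T).le)
  have e1 : ∑ T : Finset E, pw p T * (1 - g T) = 1 - EP p g := by
    have := EP_sub p (fun _ => 1) g
    rw [EP_one] at this
    exact this
  have e2 : ∑ T : Finset E, pw p T = 1 := by
    have := EP_one p
    unfold EP at this
    simpa using this
  have e3 : ∑ T : Finset E, pw p T * (f T * (1 - g T)) = EP p f - EP p (fun T => f T * g T) := by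
    rw [← EP_sub]
    unfold EP
    exact Finset.sum_congr rfl fun T _ => by ring
  have e4 : ∑ T : Finset E, pw p T * f T = EP p f := rfl
  rw [e1, e2, e3, e4] at h
  linarith

section
variable {ι : Type} [Fintype ι] (F : ι → Finset E)

/-- indicator of the event that all the sets `F i`, `i ∈ S`, are met -/
noncomputable def cc (S : Finset ι) (T : Finset E) : ℝ := if ∀ i ∈ S, ¬ Disjoint T (F i) then 1 else 0

lemma cc_nonneg (S : Finset ι) (T : Finset E) : 0 ≤ cc F S T := by
  unfold cc; split_ifs <;> norm_num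

lemma cc_le_one (S : Finset ι) (T : Finset E) : cc F S T ≤ 1 := by
  unfold cc; split_ifs <;> norm_num

lemma cc_mono (S : Finset ι) : Monotone (cc F S) := by
  intro T T' h
  unfold cc
  by_cases h1 : ∀ i ∈ S, ¬ Disjoint T (F i)
  · rw [if_pos h1, if_pos]
    intro i hi h2
    exact h1 i hi (h2.mono_left h)
  · rw [if_neg h1]
    split_ifs <;> norm_num

lemma cc_subset {S S' : Finset ι} (h : S ⊆ S') (T : Finset E) : cc F S' T ≤ cc F S T := by
  unfold cc
  by_cases h1 : ∀ i ∈ S', ¬ Disjoint T (F i)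
  · rw [if_pos h1, if_pos fun i hi => h1 i (h hi)]
  · rw [if_neg h1]
    split_ifs <;> norm_num

lemma cc_insert (k : ι) (S : Finset ι) (T : Finset E) :
    cc F (insert k S) T = cc F S T - cc F S T * (if Disjoint T (F k) then 1 else 0) := by
  unfold cc
  by_cases h1 : ∀ i ∈ S, ¬ Disjoint T (F i)
  · by_cases h2 : Disjoint T (F k)
    · rw [if_pos h1, if_pos h2, if_neg]
      · norm_num
      · intro h3
        exact h3 k (Finset.mem_insert_self k S) h2
    · rw [if_pos h1, if_neg h2, if_pos]
      · norm_num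
      · intro i hi
        rcases Finset.mem_insert.1 hi with rfl | hi
        · exact h2
        · exact h1 i hi
  · rw [if_neg h1, if_neg]
    · norm_num
    · intro h3
      exact h1 fun i hi => h3 i (Finset.mem_insert_of_mem hi)

lemma step_lower (k : ι) (S : Finset ι) (T : Finset E) :
    cc F (S.filter fun j => Disjoint (F k) (F j)) T * (if Disjoint T (F k) then 1 else 0) -
      ∑ j ∈ S.filter (fun j => ¬ Disjoint (F k) (F j)),
        cc F (S.filter fun j => Disjoint (F k) (F j)) T *
          (if Disjoint T (F k ∪ F j) then 1 else 0) ≤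
    cc F S T * (if Disjoint T (F k) then 1 else 0) := by
  set N := S.filter fun j => Disjoint (F k) (F j) with hN
  have hnn : ∀ j, 0 ≤ cc F N T * (if Disjoint T (F k ∪ F j) then (1 : ℝ) else 0) := by
    intro j
    apply mul_nonneg (cc_nonneg F N T)
    split_ifs <;> norm_num
  have hs : 0 ≤ ∑ j ∈ S.filter (fun j => ¬ Disjoint (F k) (F j)),
      cc F N T * (if Disjoint T (F k ∪ F j) then (1 : ℝ) else 0) :=
    Finset.sum_nonneg fun j _ => hnn j
  by_cases h2 : Disjoint T (F k)
  · rw [if_pos h2, mul_one, mul_one]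
    by_cases h1 : ∀ i ∈ S, ¬ Disjoint T (F i)
    · have h3 : cc F S T = 1 := by unfold cc; rw [if_pos h1]
      have h4 := cc_le_one F N T
      linarith
    · have h3 : cc F S T = 0 := by unfold cc; rw [if_neg h1]
      rw [h3]
      by_cases h5 : ∀ i ∈ N, ¬ Disjoint T (F i)
      · have h6 : cc F N T = 1 := by unfold cc; rw [if_pos h5]
        push Not at h1
        obtain ⟨i, hi, hid⟩ := h1
        have hiD : i ∈ S.filter (fun j => ¬ Disjoint (F k) (F j)) := by
          rw [Finset.mem_filter]
          refine ⟨hi, fun h7 => ?_⟩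
          exact h5 i (Finset.mem_filter.2 ⟨hi, h7⟩) hid
        have h8 := Finset.single_le_sum (f := fun j =>
          cc F N T * (if Disjoint T (F k ∪ F j) then (1 : ℝ) else 0)) (fun j _ => hnn j) hiD
        have h9 : Disjoint T (F k ∪ F i) := Finset.disjoint_union_right.2 ⟨h2, hid⟩
        simp only [if_pos h9, mul_one] at h8
        linarith
      · have h6 : cc F N T = 0 := by unfold cc; rw [if_neg h5]
        linarith
  · rw [if_neg h2, mul_zero, mul_zero]
    linarith

lemma main_step {p : E → ℝ} (h0 : ∀ e, 0 ≤ p e) (h1 : ∀ e, p e ≤ 1) (k : ι) (S : Finset ι) :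
    EP p (cc F (insert k S)) ≤ EP p (cc F S) * (1 - ∏ e ∈ F k, (1 - p e) +
      ∑ j ∈ S.filter (fun j => ¬ Disjoint (F k) (F j)), ∏ e ∈ F k ∪ F j, (1 - p e)) := by
  set N := S.filter fun j => Disjoint (F k) (F j) with hN
  set D := S.filter fun j => ¬ Disjoint (F k) (F j) with hD
  set A : ℝ := ∏ e ∈ F k, (1 - p e) with hA
  set δ : ℝ := ∑ j ∈ D, ∏ e ∈ F k ∪ F j, (1 - p e) with hδ
  have hS0 : 0 ≤ EP p (cc F S) := by
    have := EP_mono h0 h1 (f := fun _ => 0) (g := cc F S) (fun T => cc_nonneg F S T)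
    simpa [EP] using this
  have hN0 : 0 ≤ EP p (cc F N) := by
    have := EP_mono h0 h1 (f := fun _ => 0) (g := cc F N) (fun T => cc_nonneg F N T)
    simpa [EP] using this
  have hSN : EP p (cc F S) ≤ EP p (cc F N) :=
    EP_mono h0 h1 fun T => cc_subset F (Finset.filter_subset _ _) T
  have e1 : EP p (cc F (insert k S)) = EP p (cc F S) -
      EP p (fun T => cc F S T * (if Disjoint T (F k) then 1 else 0)) := by
    rw [← EP_sub]
    congr 1
    funext T
    exact cc_insert F k S T
  have e2 : EP p (fun T => cc F N T * (if Disjoint T (F k) then 1 else 0)) = A * EP p (cc F N) := by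
    rw [hA, ← disj p (F k) (cc F N)]
    · congr 1
      funext T
      split_ifs <;> simp
    · intro e he T
      unfold cc
      congr 1
      apply propext
      refine forall_congr' fun i => forall_congr' fun hi => not_congr ?_
      rw [Finset.disjoint_insert_left]
      have h3 := (Finset.mem_filter.1 hi).2
      have h4 : e ∉ F i := Finset.disjoint_left.1 h3 he
      simp [h4]
  have e3 : ∀ j ∈ D, EP p (fun T => cc F N T * (if Disjoint T (F k ∪ F j) then 1 else 0)) ≤
      EP p (cc F N) * ∏ e ∈ F k ∪ F j, (1 - p e) := by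
    intro j _
    rw [← EP_disj]
    apply harris h0 h1 _ _ (cc_mono F N) (cc_nonneg F N)
    · intro T T' h
      by_cases h3 : Disjoint T' (F k ∪ F j)
      · simp only [if_pos h3, if_pos (h3.mono_left h), le_refl]
      · simp only [if_neg h3]
        split_ifs <;> norm_num
    · intro T
      split_ifs <;> norm_num
  have e4 : A * EP p (cc F N) - EP p (cc F N) * δ ≤
      EP p (fun T => cc F S T * (if Disjoint T (F k) then 1 else 0)) := by
    have h3 := EP_mono h0 h1 (step_lower F k S)
    rw [EP_sub, EP_sum, e2] at h3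
    have h4 : ∑ j ∈ D, EP p (fun T => cc F N T * (if Disjoint T (F k ∪ F j) then 1 else 0)) ≤
        EP p (cc F N) * δ := by
      rw [hδ, Finset.mul_sum]
      exact Finset.sum_le_sum e3
    linarith
  have e5 : 0 ≤ EP p (fun T => cc F S T * (if Disjoint T (F k) then 1 else 0)) := by
    have := EP_mono h0 h1 (f := fun _ => 0)
      (g := fun T => cc F S T * (if Disjoint T (F k) then 1 else 0)) (fun T => by
        apply mul_nonneg (cc_nonneg F S T)
        split_ifs <;> norm_num)
    simpa [EP] using this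
  rw [e1]
  by_cases h5 : 0 ≤ A - δ
  · have h6 : EP p (cc F S) * (A - δ) ≤ EP p (cc F N) * (A - δ) :=
      mul_le_mul_of_nonneg_right hSN h5
    nlinarith
  · push Not at h5
    nlinarith

lemma main_ind {p : E → ℝ} (h0 : ∀ e, 0 ≤ p e) (h1 : ∀ e, p e ≤ 1) (S : Finset ι) :
    EP p (cc F S) ≤ Real.exp (- ∑ i ∈ S, ∏ e ∈ F i, (1 - p e)
          + (1 / 2) * ∑ i ∈ S, ∑ j ∈ S,
              if i ≠ j ∧ ¬ Disjoint (F i) (F j) then ∏ e ∈ F i ∪ F j, (1 - p e) else 0) := by
  induction S using Finset.induction_on with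
  | empty =>
    have h3 := EP_mono h0 h1 (f := cc F ∅) (g := fun _ => 1) (cc_le_one F ∅)
    rw [EP_one] at h3
    simpa using h3
  | insert k S hk ih =>
    set A : ℝ := ∏ e ∈ F k, (1 - p e) with hA
    set δ : ℝ := ∑ j ∈ S.filter (fun j => ¬ Disjoint (F k) (F j)), ∏ e ∈ F k ∪ F j, (1 - p e)
      with hδ
    have hstep := main_step F h0 h1 k S
    have hS0 : 0 ≤ EP p (cc F S) := by
      have := EP_mono h0 h1 (f := fun _ => 0) (g := cc F S) (fun T => cc_nonneg F S T)
      simpa [EP] using this
    have h3 : 1 - A + δ ≤ Real.exp (-A + δ) := by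
      have := Real.add_one_le_exp (-A + δ)
      linarith
    have h4 : EP p (cc F (insert k S)) ≤ EP p (cc F S) * Real.exp (-A + δ) :=
      hstep.trans (mul_le_mul_of_nonneg_left h3 hS0)
    refine h4.trans ((mul_le_mul_of_nonneg_right ih (Real.exp_pos _).le).trans (le_of_eq ?_))
    rw [← Real.exp_add]
    congr 1
    set G : ι → ι → ℝ := fun i j =>
      if i ≠ j ∧ ¬ Disjoint (F i) (F j) then ∏ e ∈ F i ∪ F j, (1 - p e) else 0 with hG
    have hsymm : ∀ i j, G i j = G j i := by
      intro i j
      simp only [hG]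
      rw [Finset.union_comm (F i) (F j)]
      by_cases h5 : i ≠ j ∧ ¬ Disjoint (F i) (F j)
      · rw [if_pos h5, if_pos ⟨h5.1.symm, fun h => h5.2 h.symm⟩]
      · rw [if_neg h5, if_neg fun h => h5 ⟨h.1.symm, fun h' => h.2 h'.symm⟩]
    have hkk : G k k = 0 := by simp [hG]
    have hδ2 : δ = ∑ j ∈ S, G k j := by
      rw [hδ, Finset.sum_filter]
      apply Finset.sum_congr rfl
      intro j hj
      have hkj : k ≠ j := fun h => hk (h ▸ hj)
      simp [hG, hkj]
    have e6 : ∑ i ∈ insert k S, ∑ j ∈ insert k S, G i j =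
        (∑ i ∈ S, ∑ j ∈ S, G i j) + 2 * δ := by
      rw [Finset.sum_insert hk, Finset.sum_insert hk, hkk]
      have e7 : ∑ i ∈ S, ∑ j ∈ insert k S, G i j = ∑ i ∈ S, (G i k + ∑ j ∈ S, G i j) :=
        Finset.sum_congr rfl fun i _ => Finset.sum_insert hk
      rw [e7, Finset.sum_add_distrib]
      have e8 : ∑ i ∈ S, G i k = δ := by
        rw [hδ2]
        exact Finset.sum_congr rfl fun i _ => hsymm i k
      rw [e8, ← hδ2]
      ring
    change _ = -∑ i ∈ insert k S, ∏ e ∈ F i, (1 - p e) + 1 / 2 *
      ∑ i ∈ insert k S, ∑ j ∈ insert k S, G i j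
    rw [e6, Finset.sum_insert hk]
    change -∑ i ∈ S, ∏ e ∈ F i, (1 - p e) + 1 / 2 * ∑ i ∈ S, ∑ j ∈ S, G i j + (-A + δ) = _
    ring

end

theorem taskJanson : TaskJanson := by
  intro E _ p h0 h1 ι _ F
  have h := main_ind F h0 h1 Finset.univ
  refine le_trans (le_of_eq ?_) h
  unfold EP cc
  apply Finset.sum_congr rfl
  intro T _
  simp

end Pool.Agent.H449R3.CHI
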