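import Pool.Agent.H111R5.CP.Stmts

/-!
Task G of project H111-CP: centred Gaussian fields with a given covariance exist
(triangular decomposition of the covariance, then linear combinations of independent
standard Gaussian variables).
-/

set_option autoImplicit false

open MeasureTheory ProbabilityTheory Filter Finset

namespace Pool.Agent.H449R3.CPG

/-- a positive semidefinite symmetric kernel on the natural numbers -/
structure PK (c : ℕ → ℕ → ℝ) : Prop where
  symm : ∀ x y, c x y = c y x
  psd : ∀ (s : Finset ℕ) (a : ℕ → ℝ), 0 ≤ ∑ x ∈ s, ∑ y ∈ s, a x * a y * c x y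

lemma PK.diag {c : ℕ → ℕ → ℝ} (h : PK c) (k : ℕ) : 0 ≤ c k k := by
  have := h.psd {k} (fun _ => 1)
  simpa using this

lemma PK.shift {c : ℕ → ℕ → ℝ} (h : PK c) (s : Finset ℕ) (k : ℕ) (a : ℕ → ℝ) (t : ℝ) :
    0 ≤ ∑ x ∈ s, ∑ y ∈ s, a x * a y * c x y + 2 * t * ∑ x ∈ s, a x * c x k + t ^ 2 * c k k := by
  set a' : ℕ → ℝ := fun x => (if x ∈ s then a x else 0) + (if x = k then t else 0) with ha'
  have hB : ∀ g : ℕ → ℝ, ∑ x ∈ insert k s, a' x * g x = ∑ x ∈ s, a x * g x + t * g k := by
    intro g
    have h1 : ∑ x ∈ insert k s, (if x ∈ s then a x else 0) * g x = ∑ x ∈ s, a x * g x := by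
      rw [← Finset.sum_subset (Finset.subset_insert k s)]
      · exact Finset.sum_congr rfl fun x hx => by rw [if_pos hx]
      · intro x _ hx
        rw [if_neg hx, zero_mul]
    have h2 : ∑ x ∈ insert k s, (if x = k then t else 0) * g x = t * g k := by
      rw [Finset.sum_eq_single k]
      · rw [if_pos rfl]
      · intro x _ hx
        rw [if_neg hx, zero_mul]
      · intro hk
        exact absurd (Finset.mem_insert_self k s) hk
    rw [← h1, ← h2, ← Finset.sum_add_distrib]
    exact Finset.sum_congr rfl fun x _ => by simp only [ha']; ring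
  have h0 := h.psd (insert k s) a'
  have h3 : ∑ x ∈ insert k s, ∑ y ∈ insert k s, a' x * a' y * c x y =
      ∑ x ∈ insert k s, a' x * (∑ y ∈ s, a y * c x y + t * c x k) := by
    apply Finset.sum_congr rfl
    intro x _
    rw [← hB (fun y => c x y), Finset.mul_sum]
    exact Finset.sum_congr rfl fun y _ => by ring
  rw [h3, hB] at h0
  have h4 : ∑ x ∈ s, a x * (∑ y ∈ s, a y * c x y + t * c x k) =
      ∑ x ∈ s, ∑ y ∈ s, a x * a y * c x y + t * ∑ x ∈ s, a x * c x k := by
    rw [Finset.mul_sum, ← Finset.sum_add_distrib]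
    apply Finset.sum_congr rfl
    intro x _
    rw [mul_add, Finset.mul_sum]
    congr 1
    · exact Finset.sum_congr rfl fun y _ => by ring
    · ring
  have h5 : ∑ y ∈ s, a y * c k y = ∑ x ∈ s, a x * c x k :=
    Finset.sum_congr rfl fun y _ => by rw [h.symm k y]
  rw [h4, h5] at h0
  linarith

lemma PK.zero {c : ℕ → ℕ → ℝ} (h : PK c) {k : ℕ} (hk : c k k = 0) (n : ℕ) : c k n = 0 := by
  by_contra hne
  have h1 := h.shift {n} k (fun _ => 1) (-(c n n + 1) / (2 * c k n))
  simp only [Finset.sum_singleton, one_mul, hk, mul_zero, add_zero] at h1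
  rw [h.symm n k] at h1
  have h2 : 2 * (-(c n n + 1) / (2 * c k n)) * c k n = -(c n n + 1) := by
    field_simp
  rw [h2] at h1
  linarith

lemma PK.step {c : ℕ → ℕ → ℝ} (h : PK c) (k : ℕ) :
    PK (fun x y => c x y - c x k * c k y / c k k) := by
  refine ⟨fun x y => ?_, fun s a => ?_⟩
  · show c x y - c x k * c k y / c k k = c y x - c y k * c k x / c k k
    rw [h.symm x y, h.symm x k, h.symm k y]
    ring
  · have h1 : ∑ x ∈ s, ∑ y ∈ s, a x * a y * (c x y - c x k * c k y / c k k) =
        ∑ x ∈ s, ∑ y ∈ s, a x * a y * c x y -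
          (∑ x ∈ s, a x * c x k) * (∑ x ∈ s, a x * c x k) / c k k := by
      rw [Finset.sum_mul_sum, Finset.sum_div, ← Finset.sum_sub_distrib]
      apply Finset.sum_congr rfl
      intro x _
      rw [Finset.sum_div, ← Finset.sum_sub_distrib]
      apply Finset.sum_congr rfl
      intro y _
      rw [h.symm k y]
      ring
    show 0 ≤ ∑ x ∈ s, ∑ y ∈ s, a x * a y * (c x y - c x k * c k y / c k k)
    rw [h1]
    rcases eq_or_lt_of_le (h.diag k) with h2 | h2
    · rw [← h2, div_zero, sub_zero]
      exact h.psd s a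
    · set B := ∑ x ∈ s, a x * c x k with hB
      have h3 := h.shift s k a (-B / c k k)
      rw [← hB] at h3
      have h4 : 2 * (-B / c k k) * B + (-B / c k k) ^ 2 * c k k = - (B * B / c k k) := by
        field_simp
        ring
      linarith

/-- successive Schur complements -/
noncomputable def it (c : ℕ → ℕ → ℝ) : ℕ → (ℕ → ℕ → ℝ)
  | 0 => c
  | k + 1 => fun x y => it c k x y - it c k x k * it c k k y / it c k k k

lemma it_PK {c : ℕ → ℕ → ℝ} (h : PK c) (k : ℕ) : PK (it c k) := by
  induction k with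
  | zero => exact h
  | succ k ih => exact ih.step k

lemma it_zero {c : ℕ → ℕ → ℝ} (h : PK c) (k : ℕ) : ∀ i, i < k → ∀ n, it c k i n = 0 := by
  induction k with
  | zero => intro i hi; omega
  | succ k ih =>
    intro i hi n
    show it c k i n - it c k i k * it c k k n / it c k k k = 0
    rcases Nat.lt_succ_iff_lt_or_eq.1 hi with h1 | h1
    · rw [ih i h1 n, ih i h1 k]; simp
    · subst h1
      by_cases h2 : it c i i i = 0
      · rw [(it_PK h i).zero h2 n]; simp
      · field_simp
        ring

/-- triangular root -/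
noncomputable def v (c : ℕ → ℕ → ℝ) (m k : ℕ) : ℝ := it c k m k / √(it c k k k)

lemma v_mul {c : ℕ → ℕ → ℝ} (h : PK c) (m n k : ℕ) :
    v c m k * v c n k = it c k m k * it c k k n / it c k k k := by
  unfold v
  rw [div_mul_div_comm, Real.mul_self_sqrt ((it_PK h k).diag k), (it_PK h k).symm n k]

lemma v_zero {c : ℕ → ℕ → ℝ} (h : PK c) {m k : ℕ} (hmk : m < k) : v c m k = 0 := by
  unfold v
  rw [it_zero h k m hmk k, zero_div]

lemma gram {c : ℕ → ℕ → ℝ} (h : PK c) (m n : ℕ) : ∀ K : ℕ,
    c m n = ∑ k ∈ range K, v c m k * v c n k + it c K m n := by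
  intro K
  induction K with
  | zero => simp [it]
  | succ K ih =>
    rw [Finset.sum_range_succ, v_mul h]
    show c m n = ∑ k ∈ range K, v c m k * v c n k + it c K m K * it c K K n / it c K K K +
      (it c K m n - it c K m K * it c K K n / it c K K K)
    rw [ih]
    ring

lemma gram' {c : ℕ → ℕ → ℝ} (h : PK c) {m K : ℕ} (hm : m < K) (n : ℕ) :
    ∑ k ∈ range K, v c m k * v c n k = c m n := by
  have := gram h m n K
  rw [it_zero h K m hm n, add_zero] at this
  exact this.symm

/-- law of a linear combination of independent standard Gaussian variables -/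
lemma law (b : ℕ → ℝ) (K : ℕ) :
    (Measure.infinitePi (fun _ : ℕ => gaussianReal 0 1)).map (fun w => ∑ k ∈ range K, b k * w k) =
      gaussianReal 0 (Real.toNNReal (∑ k ∈ range K, b k ^ 2)) := by
  induction K with
  | zero =>
    simp only [Finset.range_zero, Finset.sum_empty, Real.toNNReal_zero, gaussianReal_zero_var]
    rw [Measure.map_const]
    simp
  | succ K ih =>
    have hind : iIndepFun (fun (k : ℕ) (w : ℕ → ℝ) => b k * w k)
        (Measure.infinitePi (fun _ : ℕ => gaussianReal 0 1)) :=
      iIndepFun_infinitePi (X := fun (k : ℕ) (x : ℝ) => b k * x) (fun k => by fun_prop)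
    have h1 := hind.indepFun_finsetSum_of_notMem (s := range K) (i := K)
      (fun k => by fun_prop) (by simp)
    have e1 : (∑ j ∈ range K, fun w : ℕ → ℝ => b j * w j) =
        fun w => ∑ k ∈ range K, b k * w k := by
      funext w
      rw [Finset.sum_apply]
    rw [e1] at h1
    have h2 : (Measure.infinitePi (fun _ : ℕ => gaussianReal 0 1)).map (fun w => b K * w K) =
        gaussianReal 0 (Real.toNNReal (b K ^ 2)) := by
      have h3 : (fun w : ℕ → ℝ => b K * w K) = (fun x : ℝ => b K * x) ∘ (fun w => w K) := rfl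
      rw [h3, ← Measure.map_map (by fun_prop) (by fun_prop), Measure.infinitePi_map_eval]
      rw [gaussianReal_map_const_mul, mul_zero, mul_one]
      congr 1
      ext
      simp [Real.coe_toNNReal _ (sq_nonneg (b K))]
    have h4 := gaussianReal_add_gaussianReal_of_indepFun h1 ih h2
    rw [Finset.sum_range_succ, Real.toNNReal_add (Finset.sum_nonneg fun k _ => sq_nonneg _)
      (sq_nonneg _)]
    rw [add_zero] at h4
    rw [← h4]
    congr 1
    funext w
    rw [Finset.sum_range_succ]
    rfl

theorem taskG : Pool.Agent.H111R5.CP.TaskG := by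
  intro c hsymm hpsd
  obtain ⟨e⟩ : Nonempty ((Fin 3 → ℤ) ≃ ℕ) := nonempty_equiv_of_countable
  set C : ℕ → ℕ → ℝ := fun m n => c (e.symm m) (e.symm n) with hC
  have hPK : PK C := by
    refine ⟨fun x y => hsymm _ _, fun s a => ?_⟩
    have h1 := hpsd (s.map e.symm.toEmbedding) (fun x => a (e x))
    simpa [Finset.sum_map, hC] using h1
  set Φ : (ℕ → ℝ) → ((Fin 3 → ℤ) → ℝ) := fun w x => ∑ k ∈ range (e x + 1), v C (e x) k * w k
    with hΦ
  have hΦm : Measurable Φ := by
    apply measurable_pi_lambda
    intro x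
    simp only [hΦ]
    fun_prop
  refine ⟨(Measure.infinitePi (fun _ : ℕ => gaussianReal 0 1)).map Φ,
    Measure.isProbabilityMeasure_map hΦm.aemeasurable, ?_⟩
  intro s a
  rw [Measure.map_map (by fun_prop) hΦm]
  set K : ℕ := s.sup (fun x => e x + 1) with hK
  have hKx : ∀ x ∈ s, e x < K := by
    intro x hx
    have : e x + 1 ≤ K := Finset.le_sup (f := fun x => e x + 1) hx
    omega
  have h1 : ((fun ω : (Fin 3 → ℤ) → ℝ => ∑ x ∈ s, a x * ω x) ∘ Φ) =
      fun w => ∑ k ∈ range K, (∑ x ∈ s, a x * v C (e x) k) * w k := by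
    funext w
    simp only [Function.comp, hΦ]
    have h2 : ∀ x ∈ s, ∑ k ∈ range (e x + 1), v C (e x) k * w k =
        ∑ k ∈ range K, v C (e x) k * w k := by
      intro x hx
      apply Finset.sum_subset
      · intro k hk
        rw [Finset.mem_range] at hk ⊢
        have := hKx x hx
        omega
      · intro k _ hk
        rw [Finset.mem_range, not_lt] at hk
        rw [v_zero hPK (by omega), zero_mul]
    rw [Finset.sum_congr rfl fun x hx => by rw [h2 x hx, Finset.mul_sum], Finset.sum_comm]
    apply Finset.sum_congr rfl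
    intro k _
    rw [Finset.sum_mul]
    exact Finset.sum_congr rfl fun x _ => by ring
  rw [h1, law]
  congr 2
  have h3 : ∀ k, (∑ x ∈ s, a x * v C (e x) k) ^ 2 =
      ∑ x ∈ s, ∑ y ∈ s, a x * a y * (v C (e x) k * v C (e y) k) := by
    intro k
    rw [sq, Finset.sum_mul_sum]
    exact Finset.sum_congr rfl fun x _ => Finset.sum_congr rfl fun y _ => by ring
  rw [Finset.sum_congr rfl fun k _ => h3 k, Finset.sum_comm]
  apply Finset.sum_congr rfl
  intro x hx
  rw [Finset.sum_comm]
  apply Finset.sum_congr rfl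
  intro y _
  rw [← Finset.mul_sum, gram' hPK (hKx x hx)]
  simp [hC]

end Pool.Agent.H449R3.CPG
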