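import Pool.Agent.H487R3.Cau.Stmts

/-!
Task T8 (translation) of project H487-CAUCHY.
-/

set_option autoImplicit false

open MeasureTheory Filter Set Topology
open scoped ENNReal NNReal

namespace Pool.Agent.H449R3.CauTr

open Pool.Agent.H487R3.Cau

lemma pre (α : ℝ) : (fun x : ℝ => x + α) ⁻¹' Ico α (α + 1) = Ico (0 : ℝ) 1 := by
  ext x
  simp only [mem_preimage, mem_Ico]
  constructor <;> rintro ⟨h1, h2⟩ <;> constructor <;> linarith

lemma emb (α : ℝ) : MeasurableEmbedding (fun x : ℝ => x + α) :=
  (MeasurableEquiv.addRight α).measurableEmbedding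

lemma mp (α : ℝ) : MeasurePreserving (fun x : ℝ => x + α) := measurePreserving_add_right volume α

lemma integral_shift {V : Type*} [NormedAddCommGroup V] [NormedSpace ℝ V] (α : ℝ) (Φ : ℝ → V) :
    ∫ x in Ico α (α + 1), Φ x = ∫ x in Ico (0 : ℝ) 1, Φ (x + α) := by
  rw [← (mp α).setIntegral_preimage_emb (emb α) Φ (Ico α (α + 1)), pre]

lemma memLp_shift (α : ℝ) {f : ℝ → ℂ} (hf : MemLp f 2 (volume.restrict (Ico α (α + 1)))) :
    MemLp (fun x => f (x + α)) 2 (volume.restrict (Ico (0 : ℝ) 1)) := by
  have h := (mp α).restrict_preimage_emb (emb α) (Ico α (α + 1))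
  rw [pre] at h
  exact hf.comp_measurePreserving h

theorem taskTranslate : TaskTranslate := by
  rintro ⟨C, hC, h⟩
  refine ⟨C, hC, ?_⟩
  intro a ha α δ hδ0 hδ1 f g hf hg
  have ha' : LipschitzWith (1 / 10) (fun s => a (s + α)) := by
    have h1 : LipschitzWith 1 (fun s : ℝ => s + α) := by
      apply LipschitzWith.of_dist_le_mul
      intro x y
      simp [Real.dist_eq]
    have := ha.comp h1
    rw [mul_one] at this
    exact this
  have hG : ∀ s, G (fun s => a (s + α)) s = G a (s + α) - α := by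
    intro s
    unfold G
    push_cast
    ring
  have hK : ∀ x y, K (fun s => a (s + α)) δ x y = K a δ (x + α) (y + α) := by
    intro x y
    unfold K
    rw [hG, hG]
    congr 1
    ring
  have h0 := h (fun s => a (s + α)) ha' δ hδ0 hδ1 (fun x => f (x + α)) (fun x => g (x + α))
    (memLp_shift α hf) (memLp_shift α hg)
  simp only [hK] at h0
  rw [integral_shift α (fun x => ‖f x‖ ^ 2), integral_shift α (fun x => ‖g x‖ ^ 2),
    integral_shift α (fun x => ∫ y in Ico α (α + 1), f x * g y * K a δ x y)]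
  have e1 : ∀ x, ∫ y in Ico α (α + 1), f (x + α) * g y * K a δ (x + α) y =
      ∫ y in Ico (0 : ℝ) 1, f (x + α) * g (y + α) * K a δ (x + α) (y + α) :=
    fun x => integral_shift α (fun y => f (x + α) * g y * K a δ (x + α) y)
  simp only [e1]
  exact h0

end Pool.Agent.H449R3.CauTr
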