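import Pool.Agent.H44D.Stmts

/-!
Task A of project H44-DARJI: a spread measure on a Polish group gives a decomposition into a
meagre set and a Haar null set.
-/

set_option autoImplicit false

open Set Filter Topology MeasureTheory
open scoped Pointwise ENNReal

namespace Pool.Agent.H449R3.DarA

section
variable {G : Type} [Group G] [TopologicalSpace G] [IsTopologicalGroup G]

lemma small_div {W : Set G} (hW : W ∈ 𝓝 (1 : G)) : ∃ V : Set G, IsOpen V ∧ (1 : G) ∈ V ∧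
    V⁻¹ * V ⊆ W := by
  have hc : ContinuousAt (fun p : G × G => p.1⁻¹ * p.2) (1, 1) := by fun_prop
  have h1 : (fun p : G × G => p.1⁻¹ * p.2) ⁻¹' W ∈ 𝓝 ((1 : G), (1 : G)) := by
    apply hc.preimage_mem_nhds
    simpa using hW
  rw [mem_nhds_prod_iff'] at h1
  obtain ⟨u, v, hu, hu1, hv, hv1, huv⟩ := h1
  refine ⟨u ∩ v, hu.inter hv, ⟨hu1, hv1⟩, ?_⟩
  rintro _ ⟨a, ha, b, hb, rfl⟩
  have h2 : (a⁻¹, b) ∈ u ×ˢ v := ⟨(Set.mem_inv.1 ha).1, hb.2⟩
  have h3 := huv h2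
  simpa using h3

lemma small_mul {W : Set G} (hW : W ∈ 𝓝 (1 : G)) : ∃ V ∈ 𝓝 (1 : G), V * V ⊆ W := by
  have hc : ContinuousAt (fun p : G × G => p.1 * p.2) (1, 1) := by fun_prop
  have h1 : (fun p : G × G => p.1 * p.2) ⁻¹' W ∈ 𝓝 ((1 : G), (1 : G)) := by
    apply hc.preimage_mem_nhds
    simpa using hW
  rw [mem_nhds_prod_iff'] at h1
  obtain ⟨u, v, hu, hu1, hv, hv1, huv⟩ := h1
  refine ⟨u ∩ v, (hu.inter hv).mem_nhds ⟨hu1, hv1⟩, ?_⟩
  rintro _ ⟨a, ha, b, hb, rfl⟩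
  exact huv (show (a, b) ∈ u ×ˢ v from ⟨ha.1, hb.2⟩)

lemma small_pow (n : ℕ) : ∀ W ∈ 𝓝 (1 : G), ∃ V : Set G, IsOpen V ∧ (1 : G) ∈ V ∧
    (V⁻¹ * V) ^ n ⊆ W := by
  induction n with
  | zero =>
    intro W hW
    refine ⟨univ, isOpen_univ, mem_univ _, ?_⟩
    rw [pow_zero]
    rintro x hx
    rw [Set.mem_one] at hx
    rw [hx]
    exact mem_of_mem_nhds hW
  | succ n ih =>
    intro W hW
    obtain ⟨W', hW', hWW⟩ := small_mul hW
    obtain ⟨V₁, hV₁, h1, hs₁⟩ := ih W' hW'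
    obtain ⟨V₂, hV₂, h2, hs₂⟩ := small_div hW'
    refine ⟨V₁ ∩ V₂, hV₁.inter hV₂, ⟨h1, h2⟩, ?_⟩
    rw [pow_succ]
    refine Subset.trans ?_ hWW
    apply Set.mul_subset_mul
    · refine Subset.trans (Set.pow_subset_pow_left ?_) hs₁
      exact Set.mul_subset_mul (Set.inv_subset_inv.2 inter_subset_left) inter_subset_left
    · refine Subset.trans ?_ hs₂
      exact Set.mul_subset_mul (Set.inv_subset_inv.2 inter_subset_right) inter_subset_right

lemma conj_pow {A V : Set G} {h : G} (hA : ∀ w ∈ A⁻¹ * A, h * w * h⁻¹ ∈ V⁻¹ * V) (n : ℕ) :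
    ∀ w ∈ (A⁻¹ * A) ^ n, h * w * h⁻¹ ∈ (V⁻¹ * V) ^ n := by
  induction n with
  | zero =>
    intro w hw
    rw [pow_zero, Set.mem_one] at hw ⊢
    rw [hw]
    simp
  | succ n ih =>
    intro w hw
    rw [pow_succ] at hw ⊢
    obtain ⟨a, ha, b, hb, rfl⟩ := hw
    refine ⟨_, ih a ha, _, hA b hb, ?_⟩
    simp only
    group

end

theorem taskA : H44D.TaskA := by
  intro G _ _ _ _ _ _ μ U hμ hU hS
  -- (*)
  have hstar : ∀ y : G, ∃ O V : Set G, O ∈ 𝓝 y ∧ V ∈ 𝓝 (1 : G) ∧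
      ∀ y' ∈ O, ∀ v ∈ V, y'⁻¹ * v * y' ∈ U := by
    intro y
    have hc : ContinuousAt (fun p : G × G => p.1⁻¹ * p.2 * p.1) (y, 1) := by fun_prop
    have h1 : (fun p : G × G => p.1⁻¹ * p.2 * p.1) ⁻¹' U ∈ 𝓝 (y, (1 : G)) := by
      apply hc.preimage_mem_nhds
      simpa using hU
    rw [mem_nhds_prod_iff] at h1
    obtain ⟨O, hO, V, hV, hOV⟩ := h1
    exact ⟨O, V, hO, hV, fun y' hy' v hv => hOV (show (y', v) ∈ O ×ˢ V from ⟨hy', hv⟩)⟩
  choose O V hO hV hOV using hstar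
  obtain ⟨s, hs, hsu⟩ := TopologicalSpace.countable_cover_nhds hO
  have hsne : s.Nonempty := by
    by_contra hne
    rw [Set.not_nonempty_iff_eq_empty] at hne
    rw [hne] at hsu
    simp only [mem_empty_iff_false, iUnion_of_empty, iUnion_empty] at hsu
    exact absurd (mem_univ (1 : G)) (by rw [← hsu]; exact notMem_empty _)
  obtain ⟨y, hy⟩ := hs.exists_eq_range hsne
  have hcov : ∀ h : G, ∃ j, h ∈ O (y j) := by
    intro h
    have h1 : h ∈ ⋃ x ∈ s, O x := by rw [hsu]; exact mem_univ _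
    rw [mem_iUnion₂] at h1
    obtain ⟨x, hx, hhx⟩ := h1
    rw [hy] at hx
    obtain ⟨j, rfl⟩ := hx
    exact ⟨j, hhx⟩
  have hcpos : ∀ k : ℕ, (0 : ℝ≥0∞) < (2⁻¹ : ℝ≥0∞) ^ k := fun k =>
    ENNReal.pow_pos (by simp) k
  choose n hn using fun k : ℕ => hS ((2⁻¹ : ℝ≥0∞) ^ k) (hcpos k)
  have hVk : ∀ k : ℕ, ∃ Vk : Set G, IsOpen Vk ∧ (1 : G) ∈ Vk ∧
      (Vk⁻¹ * Vk) ^ n k ⊆ ⋂ j ∈ Finset.range (k + 1), V (y j) := by
    intro k
    apply small_pow
    rw [Filter.biInter_finset_mem]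
    exact fun j _ => hV _
  choose Vk hVo hV1 hVs using hVk
  set d : ℕ → G := fun k => TopologicalSpace.denseSeq G (Nat.unpair k).1 with hd
  set W : ℕ → Set G := fun k => {x | (d k)⁻¹ * x ∈ Vk k} with hW
  have hWo : ∀ k, IsOpen (W k) := fun k => (hVo k).preimage (by fun_prop)
  set C : Set G := ⋂ N : ℕ, ⋃ k : ℕ, W (k + N) with hC
  have hCm : MeasurableSet C :=
    MeasurableSet.iInter fun N => MeasurableSet.iUnion fun k => (hWo _).measurableSet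
  have hCr : C ∈ residual G := by
    rw [hC, countable_iInter_mem]
    intro N
    apply residual_of_dense_open (isOpen_iUnion fun k => hWo _)
    apply (TopologicalSpace.denseRange_denseSeq G).mono
    rintro _ ⟨m, rfl⟩
    rw [mem_iUnion]
    have h1 : N ≤ Nat.pair m N := Nat.right_le_pair m N
    refine ⟨Nat.pair m N - N, ?_⟩
    rw [Nat.sub_add_cancel h1]
    show (d (Nat.pair m N))⁻¹ * _ ∈ Vk (Nat.pair m N)
    have h2 : d (Nat.pair m N) = TopologicalSpace.denseSeq G m := by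
      simp only [hd, Nat.unpair_pair]
    rw [h2, inv_mul_cancel]
    exact hV1 _
  refine ⟨Cᶜ, C, compl_union_self C, ?_, C, hCm, Subset.rfl, μ, hμ, ?_⟩
  · show Cᶜᶜ ∈ residual G
    rw [compl_compl]
    exact hCr
  intro g h
  obtain ⟨j, hj⟩ := hcov h
  set A : ℕ → Set G := fun k => {z | (d k)⁻¹ * (g⁻¹ * z * h⁻¹) ∈ Vk k} with hA
  have hAo : ∀ k, IsOpen (A k) := fun k => (hVo k).preimage (by fun_prop)
  have hAk : ∀ k, j ≤ k → μ (A k) < (2⁻¹ : ℝ≥0∞) ^ k := by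
    intro k hjk
    by_contra hcon
    push Not at hcon
    apply hn k (A k) (hAo k).measurableSet hcon
    intro w hw
    have h1 : ∀ w ∈ (A k)⁻¹ * A k, h * w * h⁻¹ ∈ (Vk k)⁻¹ * Vk k := by
      rintro _ ⟨a, ha, b, hb, rfl⟩
      rw [Set.mem_inv] at ha
      refine ⟨((d k)⁻¹ * (g⁻¹ * a⁻¹ * h⁻¹))⁻¹, ?_, (d k)⁻¹ * (g⁻¹ * b * h⁻¹), hb, ?_⟩
      · rw [Set.mem_inv, inv_inv]
        exact ha
      · simp only
        group
    have h2 := conj_pow h1 (n k) w hw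
    have h3 := hVs k h2
    rw [mem_iInter₂] at h3
    have h4 := h3 j (Finset.mem_range.2 (by omega))
    have h5 := hOV (y j) h hj _ h4
    have h6 : h⁻¹ * (h * w * h⁻¹) * h = w := by group
    rw [h6] at h5
    exact h5
  have hsum : ∑' i, μ {z | z ∈ A (i + j)} ≠ ∞ := by
    have h1 : ∑' i, μ {z | z ∈ A (i + j)} ≤ ∑' i : ℕ, (2⁻¹ : ℝ≥0∞) ^ i := by
      apply ENNReal.tsum_le_tsum
      intro i
      refine (hAk (i + j) (by omega)).le.trans ?_
      exact pow_le_pow_right_of_le_one' (by simp) (by omega)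
    refine ne_top_of_le_ne_top ?_ h1
    rw [ENNReal.tsum_geometric_two]
    exact ENNReal.ofNat_ne_top
  have hnull := measure_setOf_frequently_eq_zero hsum
  refine measure_mono_null ?_ hnull
  rintro _ ⟨x, hx, rfl⟩
  simp only [mem_setOf_eq]
  rw [Filter.frequently_atTop]
  intro N
  rw [hC, mem_iInter] at hx
  have h1 := hx (N + j)
  rw [mem_iUnion] at h1
  obtain ⟨k, hk⟩ := h1
  refine ⟨k + N, by omega, ?_⟩
  show (d (k + N + j))⁻¹ * (g⁻¹ * (g * x * h) * h⁻¹) ∈ Vk (k + N + j)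
  have h2 : g⁻¹ * (g * x * h) * h⁻¹ = x := by group
  rw [h2]
  rw [← add_assoc] at hk
  exact hk

end Pool.Agent.H449R3.DarA
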