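import Mathlib

/-!
Copies of an eight leaf tree in binary hierarchies: combinatorial part.
-/

set_option autoImplicit false

namespace Pool.Agent.H449R3.Induc

open Finset

/-- binary hierarchies on `Fin n` -/
def Valid {n : ℕ} (H : Finset (Finset (Fin n))) : Prop :=
  Finset.univ ∈ H ∧ (∀ i : Fin n, ({i} : Finset (Fin n)) ∈ H) ∧
    (∅ : Finset (Fin n)) ∉ H ∧
    (∀ A ∈ H, ∀ B ∈ H, A ⊆ B ∨ B ⊆ A ∨ Disjoint A B) ∧
    (∀ A ∈ H, 2 ≤ A.card → ∃ B ∈ H, ∃ C ∈ H,
      B.Nonempty ∧ C.Nonempty ∧ Disjoint B C ∧ B ∪ C = A)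

/-- `S` induces a copy of `D` in `H` -/
def Ind {k n : ℕ} (D : Finset (Finset (Fin k))) (H : Finset (Finset (Fin n)))
    (S : Finset (Fin n)) : Prop :=
  ∃ e : Fin k → Fin n, Function.Injective e ∧ Set.range e = (↑S : Set (Fin n)) ∧
    ∀ A : Finset (Fin k), A ∈ D ↔ (A.Nonempty ∧ ∃ C ∈ H, C ∩ S = A.image e)

/-- the part with six leaves -/
def X6 : Finset (Fin 8) := {0, 1, 2, 3, 4, 5}

/-- the part with two leaves -/
def Y2 : Finset (Fin 8) := {6, 7}

/-- the tree with eight leaves: a caterpillar with six leaves joined to a cherry -/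
def D8 : Finset (Finset (Fin 8)) :=
  {univ, {0, 1, 2, 3, 4, 5}, {6, 7}, {0, 1, 2, 3, 4}, {0, 1, 2, 3}, {0, 1, 2}, {0, 1},
    {0}, {1}, {2}, {3}, {4}, {5}, {6}, {7}}

set_option synthInstance.maxSize 100000 in
theorem D8_valid : Valid D8 := by
  refine ⟨?_, ?_, ?_, ?_, ?_⟩
  · unfold D8; decide +kernel
  · unfold D8; decide +kernel
  · unfold D8; decide +kernel
  · unfold D8; decide +kernel
  · unfold D8; decide +kernel

theorem D8_split : ∀ P ∈ D8, ∀ Q ∈ D8, Disjoint P Q → P ∪ Q = univ →
    (P = X6 ∧ Q = Y2) ∨ (P = Y2 ∧ Q = X6) := by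
  unfold D8 X6 Y2
  decide +kernel

theorem D8_cat : ∀ P ∈ D8, ∀ Q ∈ D8, Disjoint P Q → (P ∩ X6).card ≤ 1 ∨ (Q ∩ X6).card ≤ 1 := by
  unfold D8 X6
  decide +kernel

theorem X6_mem : X6 ∈ D8 := by unfold D8 X6; decide +kernel
theorem Y2_mem : Y2 ∈ D8 := by unfold D8 Y2; decide +kernel
theorem X6_card : X6.card = 6 := by unfold X6; decide +kernel
theorem Y2_card : Y2.card = 2 := by unfold Y2; decide +kernel
theorem XY_disj : Disjoint X6 Y2 := by unfold X6 Y2; decide +kernel

variable {n : ℕ}

/-- the preimage of a set of leaves -/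
def pre (e : Fin 8 → Fin n) (C : Finset (Fin n)) : Finset (Fin 8) := univ.filter fun t => e t ∈ C

theorem image_pre {e : Fin 8 → Fin n} {S : Finset (Fin n)} (hr : Set.range e = (↑S : Set (Fin n)))
    (C : Finset (Fin n)) : (pre e C).image e = C ∩ S := by
  ext x
  simp only [pre, mem_image, mem_filter, mem_univ, true_and, mem_inter]
  constructor
  · rintro ⟨t, ht, rfl⟩
    refine ⟨ht, ?_⟩
    have : e t ∈ (↑S : Set (Fin n)) := hr ▸ Set.mem_range_self t
    exact_mod_cast this
  · rintro ⟨hC, hS⟩
    have : x ∈ Set.range e := by rw [hr]; exact_mod_cast hS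
    obtain ⟨t, rfl⟩ := this
    exact ⟨t, hC, rfl⟩

/-- no two disjoint members of the hierarchy meet `S` in at least two leaves each -/
def CatP (H : Finset (Finset (Fin n))) (S : Finset (Fin n)) : Prop :=
  ∀ C₁ ∈ H, ∀ C₂ ∈ H, Disjoint C₁ C₂ → (C₁ ∩ S).card ≤ 1 ∨ (C₂ ∩ S).card ≤ 1

open Classical in
/-- number of copies inside `A` -/
noncomputable def d (H : Finset (Finset (Fin n))) (A : Finset (Fin n)) : ℕ :=
  ((powersetCard 8 A).filter fun S => Ind D8 H S).card

open Classical in
/-- number of caterpillars with six leaves inside `A` -/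
noncomputable def c (H : Finset (Finset (Fin n))) (A : Finset (Fin n)) : ℕ :=
  ((powersetCard 6 A).filter fun S => CatP H S).card

theorem ind_card {H : Finset (Finset (Fin n))} {S : Finset (Fin n)} (h : Ind D8 H S) :
    S.card = 8 := by
  obtain ⟨e, he, hr, -⟩ := h
  have : S = univ.image e := by
    ext x
    rw [← Finset.mem_coe, ← hr]
    simp
  rw [this, card_image_of_injective _ he]
  simp

theorem pre_mem {H : Finset (Finset (Fin n))} {S : Finset (Fin n)} {e : Fin 8 → Fin n}
    (hr : Set.range e = (↑S : Set (Fin n)))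
    (hD : ∀ A : Finset (Fin 8), A ∈ D8 ↔ (A.Nonempty ∧ ∃ C ∈ H, C ∩ S = A.image e))
    {C : Finset (Fin n)} (hC : C ∈ H) (hne : (C ∩ S).Nonempty) : pre e C ∈ D8 := by
  rw [hD]
  refine ⟨?_, C, hC, (image_pre hr C).symm⟩
  rw [← image_pre hr C] at hne
  exact Finset.image_nonempty.1 hne

theorem catP_of_X {H : Finset (Finset (Fin n))} {S : Finset (Fin n)} {e : Fin 8 → Fin n}
    (he : Function.Injective e) (hr : Set.range e = (↑S : Set (Fin n)))
    (hD : ∀ A : Finset (Fin 8), A ∈ D8 ↔ (A.Nonempty ∧ ∃ C ∈ H, C ∩ S = A.image e)) :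
    CatP H (X6.image e) := by
  intro C₁ h₁ C₂ h₂ hdis
  by_contra hcon
  push Not at hcon
  obtain ⟨k₁, k₂⟩ := hcon
  have hXS : X6.image e ⊆ S := by
    intro x hx
    obtain ⟨t, -, rfl⟩ := mem_image.1 hx
    have : e t ∈ (↑S : Set (Fin n)) := hr ▸ Set.mem_range_self t
    exact_mod_cast this
  have key : ∀ C : Finset (Fin n), C ∩ X6.image e = (pre e C ∩ X6).image e := by
    intro C
    ext x
    simp only [pre, mem_inter, mem_image, mem_filter, mem_univ, true_and]
    constructor
    · rintro ⟨h1, t, ht, rfl⟩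
      exact ⟨t, ⟨h1, ht⟩, rfl⟩
    · rintro ⟨t, ⟨h1, ht⟩, rfl⟩
      exact ⟨h1, t, ht, rfl⟩
  have ne : ∀ C : Finset (Fin n), 1 < (C ∩ X6.image e).card → (C ∩ S).Nonempty := by
    intro C hC
    have : (C ∩ X6.image e).Nonempty := by
      rw [← Finset.card_pos]; omega
    obtain ⟨x, hx⟩ := this
    rw [mem_inter] at hx
    exact ⟨x, mem_inter.2 ⟨hx.1, hXS hx.2⟩⟩
  have m₁ := pre_mem hr hD h₁ (ne _ k₁)
  have m₂ := pre_mem hr hD h₂ (ne _ k₂)
  rw [key, card_image_of_injective _ he] at k₁ k₂
  have hd : Disjoint (pre e C₁) (pre e C₂) := by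
    rw [Finset.disjoint_left]
    intro t ht1 ht2
    simp only [pre, mem_filter, mem_univ, true_and] at ht1 ht2
    exact Finset.disjoint_left.1 hdis ht1 ht2
  rcases D8_cat _ m₁ _ m₂ hd with h | h <;> omega

theorem d_split {H : Finset (Finset (Fin n))} {B C : Finset (Fin n)} (hB : B ∈ H) (hC : C ∈ H)
    (hdis : Disjoint B C) :
    d H (B ∪ C) ≤ d H B + d H C + c H B * C.card.choose 2 + B.card.choose 2 * c H C := by
  classical
  unfold d c
  set FB := (powersetCard 8 B).filter fun S => Ind D8 H S
  set FC := (powersetCard 8 C).filter fun S => Ind D8 H S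
  set KB := (powersetCard 6 B).filter fun S => CatP H S
  set KC := (powersetCard 6 C).filter fun S => CatP H S
  have hsub : ((powersetCard 8 (B ∪ C)).filter fun S => Ind D8 H S) ⊆
      FB ∪ FC ∪ (KB ×ˢ powersetCard 2 C).image (fun p => p.1 ∪ p.2) ∪
        (powersetCard 2 B ×ˢ KC).image (fun p => p.1 ∪ p.2) := by
    intro S hS
    rw [mem_filter, mem_powersetCard] at hS
    obtain ⟨⟨hSs, hS8⟩, hI⟩ := hS
    simp only [mem_union]
    by_cases hb : (B ∩ S).Nonempty
    swap
    · -- `S ⊆ C`
      refine Or.inl (Or.inl (Or.inr ?_))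
      rw [mem_filter, mem_powersetCard]
      refine ⟨⟨fun x hx => ?_, hS8⟩, hI⟩
      rcases mem_union.1 (hSs hx) with h | h
      · exact absurd ⟨x, mem_inter.2 ⟨h, hx⟩⟩ hb
      · exact h
    by_cases hc : (C ∩ S).Nonempty
    swap
    · refine Or.inl (Or.inl (Or.inl ?_))
      rw [mem_filter, mem_powersetCard]
      refine ⟨⟨fun x hx => ?_, hS8⟩, hI⟩
      rcases mem_union.1 (hSs hx) with h | h
      · exact h
      · exact absurd ⟨x, mem_inter.2 ⟨h, hx⟩⟩ hc
    obtain ⟨e, he, hr, hD⟩ := hI
    have mB := pre_mem hr hD hB hb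
    have mC := pre_mem hr hD hC hc
    have hd : Disjoint (pre e B) (pre e C) := by
      rw [Finset.disjoint_left]
      intro t ht1 ht2
      simp only [pre, mem_filter, mem_univ, true_and] at ht1 ht2
      exact Finset.disjoint_left.1 hdis ht1 ht2
    have hu : pre e B ∪ pre e C = univ := by
      ext t
      simp only [pre, mem_union, mem_filter, mem_univ, true_and, iff_true]
      have : e t ∈ (↑S : Set (Fin n)) := hr ▸ Set.mem_range_self t
      exact mem_union.1 (hSs (by exact_mod_cast this))
    have hSBC : (B ∩ S) ∪ (C ∩ S) = S := by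
      rw [← Finset.union_inter_distrib_right]
      exact Finset.inter_eq_right.2 hSs
    have hcat := catP_of_X he hr hD
    rcases D8_split _ mB _ mC hd hu with ⟨h1, h2⟩ | ⟨h1, h2⟩
    · refine Or.inl (Or.inr ?_)
      rw [mem_image]
      refine ⟨(B ∩ S, C ∩ S), ?_, hSBC⟩
      rw [mem_product, mem_filter, mem_powersetCard, mem_powersetCard]
      refine ⟨⟨⟨inter_subset_left, ?_⟩, ?_⟩, inter_subset_left, ?_⟩
      · rw [← image_pre hr, h1, card_image_of_injective _ he, X6_card]
      · show CatP H (B ∩ S)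
        rw [← image_pre hr, h1]
        exact hcat
      · show (C ∩ S).card = 2
        rw [← image_pre hr, h2, card_image_of_injective _ he, Y2_card]
    · refine Or.inr ?_
      rw [mem_image]
      refine ⟨(B ∩ S, C ∩ S), ?_, hSBC⟩
      rw [mem_product, mem_filter, mem_powersetCard, mem_powersetCard]
      refine ⟨⟨inter_subset_left, ?_⟩, ⟨inter_subset_left, ?_⟩, ?_⟩
      · show (B ∩ S).card = 2
        rw [← image_pre hr, h1, card_image_of_injective _ he, Y2_card]
      · show (C ∩ S).card = 6
        rw [← image_pre hr, h2, card_image_of_injective _ he, X6_card]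
      · show CatP H (C ∩ S)
        rw [← image_pre hr, h2]
        exact hcat
  refine (card_le_card hsub).trans ?_
  refine (card_union_le _ _).trans ?_
  refine Nat.add_le_add ((card_union_le _ _).trans (Nat.add_le_add (card_union_le _ _) ?_)) ?_
  · refine card_image_le.trans ?_
    rw [card_product, card_powersetCard]
  · refine card_image_le.trans ?_
    rw [card_product, card_powersetCard]

theorem tradeoff {H : Finset (Finset (Fin n))} (hH : Valid H) (A : Finset (Fin n)) :
    15 * d H A ≤ (A.card.choose 6 - c H A) * (A.card - 6).choose 2 := by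
  classical
  obtain ⟨-, -, -, hlam, -⟩ := hH
  set s := (powersetCard 8 A).filter fun S => Ind D8 H S with hs
  set t := powersetCard 6 A \ (powersetCard 6 A).filter fun S => CatP H S with ht
  have htc : t.card = A.card.choose 6 - c H A := by
    rw [ht, card_sdiff_of_subset (filter_subset _ _), card_powersetCard]
    rfl
  have hmain := Finset.card_mul_le_card_mul (s := s) (t := t)
    (r := fun S T : Finset (Fin n) => T ⊆ S) (m := 15) (n := (A.card - 6).choose 2) ?_ ?_
  · rw [htc] at hmain
    unfold d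
    rw [mul_comm 15]
    exact hmain
  · intro S hS
    rw [hs, mem_filter, mem_powersetCard] at hS
    obtain ⟨⟨hSA, hS8⟩, e, he, hr, hD⟩ := hS
    obtain ⟨-, CX, hCX, hCXe⟩ := (hD X6).1 X6_mem
    obtain ⟨-, CY, hCY, hCYe⟩ := (hD Y2).1 Y2_mem
    have hXY : Disjoint (X6.image e) (Y2.image e) := by
      rw [Finset.disjoint_image he]; exact XY_disj
    have hXne : (X6.image e).card = 6 := by rw [card_image_of_injective _ he, X6_card]
    have hYne : (Y2.image e).card = 2 := by rw [card_image_of_injective _ he, Y2_card]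
    have hCdis : Disjoint CX CY := by
      rcases hlam CX hCX CY hCY with h | h | h
      · exfalso
        have h1 : X6.image e ⊆ Y2.image e := by
          rw [← hCXe, ← hCYe]; exact inter_subset_inter_right h
        have := hXY.mono_right h1
        rw [disjoint_self, Finset.bot_eq_empty] at this
        rw [this] at hXne
        simp at hXne
      · exfalso
        have h1 : Y2.image e ⊆ X6.image e := by
          rw [← hCXe, ← hCYe]; exact inter_subset_inter_right h
        have := hXY.mono_left h1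
        rw [disjoint_self, Finset.bot_eq_empty] at this
        rw [this] at hYne
        simp at hYne
      · exact h
    have hXS : X6.image e ⊆ S := by rw [← hCXe]; exact inter_subset_right
    have hYS : Y2.image e ⊆ S := by rw [← hCYe]; exact inter_subset_right
    have hXC : X6.image e ⊆ CX := by rw [← hCXe]; exact inter_subset_left
    have hYC : Y2.image e ⊆ CY := by rw [← hCYe]; exact inter_subset_left
    have hinj : Set.InjOn (fun W : Finset (Fin n) => W ∪ Y2.image e)
        (↑(powersetCard 4 (X6.image e)) : Set (Finset (Fin n))) := by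
      intro W hW W' hW' hEq
      rw [mem_coe, mem_powersetCard] at hW hW'
      have e1 : W = (W ∪ Y2.image e) \ Y2.image e := by
        rw [Finset.union_sdiff_cancel_right (hXY.mono_left hW.1)]
      have e2 : W' = (W' ∪ Y2.image e) \ Y2.image e := by
        rw [Finset.union_sdiff_cancel_right (hXY.mono_left hW'.1)]
      rw [e1, e2]
      exact congrArg (fun Z => Z \ Y2.image e) hEq
    have hc15 : ((powersetCard 4 (X6.image e)).image
        (fun W : Finset (Fin n) => W ∪ Y2.image e)).card = 15 := by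
      rw [card_image_of_injOn hinj, card_powersetCard, hXne]
      decide
    rw [← hc15]
    refine card_le_card fun T hT => ?_
    rw [mem_image] at hT
    obtain ⟨W, hW, rfl⟩ := hT
    rw [mem_powersetCard] at hW
    rw [mem_bipartiteAbove]
    have hTS : W ∪ Y2.image e ⊆ S := union_subset (hW.1.trans hXS) hYS
    refine ⟨?_, hTS⟩
    rw [ht, mem_sdiff, mem_filter, mem_powersetCard]
    refine ⟨⟨hTS.trans hSA, ?_⟩, ?_⟩
    · rw [card_union_of_disjoint (hXY.mono_left hW.1), hW.2, hYne]
    · rintro ⟨-, hcat⟩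
      have a1 : W ⊆ CX ∩ (W ∪ Y2.image e) :=
        subset_inter (hW.1.trans hXC) subset_union_left
      have a2 : Y2.image e ⊆ CY ∩ (W ∪ Y2.image e) := subset_inter hYC subset_union_right
      have b1 := card_le_card a1
      have b2 := card_le_card a2
      rw [hW.2] at b1
      rw [hYne] at b2
      rcases hcat CX hCX CY hCY hCdis with h | h <;> omega
  · intro T hT
    rw [ht, mem_sdiff, mem_powersetCard] at hT
    obtain ⟨⟨hTA, hT6⟩, -⟩ := hT
    have hcard : (powersetCard 2 (A \ T)).card = (A.card - 6).choose 2 := by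
      rw [card_powersetCard, card_sdiff_of_subset hTA, hT6]
    rw [← hcard]
    refine Finset.card_le_card_of_injOn (fun S => S \ T) ?_ ?_
    · intro S hS
      rw [mem_coe, mem_bipartiteBelow, hs, mem_filter, mem_powersetCard] at hS
      rw [mem_coe, mem_powersetCard]
      refine ⟨sdiff_subset_sdiff hS.1.1.1 (le_refl _), ?_⟩
      rw [card_sdiff_of_subset hS.2, hS.1.1.2, hT6]
    · intro S hS S' hS' hEq
      rw [mem_coe, mem_bipartiteBelow] at hS hS'
      have h1 : S = (S \ T) ∪ T := (sdiff_union_of_subset hS.2).symm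
      have h2 : S' = (S' \ T) ∪ T := (sdiff_union_of_subset hS'.2).symm
      rw [h1, h2]
      exact congrArg (fun Z => Z ∪ T) hEq

end Pool.Agent.H449R3.Induc
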