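import Mathlib
import Pool.Agent.H449R3.IndA

/-!
Copies of an eight leaf tree in binary hierarchies: the upper bound.
-/

set_option autoImplicit false

namespace Pool.Agent.H449R3.Induc

open Finset

/-- the constant `max (a ^ 6 b ^ 2 + a ^ 2 b ^ 6)` over `a + b = 1` -/
noncomputable def M : ℝ := (5 * Real.sqrt 5 - 11) / 16

theorem sqrt5_sq : Real.sqrt 5 * Real.sqrt 5 = 5 := Real.mul_self_sqrt (by norm_num)

theorem sqrt5_lb : (2.236067 : ℝ) < Real.sqrt 5 := by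
  rw [Real.lt_sqrt (by norm_num)]; norm_num

theorem sqrt5_ub : Real.sqrt 5 < (2.236068 : ℝ) := by
  rw [Real.sqrt_lt' (by norm_num)]; norm_num

theorem M_lb : (0.01127 : ℝ) < M := by
  unfold M; have := sqrt5_lb; linarith

theorem M_ub : M < (0.01128 : ℝ) := by
  unfold M; have := sqrt5_ub; linarith

theorem M_pos : 0 < M := by have := M_lb; linarith

/-- the root splits with two caterpillars -/
theorem ineqA {m l : ℝ} (hm : 0 ≤ m) (hl : 0 ≤ l) :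
    m ^ 6 * l ^ 2 + l ^ 6 * m ^ 2 ≤ M * (m + l) ^ 8 := by
  set P : ℝ := m * l with hP
  set N : ℝ := (m + l) ^ 2 with hN
  have hPN : 4 * P ≤ N := by nlinarith [sq_nonneg (m - l)]
  have hP0 : 0 ≤ P := mul_nonneg hm hl
  set s : ℝ := Real.sqrt 5 with hs
  have hss : s * s = 5 := sqrt5_sq
  have hlb : (2.236067 : ℝ) < s := sqrt5_lb
  have hub : s < (2.236068 : ℝ) := sqrt5_ub
  have e1 : m ^ 6 * l ^ 2 + l ^ 6 * m ^ 2 = P ^ 2 * (N ^ 2 - 4 * N * P + 2 * P ^ 2) := by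
    rw [hP, hN]; ring
  have e2 : M * (m + l) ^ 8 - P ^ 2 * (N ^ 2 - 4 * N * P + 2 * P ^ 2) =
      (P - (3 - s) / 4 * N) ^ 2 * (-2 * P ^ 2 + (4 - 4 * ((3 - s) / 4)) * P * N +
        (1 / 2 - (3 - s) / 4) * N ^ 2) := by
    have h8 : (m + l) ^ 8 = N ^ 4 := by rw [hN]; ring
    rw [h8]
    unfold M
    rw [← hs]
    have h3 : s ^ 3 = 5 * s := by rw [pow_succ, pow_two, hss]
    have h2 : s ^ 2 = 5 := by rw [pow_two, hss]
    ring_nf
    rw [h3, h2]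
    ring
  have e3 : 0 ≤ -2 * P ^ 2 + (4 - 4 * ((3 - s) / 4)) * P * N + (1 / 2 - (3 - s) / 4) * N ^ 2 := by
    have hN0 : 0 ≤ N := by positivity
    have a1 : 0 ≤ P * N := mul_nonneg hP0 hN0
    have a2 : P ^ 2 ≤ P * N := by nlinarith
    have a3 : 0 ≤ N ^ 2 := by positivity
    nlinarith
  have e4 : 0 ≤ M * (m + l) ^ 8 - P ^ 2 * (N ^ 2 - 4 * N * P + 2 * P ^ 2) := by
    rw [e2]; exact mul_nonneg (sq_nonneg _) e3
  rw [e1]; linarith

theorem ineqB_aux {r : ℝ} (hr0 : 0 ≤ r) (hr : 15 * r ^ 2 ≤ 1) :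
    r ^ 2 + r ^ 6 + M * (1 - 15 * r ^ 2) ≤ M * (1 + r) ^ 8 := by
  have hM := M_lb
  have hr1 : r ≤ 0.26 := by nlinarith
  have h1 : 1 + 8 * r + 28 * r ^ 2 + 56 * r ^ 3 ≤ (1 + r) ^ 8 := by
    have : (1 + r) ^ 8 = 1 + 8 * r + 28 * r ^ 2 + 56 * r ^ 3 + 70 * r ^ 4 + 56 * r ^ 5 +
      28 * r ^ 6 + 8 * r ^ 7 + r ^ 8 := by ring
    rw [this]
    have : 0 ≤ 70 * r ^ 4 + 56 * r ^ 5 + 28 * r ^ 6 + 8 * r ^ 7 + r ^ 8 := by positivity
    linarith
  have h1' : M * (1 + 8 * r + 28 * r ^ 2 + 56 * r ^ 3) + M * (70 * r ^ 4) ≤ M * (1 + r) ^ 8 := by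
    rw [← mul_add]
    refine mul_le_mul_of_nonneg_left ?_ M_pos.le
    have : (1 + r) ^ 8 = 1 + 8 * r + 28 * r ^ 2 + 56 * r ^ 3 + 70 * r ^ 4 + 56 * r ^ 5 +
      28 * r ^ 6 + 8 * r ^ 7 + r ^ 8 := by ring
    rw [this]
    have : 0 ≤ 56 * r ^ 5 + 28 * r ^ 6 + 8 * r ^ 7 + r ^ 8 := by positivity
    linarith
  have h2 : r ^ 2 + r ^ 6 ≤ M * (8 * r + 43 * r ^ 2 + 56 * r ^ 3 + 70 * r ^ 4) := by
    have h3 : (0.01127 : ℝ) * (8 * r + 43 * r ^ 2 + 56 * r ^ 3 + 70 * r ^ 4) ≤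
        M * (8 * r + 43 * r ^ 2 + 56 * r ^ 3 + 70 * r ^ 4) :=
      mul_le_mul_of_nonneg_right hM.le (by positivity)
    refine le_trans ?_ h3
    -- divide by `r`
    have h4 : r + r ^ 5 ≤ (0.01127 : ℝ) * (8 + 43 * r + 56 * r ^ 2 + 70 * r ^ 3) := by
      have h5 : r ^ 5 ≤ 0.26 ^ 3 * r ^ 2 := by
        have : r ^ 3 ≤ 0.26 ^ 3 := pow_le_pow_left₀ hr0 hr1 3
        nlinarith [sq_nonneg r]
      have h6 : 0.1875 * r - 0.03125 ≤ r ^ 3 := by nlinarith [mul_nonneg hr0 (sq_nonneg (r - 0.25)), sq_nonneg (r - 0.25)]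
      nlinarith [sq_nonneg (r - 0.3)]
    have := mul_le_mul_of_nonneg_left h4 hr0
    nlinarith
  nlinarith

theorem ineqB {m l : ℝ} (hm : 0 < m) (hl : 0 ≤ l) (h : 15 * l ^ 2 ≤ m ^ 2) :
    m ^ 6 * l ^ 2 + l ^ 6 * m ^ 2 + M * m ^ 6 * (m ^ 2 - 15 * l ^ 2) ≤ M * (m + l) ^ 8 := by
  have hr : 15 * (l / m) ^ 2 ≤ 1 := by
    rw [div_pow, ← mul_div_assoc, div_le_one (by positivity)]; exact h
  have := ineqB_aux (div_nonneg hl hm.le) hr
  have h8 : 0 ≤ m ^ 8 := by positivity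
  have h9 := mul_le_mul_of_nonneg_left this h8
  have e1 : m ^ 8 * ((l / m) ^ 2 + (l / m) ^ 6 + M * (1 - 15 * (l / m) ^ 2)) =
      m ^ 6 * l ^ 2 + l ^ 6 * m ^ 2 + M * m ^ 6 * (m ^ 2 - 15 * l ^ 2) := by
    field_simp
  have e2 : m ^ 8 * (M * (1 + l / m) ^ 8) = M * (m + l) ^ 8 := by
    have : (1 + l / m) = (m + l) / m := by field_simp
    rw [this, div_pow]
    field_simp
  rw [e1, e2] at h9
  exact h9

theorem ineq {m l : ℝ} (hm : 0 < m) (hl : 0 ≤ l) :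
    m ^ 6 * l ^ 2 + l ^ 6 * m ^ 2 + M * m ^ 6 * max 0 (m ^ 2 - 15 * l ^ 2) ≤ M * (m + l) ^ 8 := by
  rcases le_total (15 * l ^ 2) (m ^ 2) with h | h
  · rw [max_eq_right (by linarith)]; exact ineqB hm hl h
  · rw [max_eq_left (by linarith)]
    have := ineqA hm.le hl
    linarith

/-- the contribution of one side of the root -/
theorem piece {m : ℕ} {l x y : ℝ} (hm : 1 ≤ m) (hx : 1440 * x ≤ M * (m : ℝ) ^ 8) (hx0 : 0 ≤ x)
    (hy : y ≤ (m.choose 6 : ℝ))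
    (ht : 15 * x ≤ ((m.choose 6 : ℝ) - y) * ((m - 6).choose 2 : ℝ)) :
    1440 * (x + y * (l ^ 2 / 2)) ≤
      (m : ℝ) ^ 6 * l ^ 2 + M * (m : ℝ) ^ 6 * max 0 ((m : ℝ) ^ 2 - 15 * l ^ 2) := by
  have hm0 : (0 : ℝ) < m := by exact_mod_cast hm
  have hC : (m.choose 6 : ℝ) ≤ (m : ℝ) ^ 6 / 720 := by
    have := Nat.choose_le_pow_div (α := ℝ) 6 m
    norm_num [Nat.factorial] at this
    exact this
  have hK : ((m - 6).choose 2 : ℝ) ≤ (m : ℝ) ^ 2 / 2 := by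
    have := Nat.choose_le_pow_div (α := ℝ) 2 (m - 6)
    norm_num [Nat.factorial] at this
    refine this.trans ?_
    have h2 : ((m - 6 : ℕ) : ℝ) ≤ m := by exact_mod_cast Nat.sub_le _ _
    have h3 : (0 : ℝ) ≤ ((m - 6 : ℕ) : ℝ) := Nat.cast_nonneg _
    have := pow_le_pow_left₀ h3 h2 2
    linarith
  have ht' : 30 * x ≤ ((m.choose 6 : ℝ) - y) * (m : ℝ) ^ 2 := by
    have : ((m.choose 6 : ℝ) - y) * ((m - 6).choose 2 : ℝ) ≤
        ((m.choose 6 : ℝ) - y) * ((m : ℝ) ^ 2 / 2) :=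
      mul_le_mul_of_nonneg_left hK (by linarith)
    linarith
  -- multiply by `m ^ 2`
  have hm2 : (0 : ℝ) < (m : ℝ) ^ 2 := by positivity
  have hl2 : 0 ≤ l ^ 2 := sq_nonneg l
  have key : (m : ℝ) ^ 2 * (1440 * (x + y * (l ^ 2 / 2))) ≤
      (m : ℝ) ^ 2 * ((m : ℝ) ^ 6 * l ^ 2 + M * (m : ℝ) ^ 6 * max 0 ((m : ℝ) ^ 2 - 15 * l ^ 2)) := by
    have a1 : 720 * l ^ 2 * (30 * x) ≤ 720 * l ^ 2 * (((m.choose 6 : ℝ) - y) * (m : ℝ) ^ 2) :=
      mul_le_mul_of_nonneg_left ht' (by positivity)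
    have a2 : 720 * (m.choose 6 : ℝ) * (l ^ 2 * (m : ℝ) ^ 2) ≤
        (m : ℝ) ^ 6 * (l ^ 2 * (m : ℝ) ^ 2) :=
      mul_le_mul_of_nonneg_right (by linarith) (by positivity)
    have a3 : 1440 * x * ((m : ℝ) ^ 2 - 15 * l ^ 2) ≤
        M * (m : ℝ) ^ 8 * max 0 ((m : ℝ) ^ 2 - 15 * l ^ 2) := by
      calc 1440 * x * ((m : ℝ) ^ 2 - 15 * l ^ 2)
          ≤ 1440 * x * max 0 ((m : ℝ) ^ 2 - 15 * l ^ 2) :=
            mul_le_mul_of_nonneg_left (le_max_right _ _) (by positivity)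
        _ ≤ M * (m : ℝ) ^ 8 * max 0 ((m : ℝ) ^ 2 - 15 * l ^ 2) :=
            mul_le_mul_of_nonneg_right hx (le_max_left _ _)
    have e : (m : ℝ) ^ 2 * ((m : ℝ) ^ 6 * l ^ 2 +
        M * (m : ℝ) ^ 6 * max 0 ((m : ℝ) ^ 2 - 15 * l ^ 2)) =
        (m : ℝ) ^ 6 * (l ^ 2 * (m : ℝ) ^ 2) +
          M * (m : ℝ) ^ 8 * max 0 ((m : ℝ) ^ 2 - 15 * l ^ 2) := by ring
    rw [e]
    linarith
  exact le_of_mul_le_mul_left key hm2

variable {n : ℕ}

theorem c_le (H : Finset (Finset (Fin n))) (A : Finset (Fin n)) : c H A ≤ A.card.choose 6 := by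
  classical
  unfold c
  refine (card_filter_le _ _).trans ?_
  rw [card_powersetCard]

theorem two_sides {H : Finset (Finset (Fin n))} (hH : Valid H) {B C : Finset (Fin n)} (hB : B ∈ H)
    (hC : C ∈ H) (hdis : Disjoint B C) (hBn : B.Nonempty) (hCn : C.Nonempty)
    (hle : C.card ≤ B.card)
    (ihB : 1440 * (d H B : ℝ) ≤ M * (B.card : ℝ) ^ 8)
    (ihC : 1440 * (d H C : ℝ) ≤ M * (C.card : ℝ) ^ 8) :
    1440 * (d H (B ∪ C) : ℝ) ≤ M * ((B ∪ C).card : ℝ) ^ 8 := by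
  have h1 := d_split hB hC hdis
  have h1' : (d H (B ∪ C) : ℝ) ≤ d H B + d H C + c H B * (C.card.choose 2 : ℝ) +
      (B.card.choose 2 : ℝ) * c H C := by exact_mod_cast h1
  have hm : 1 ≤ B.card := hBn.card_pos
  have hl : 1 ≤ C.card := hCn.card_pos
  have conv : ∀ A : Finset (Fin n), 15 * (d H A : ℝ) ≤
      ((A.card.choose 6 : ℝ) - (c H A : ℝ)) * ((A.card - 6).choose 2 : ℝ) := by
    intro A
    have := tradeoff hH A
    have h2 : ((A.card.choose 6 - c H A : ℕ) : ℝ) = (A.card.choose 6 : ℝ) - (c H A : ℝ) :=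
      Nat.cast_sub (c_le H A)
    rw [← h2]
    exact_mod_cast this
  have p1 := piece (m := B.card) (l := (C.card : ℝ)) (x := d H B) (y := c H B) hm ihB
    (Nat.cast_nonneg _) (by exact_mod_cast c_le H B) (conv B)
  have p2 := piece (m := C.card) (l := (B.card : ℝ)) (x := d H C) (y := c H C) hl ihC
    (Nat.cast_nonneg _) (by exact_mod_cast c_le H C) (conv C)
  have hlm : (C.card : ℝ) ≤ B.card := by exact_mod_cast hle
  have hl0 : (0 : ℝ) ≤ C.card := Nat.cast_nonneg _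
  have hmax : max 0 ((C.card : ℝ) ^ 2 - 15 * (B.card : ℝ) ^ 2) = 0 := by
    refine max_eq_left ?_
    have := pow_le_pow_left₀ hl0 hlm 2
    nlinarith [sq_nonneg (B.card : ℝ)]
  rw [hmax] at p2
  have ch1 : (C.card.choose 2 : ℝ) ≤ (C.card : ℝ) ^ 2 / 2 := by
    have := Nat.choose_le_pow_div (α := ℝ) 2 C.card
    norm_num [Nat.factorial] at this
    exact this
  have ch2 : (B.card.choose 2 : ℝ) ≤ (B.card : ℝ) ^ 2 / 2 := by
    have := Nat.choose_le_pow_div (α := ℝ) 2 B.card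
    norm_num [Nat.factorial] at this
    exact this
  have q1 : (c H B : ℝ) * (C.card.choose 2 : ℝ) ≤ c H B * ((C.card : ℝ) ^ 2 / 2) :=
    mul_le_mul_of_nonneg_left ch1 (Nat.cast_nonneg _)
  have q2 : (B.card.choose 2 : ℝ) * (c H C : ℝ) ≤ (c H C : ℝ) * ((B.card : ℝ) ^ 2 / 2) := by
    rw [mul_comm]
    exact mul_le_mul_of_nonneg_left ch2 (Nat.cast_nonneg _)
  have hin := ineq (m := (B.card : ℝ)) (l := (C.card : ℝ)) (by exact_mod_cast hm) hl0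
  have hcard : ((B ∪ C).card : ℝ) = B.card + C.card := by
    rw [card_union_of_disjoint hdis]; push_cast; ring
  rw [hcard]
  linarith

theorem main_bound {H : Finset (Finset (Fin n))} (hH : Valid H) :
    ∀ k : ℕ, ∀ A ∈ H, A.card = k → 1440 * (d H A : ℝ) ≤ M * (A.card : ℝ) ^ 8 := by
  intro k
  induction k using Nat.strong_induction_on with
  | _ k ih =>
    intro A hA hk
    rcases lt_or_ge A.card 2 with h2 | h2
    · have : d H A = 0 := by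
        unfold d
        rw [powersetCard_eq_empty.2 (by omega)]
        simp
      rw [this]
      have := M_pos
      simp only [Nat.cast_zero, mul_zero]
      positivity
    · obtain ⟨-, -, -, -, hsp⟩ := id hH
      obtain ⟨B, hB, C, hC, hBn, hCn, hdis, rfl⟩ := hsp A hA h2
      have hc : (B ∪ C).card = B.card + C.card := card_union_of_disjoint hdis
      have hb1 := hBn.card_pos
      have hc1 := hCn.card_pos
      have iB := ih B.card (by omega) B hB rfl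
      have iC := ih C.card (by omega) C hC rfl
      rcases le_total C.card B.card with h | h
      · exact two_sides hH hB hC hdis hBn hCn h iB iC
      · rw [union_comm]
        exact two_sides hH hC hB hdis.symm hCn hBn h iC iB

theorem upper {H : Finset (Finset (Fin n))} (hH : Valid H) :
    1440 * (d H univ : ℝ) ≤ M * (n : ℝ) ^ 8 := by
  have := main_bound hH _ univ hH.1 rfl
  simpa using this

end Pool.Agent.H449R3.Induc
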