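import Mathlib
import Pool.Agent.H449R3.IndA

/-!
Copies of an eight leaf tree in binary hierarchies: the construction.
-/

set_option autoImplicit false

namespace Pool.Agent.H449R3.Induc

open Finset

variable {n : ℕ}

/-- `H` consists of two caterpillars with leaf sets `U` and `V` joined at the root -/
structure Two (H : Finset (Finset (Fin n))) (U V : Finset (Fin n)) : Prop where
  disj : Disjoint U V
  cases : ∀ C ∈ H, C = univ ∨ (∃ i, C = {i}) ∨ (C ⊆ U ∧ ∀ x ∈ C, ∀ y ∈ U, y ≤ x → y ∈ C) ∨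
    (C ⊆ V ∧ ∀ x ∈ C, ∀ y ∈ V, y ≤ x → y ∈ C)
  top : univ ∈ H
  single : ∀ i : Fin n, ({i} : Finset (Fin n)) ∈ H
  iniU : ∀ x ∈ U, (U.filter fun y => y ≤ x) ∈ H
  iniV : ∀ x ∈ V, (V.filter fun y => y ≤ x) ∈ H

theorem Two.symm {H : Finset (Finset (Fin n))} {U V : Finset (Fin n)} (h : Two H U V) :
    Two H V U where
  disj := h.disj.symm
  cases C hC := by
    rcases h.cases C hC with h1 | h1 | h1 | h1
    · exact Or.inl h1
    · exact Or.inr (Or.inl h1)
    · exact Or.inr (Or.inr (Or.inr h1))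
    · exact Or.inr (Or.inr (Or.inl h1))
  top := h.top
  single := h.single
  iniU := h.iniV
  iniV := h.iniU

theorem D8_single : ∀ t : Fin 8, ({t} : Finset (Fin 8)) ∈ D8 := by
  unfold D8; decide +kernel

theorem D8_univ : univ ∈ D8 := by unfold D8; decide +kernel

theorem D8_lowU : ∀ A : Finset (Fin 8), A.Nonempty → (∀ t ∈ A, t.val < 6) →
    (∀ t ∈ A, ∀ t' : Fin 8, t' ≤ t → t' ∈ A) → A ∈ D8 := by
  unfold D8; decide +kernel

theorem D8_lowV : ∀ A : Finset (Fin 8), A.Nonempty → (∀ t ∈ A, 6 ≤ t.val) →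
    (∀ t ∈ A, ∀ t' : Fin 8, t' ≤ t → 6 ≤ t'.val → t' ∈ A) → A ∈ D8 := by
  unfold D8; decide +kernel

theorem D8_class : ∀ A ∈ D8, A = univ ∨ (∃ t : Fin 8, A = {t}) ∨
    (∃ t : Fin 8, t.val < 6 ∧ A = univ.filter fun t' => t' ≤ t) ∨
    (∃ t : Fin 8, 6 ≤ t.val ∧ A = univ.filter fun t' => 6 ≤ t'.val ∧ t' ≤ t) := by
  unfold D8; decide +kernel

theorem D8_nonempty : ∀ A ∈ D8, A.Nonempty := by
  unfold D8; decide +kernel

theorem Two.ind {H : Finset (Finset (Fin n))} {U V : Finset (Fin n)} (h : Two H U V)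
    {S T : Finset (Fin n)} (hS : S ⊆ U) (hT : T ⊆ V) (hS6 : S.card = 6) (hT2 : T.card = 2) :
    Ind D8 H (S ∪ T) := by
  classical
  set f := S.orderEmbOfFin hS6 with hf
  set g := T.orderEmbOfFin hT2 with hg
  set e : Fin 8 → Fin n := fun t =>
    if h : t.val < 6 then f ⟨t.val, h⟩ else g ⟨t.val - 6, by omega⟩ with he
  have e1 : ∀ (t : Fin 8) (ht : t.val < 6), e t = f ⟨t.val, ht⟩ := fun t ht => by
    simp only [he, dif_pos ht]
  have e2 : ∀ (t : Fin 8) (ht : 6 ≤ t.val), e t = g ⟨t.val - 6, by omega⟩ := fun t ht => by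
    simp only [he, dif_neg (not_lt.2 ht)]
  have fU : ∀ i, f i ∈ S := fun i => S.orderEmbOfFin_mem hS6 i
  have gV : ∀ i, g i ∈ T := fun i => T.orderEmbOfFin_mem hT2 i
  have m1 : ∀ t : Fin 8, t.val < 6 → e t ∈ S := fun t ht => by rw [e1 t ht]; exact fU _
  have m2 : ∀ t : Fin 8, 6 ≤ t.val → e t ∈ T := fun t ht => by rw [e2 t ht]; exact gV _
  have ndisj : ∀ x, x ∈ U → x ∈ V → False := fun x hx hy => Finset.disjoint_left.1 h.disj hx hy
  have l1 : ∀ t t' : Fin 8, t.val < 6 → t'.val < 6 → (e t' ≤ e t ↔ t' ≤ t) := by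
    intro t t' ht ht'
    rw [e1 t ht, e1 t' ht', OrderEmbedding.le_iff_le]
    rfl
  have l2 : ∀ t t' : Fin 8, 6 ≤ t.val → 6 ≤ t'.val → (e t' ≤ e t ↔ t' ≤ t) := by
    intro t t' ht ht'
    rw [e2 t ht, e2 t' ht', OrderEmbedding.le_iff_le, Fin.mk_le_mk, Fin.le_def]
    omega
  have inj : Function.Injective e := by
    intro t t' htt
    rcases lt_or_ge t.val 6 with a | a <;> rcases lt_or_ge t'.val 6 with b | b
    · exact le_antisymm ((l1 t' t b a).1 htt.le) ((l1 t t' a b).1 htt.ge)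
    · exact absurd (hT (m2 t' b)) (fun hv => ndisj _ (hS (m1 t a)) (htt ▸ hv))
    · exact absurd (hT (m2 t a)) (fun hv => ndisj _ (hS (m1 t' b)) (htt ▸ hv))
    · exact le_antisymm ((l2 t' t b a).1 htt.le) ((l2 t t' a b).1 htt.ge)
  have rS : ∀ x ∈ S, ∃ t : Fin 8, t.val < 6 ∧ e t = x := by
    intro x hx
    have : x ∈ Set.range f := by
      rw [hf, Finset.range_orderEmbOfFin]; exact_mod_cast hx
    obtain ⟨i, rfl⟩ := this
    refine ⟨⟨i.val, by omega⟩, i.2, ?_⟩
    rw [e1 _ i.2]
  have rT : ∀ x ∈ T, ∃ t : Fin 8, 6 ≤ t.val ∧ e t = x := by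
    intro x hx
    have : x ∈ Set.range g := by
      rw [hg, Finset.range_orderEmbOfFin]; exact_mod_cast hx
    obtain ⟨i, rfl⟩ := this
    refine ⟨⟨i.val + 6, by omega⟩, by simp, ?_⟩
    rw [e2 _ (by simp)]
    simp
  have mem : ∀ t, e t ∈ S ∪ T := by
    intro t
    rcases lt_or_ge t.val 6 with a | a
    · exact mem_union_left _ (m1 t a)
    · exact mem_union_right _ (m2 t a)
  refine ⟨e, inj, ?_, ?_⟩
  · ext x
    simp only [Set.mem_range, mem_coe, mem_union]
    constructor
    · rintro ⟨t, rfl⟩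
      exact mem_union.1 (mem t)
    · rintro (hx | hx)
      · obtain ⟨t, -, ht⟩ := rS x hx; exact ⟨t, ht⟩
      · obtain ⟨t, -, ht⟩ := rT x hx; exact ⟨t, ht⟩
  · intro A
    constructor
    · intro hA
      refine ⟨D8_nonempty A hA, ?_⟩
      rcases D8_class A hA with rfl | ⟨t, rfl⟩ | ⟨t, ht, rfl⟩ | ⟨t, ht, rfl⟩
      · refine ⟨univ, h.top, ?_⟩
        rw [univ_inter]
        ext x
        simp only [mem_union, mem_image, mem_univ, true_and]
        constructor
        · rintro (hx | hx)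
          · obtain ⟨t, -, ht⟩ := rS x hx; exact ⟨t, ht⟩
          · obtain ⟨t, -, ht⟩ := rT x hx; exact ⟨t, ht⟩
        · rintro ⟨t, rfl⟩
          exact mem_union.1 (mem t)
      · refine ⟨{e t}, h.single _, ?_⟩
        rw [image_singleton]
        exact inter_eq_left.2 (singleton_subset_iff.2 (mem t))
      · refine ⟨_, h.iniU (e t) (hS (m1 t ht)), ?_⟩
        ext x
        simp only [mem_inter, mem_filter, mem_union, mem_image, mem_univ, true_and]
        constructor
        · rintro ⟨⟨hxU, hxt⟩, hx | hx⟩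
          · obtain ⟨t', ht', rfl⟩ := rS x hx
            exact ⟨t', (l1 t t' ht ht').1 hxt, rfl⟩
          · exact (ndisj x hxU (hT hx)).elim
        · rintro ⟨t', ht', rfl⟩
          have h6 : t'.val < 6 := lt_of_le_of_lt (Fin.le_def.1 ht') ht
          exact ⟨⟨hS (m1 t' h6), (l1 t t' ht h6).2 ht'⟩, Or.inl (m1 t' h6)⟩
      · refine ⟨_, h.iniV (e t) (hT (m2 t ht)), ?_⟩
        ext x
        simp only [mem_inter, mem_filter, mem_union, mem_image, mem_univ, true_and]
        constructor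
        · rintro ⟨⟨hxV, hxt⟩, hx | hx⟩
          · exact (ndisj x (hS hx) hxV).elim
          · obtain ⟨t', ht', rfl⟩ := rT x hx
            exact ⟨t', ⟨ht', (l2 t t' ht ht').1 hxt⟩, rfl⟩
        · rintro ⟨t', ⟨h6, ht'⟩, rfl⟩
          exact ⟨⟨hT (m2 t' h6), (l2 t t' ht h6).2 ht'⟩, Or.inr (m2 t' h6)⟩
    · rintro ⟨hne, C, hC, hCA⟩
      have hmem : ∀ t, t ∈ A ↔ e t ∈ C := by
        intro t
        constructor
        · intro ht
          have : e t ∈ C ∩ (S ∪ T) := by rw [hCA]; exact mem_image_of_mem _ ht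
          exact (mem_inter.1 this).1
        · intro ht
          have : e t ∈ A.image e := by rw [← hCA]; exact mem_inter.2 ⟨ht, mem t⟩
          obtain ⟨t', ht', hEq⟩ := mem_image.1 this
          rwa [← inj hEq]
      rcases h.cases C hC with rfl | ⟨i, rfl⟩ | ⟨hCU, hlow⟩ | ⟨hCV, hlow⟩
      · have : A = univ := by
          ext t; simp [hmem]
        rw [this]; exact D8_univ
      · obtain ⟨t₀, ht₀⟩ := hne
        have : A = {t₀} := by
          ext t
          rw [hmem, mem_singleton, mem_singleton]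
          have h0 := (hmem t₀).1 ht₀
          rw [mem_singleton] at h0
          constructor
          · intro h1; exact inj (h1.trans h0.symm)
          · rintro rfl; exact h0
        rw [this]; exact D8_single _
      · have h6 : ∀ t ∈ A, t.val < 6 := by
          intro t ht
          by_contra hcon
          exact ndisj _ (hCU ((hmem t).1 ht)) (hT (m2 t (not_lt.1 hcon)))
        refine D8_lowU A hne h6 fun t ht t' ht' => ?_
        have h6' : t'.val < 6 := lt_of_le_of_lt (Fin.le_def.1 ht') (h6 t ht)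
        rw [hmem]
        exact hlow _ ((hmem t).1 ht) _ (hS (m1 t' h6')) ((l1 t t' (h6 t ht) h6').2 ht')
      · have h6 : ∀ t ∈ A, 6 ≤ t.val := by
          intro t ht
          by_contra hcon
          exact ndisj _ (hS (m1 t (not_le.1 hcon))) (hCV ((hmem t).1 ht))
        refine D8_lowV A hne h6 fun t ht t' ht' h6' => ?_
        rw [hmem]
        exact hlow _ ((hmem t).1 ht) _ (hT (m2 t' h6')) ((l2 t t' (h6 t ht) h6').2 ht')

theorem Two.lower {H : Finset (Finset (Fin n))} {U V : Finset (Fin n)} (h : Two H U V) :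
    U.card.choose 6 * V.card.choose 2 + U.card.choose 2 * V.card.choose 6 ≤ d H univ := by
  classical
  unfold d
  set F := (powersetCard 8 (univ : Finset (Fin n))).filter fun S => Ind D8 H S with hF
  have hUV := h.disj
  have back : ∀ S T : Finset (Fin n), S ⊆ U → T ⊆ V → (S ∪ T) ∩ U = S ∧ (S ∪ T) ∩ V = T := by
    intro S T hS hT
    constructor
    · rw [union_inter_distrib_right, inter_eq_left.2 hS,
        Finset.disjoint_iff_inter_eq_empty.1 (hUV.symm.mono_left hT), union_empty]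
    · rw [union_inter_distrib_right, inter_eq_left.2 hT,
        Finset.disjoint_iff_inter_eq_empty.1 (hUV.mono_left hS), empty_union]
  have inj : ∀ a b : ℕ, Set.InjOn (fun p : Finset (Fin n) × Finset (Fin n) => p.1 ∪ p.2)
      (↑(powersetCard a U ×ˢ powersetCard b V) : Set _) := by
    rintro a b ⟨S, T⟩ hp ⟨S', T'⟩ hp' hEq
    rw [mem_coe, mem_product, mem_powersetCard, mem_powersetCard] at hp hp'
    simp only at hp hp' hEq
    have b1 := back S T hp.1.1 hp.2.1
    have b2 := back S' T' hp'.1.1 hp'.2.1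
    rw [hEq] at b1
    rw [Prod.mk.injEq]
    exact ⟨b1.1.symm.trans b2.1, b1.2.symm.trans b2.2⟩
  set I₁ := (powersetCard 6 U ×ˢ powersetCard 2 V).image (fun p => p.1 ∪ p.2) with hI₁
  set I₂ := (powersetCard 2 U ×ˢ powersetCard 6 V).image (fun p => p.1 ∪ p.2) with hI₂
  have c1 : I₁.card = U.card.choose 6 * V.card.choose 2 := by
    rw [hI₁, card_image_of_injOn (inj 6 2), card_product, card_powersetCard, card_powersetCard]
  have c2 : I₂.card = U.card.choose 2 * V.card.choose 6 := by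
    rw [hI₂, card_image_of_injOn (inj 2 6), card_product, card_powersetCard, card_powersetCard]
  have hdis : Disjoint I₁ I₂ := by
    rw [Finset.disjoint_left]
    intro X h1 h2
    rw [hI₁, mem_image] at h1
    rw [hI₂, mem_image] at h2
    obtain ⟨⟨S, T⟩, hp, rfl⟩ := h1
    obtain ⟨⟨S', T'⟩, hp', hEq⟩ := h2
    rw [mem_product, mem_powersetCard, mem_powersetCard] at hp hp'
    simp only at hp hp' hEq
    have b1 := (back S T hp.1.1 hp.2.1).1
    have b2 := (back S' T' hp'.1.1 hp'.2.1).1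
    rw [hEq] at b2
    have : S = S' := b1.symm.trans b2
    rw [this] at hp
    omega
  rw [← c1, ← c2, ← card_union_of_disjoint hdis]
  refine card_le_card (union_subset ?_ ?_)
  · intro X hX
    rw [hI₁, mem_image] at hX
    obtain ⟨⟨S, T⟩, hp, rfl⟩ := hX
    rw [mem_product, mem_powersetCard, mem_powersetCard] at hp
    rw [hF, mem_filter, mem_powersetCard]
    have hI := h.ind hp.1.1 hp.2.1 hp.1.2 hp.2.2
    exact ⟨⟨subset_univ _, ind_card hI⟩, hI⟩
  · intro X hX
    rw [hI₂, mem_image] at hX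
    obtain ⟨⟨S, T⟩, hp, rfl⟩ := hX
    rw [mem_product, mem_powersetCard, mem_powersetCard] at hp
    rw [hF, mem_filter, mem_powersetCard]
    have hI := h.symm.ind hp.2.1 hp.1.1 hp.2.2 hp.1.2
    rw [union_comm] at hI
    exact ⟨⟨subset_univ _, ind_card hI⟩, hI⟩

/-- the sets of leaves `x` with `a ≤ x < j` -/
def seg (n a j : ℕ) : Finset (Fin n) := univ.filter fun x => a ≤ x.val ∧ x.val < j

theorem mem_seg {a j : ℕ} {x : Fin n} : x ∈ seg n a j ↔ a ≤ x.val ∧ x.val < j := by
  simp [seg]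

open Classical in
/-- two caterpillars with `a` and `n - a` leaves joined at the root -/
noncomputable def HH (n a : ℕ) : Finset (Finset (Fin n)) :=
  univ.filter fun A => A = univ ∨ (∃ i, A = {i}) ∨ (∃ j, 0 < j ∧ j ≤ a ∧ A = seg n 0 j) ∨
    (∃ j, a < j ∧ j ≤ n ∧ A = seg n a j)

theorem mem_HH {a : ℕ} {A : Finset (Fin n)} : A ∈ HH n a ↔ (A = univ ∨ (∃ i, A = {i}) ∨
    (∃ j, 0 < j ∧ j ≤ a ∧ A = seg n 0 j) ∨ (∃ j, a < j ∧ j ≤ n ∧ A = seg n a j)) := by
  classical
  simp [HH]

theorem seg_card {a j : ℕ} (hj : j ≤ n) (haj : a ≤ j) : (seg n a j).card = j - a := by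
  classical
  have : (seg n a j).map Fin.valEmbedding = Finset.Ico a j := by
    ext x
    simp only [mem_map, mem_seg, Fin.valEmbedding_apply, mem_Ico]
    constructor
    · rintro ⟨y, hy, rfl⟩; exact hy
    · intro hx; exact ⟨⟨x, by omega⟩, hx, rfl⟩
  rw [← Finset.card_map Fin.valEmbedding, this, Nat.card_Ico]

theorem HH_two {a : ℕ} (han : a < n) : Two (HH n a) (seg n 0 a) (seg n a n) where
  disj := by
    rw [Finset.disjoint_left]
    intro x h1 h2
    rw [mem_seg] at h1 h2
    omega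
  cases C hC := by
    rw [mem_HH] at hC
    rcases hC with h | h | ⟨j, h1, h2, rfl⟩ | ⟨j, h1, h2, rfl⟩
    · exact Or.inl h
    · exact Or.inr (Or.inl h)
    · refine Or.inr (Or.inr (Or.inl ⟨fun x hx => ?_, fun x hx y hy hyx => ?_⟩))
      · rw [mem_seg] at hx ⊢; omega
      · rw [mem_seg] at hx hy ⊢
        have := Fin.le_def.1 hyx
        omega
    · refine Or.inr (Or.inr (Or.inr ⟨fun x hx => ?_, fun x hx y hy hyx => ?_⟩))
      · rw [mem_seg] at hx ⊢; omega
      · rw [mem_seg] at hx hy ⊢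
        have := Fin.le_def.1 hyx
        omega
  top := mem_HH.2 (Or.inl rfl)
  single i := mem_HH.2 (Or.inr (Or.inl ⟨i, rfl⟩))
  iniU x hx := by
    rw [mem_seg] at hx
    refine mem_HH.2 (Or.inr (Or.inr (Or.inl ⟨x.val + 1, by omega, by omega, ?_⟩)))
    ext y
    simp only [mem_filter, mem_seg, Fin.le_def]
    omega
  iniV x hx := by
    rw [mem_seg] at hx
    refine mem_HH.2 (Or.inr (Or.inr (Or.inr ⟨x.val + 1, by omega, by omega, ?_⟩)))
    ext y
    simp only [mem_filter, mem_seg, Fin.le_def]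
    omega

theorem HH_valid {a : ℕ} (ha : 0 < a) (han : a < n) : Valid (HH n a) := by
  refine ⟨(HH_two han).top, (HH_two han).single, ?_, ?_, ?_⟩
  · rw [mem_HH]
    rintro (h | ⟨i, h⟩ | ⟨j, h1, h2, h⟩ | ⟨j, h1, h2, h⟩)
    · have : (⟨0, by omega⟩ : Fin n) ∈ (univ : Finset (Fin n)) := mem_univ _
      rw [← h] at this
      simp at this
    · exact (singleton_ne_empty i) h.symm
    · have : (⟨0, by omega⟩ : Fin n) ∈ seg n 0 j := mem_seg.2 ⟨le_refl _, h1⟩
      rw [← h] at this
      simp at this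
    · have : (⟨a, han⟩ : Fin n) ∈ seg n a j := mem_seg.2 ⟨le_refl _, h1⟩
      rw [← h] at this
      simp at this
  · have hs : ∀ (i : Fin n) (B : Finset (Fin n)), {i} ⊆ B ∨ Disjoint {i} B := by
      intro i B
      by_cases h : i ∈ B
      · exact Or.inl (singleton_subset_iff.2 h)
      · exact Or.inr (disjoint_singleton_left.2 h)
    intro A hA B hB
    rw [mem_HH] at hA hB
    rcases hA with rfl | ⟨i, rfl⟩ | hA
    · exact Or.inr (Or.inl (subset_univ _))
    · rcases hs i B with h | h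
      · exact Or.inl h
      · exact Or.inr (Or.inr h)
    rcases hB with rfl | ⟨i, rfl⟩ | hB
    · exact Or.inl (subset_univ _)
    · rcases hs i A with h | h
      · exact Or.inr (Or.inl h)
      · exact Or.inr (Or.inr h.symm)
    rcases hA with ⟨j, h1, h2, rfl⟩ | ⟨j, h1, h2, rfl⟩ <;>
      rcases hB with ⟨j', h1', h2', rfl⟩ | ⟨j', h1', h2', rfl⟩
    · rcases le_total j j' with h | h
      · refine Or.inl fun x hx => ?_
        rw [mem_seg] at hx ⊢; omega
      · refine Or.inr (Or.inl fun x hx => ?_)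
        rw [mem_seg] at hx ⊢; omega
    · refine Or.inr (Or.inr ?_)
      rw [Finset.disjoint_left]
      intro x h1 h2
      rw [mem_seg] at h1 h2
      omega
    · refine Or.inr (Or.inr ?_)
      rw [Finset.disjoint_left]
      intro x h1 h2
      rw [mem_seg] at h1 h2
      omega
    · rcases le_total j j' with h | h
      · refine Or.inl fun x hx => ?_
        rw [mem_seg] at hx ⊢; omega
      · refine Or.inr (Or.inl fun x hx => ?_)
        rw [mem_seg] at hx ⊢; omega
  · intro A hA hA2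
    rw [mem_HH] at hA
    rcases hA with rfl | ⟨i, rfl⟩ | ⟨j, h1, h2, rfl⟩ | ⟨j, h1, h2, rfl⟩
    · refine ⟨seg n 0 a, mem_HH.2 (Or.inr (Or.inr (Or.inl ⟨a, ha, le_refl _, rfl⟩))),
        seg n a n, mem_HH.2 (Or.inr (Or.inr (Or.inr ⟨n, han, le_refl _, rfl⟩))),
        ⟨⟨0, by omega⟩, mem_seg.2 ⟨le_refl _, ha⟩⟩, ⟨⟨a, han⟩, mem_seg.2 ⟨le_refl _, han⟩⟩,
        (HH_two han).disj, ?_⟩
      ext x
      have := x.2
      simp only [mem_union, mem_seg, mem_univ, iff_true]
      omega
    · simp at hA2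
    · rw [seg_card (by omega) (by omega)] at hA2
      refine ⟨seg n 0 (j - 1), mem_HH.2 (Or.inr (Or.inr (Or.inl ⟨j - 1, by omega, by omega, rfl⟩))),
        {⟨j - 1, by omega⟩}, (HH_two han).single _, ⟨⟨0, by omega⟩, mem_seg.2 ⟨le_refl _, by
          show 0 < j - 1
          omega⟩⟩,
        singleton_nonempty _, ?_, ?_⟩
      · rw [disjoint_singleton_right, mem_seg]
        simp
      · ext x
        simp only [mem_union, mem_seg, mem_singleton, Fin.ext_iff]
        omega
    · rw [seg_card (by omega) (by omega)] at hA2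
      refine ⟨seg n a (j - 1), mem_HH.2 (Or.inr (Or.inr (Or.inr ⟨j - 1, by omega, by omega, rfl⟩))),
        {⟨j - 1, by omega⟩}, (HH_two han).single _, ⟨⟨a, by omega⟩, mem_seg.2 ⟨le_refl _, by
          show a < j - 1
          omega⟩⟩,
        singleton_nonempty _, ?_, ?_⟩
      · rw [disjoint_singleton_right, mem_seg]
        simp
      · ext x
        simp only [mem_union, mem_seg, mem_singleton, Fin.ext_iff]
        omega

theorem exists_lower {a : ℕ} (ha : 0 < a) (han : a < n) :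
    ∃ H : Finset (Finset (Fin n)), Valid H ∧
      a.choose 6 * (n - a).choose 2 + a.choose 2 * (n - a).choose 6 ≤ d H univ := by
  refine ⟨HH n a, HH_valid ha han, ?_⟩
  have := (HH_two han).lower
  rw [seg_card han.le (Nat.zero_le _), seg_card (le_refl _) han.le] at this
  simpa using this

end Pool.Agent.H449R3.Induc
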