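import Pool.Agent.H449R3.IndB
import Pool.Agent.H449R3.IndC

/-!
Copies of an eight leaf tree in binary hierarchies: the limit.
-/

set_option autoImplicit false

namespace Pool.Agent.H449R3.Induc

open Finset Filter Topology

theorem ncard_eq {n : ℕ} (H : Finset (Finset (Fin n))) :
    Set.ncard {S : Finset (Fin n) | Ind D8 H S} = d H univ := by
  classical
  have h1 : {S : Finset (Fin n) | Ind D8 H S}
      = ↑((powersetCard 8 (univ : Finset (Fin n))).filter fun S => Ind D8 H S) := by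
    ext S
    simp only [Set.mem_setOf_eq, coe_filter, mem_powersetCard, subset_univ, true_and]
    exact ⟨fun h => ⟨ind_card h, h⟩, fun h => h.2⟩
  rw [h1, Set.ncard_coe_finset]
  unfold d
  apply congrArg
  ext S
  simp only [mem_filter]

theorem choose_lim {u : ℕ → ℕ} {γ : ℝ} (h : Tendsto (fun n : ℕ => (u n : ℝ) / n) atTop (𝓝 γ))
    (k : ℕ) :
    Tendsto (fun n : ℕ => ((u n).choose k : ℝ) / (n : ℝ) ^ k) atTop
      (𝓝 (γ ^ k / (k.factorial : ℝ))) := by
  have h1 : ∀ i : ℕ, Tendsto (fun n : ℕ => ((u n - i : ℕ) : ℝ) / n) atTop (𝓝 γ) := by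
    intro i
    have h2 : Tendsto (fun n : ℕ => (u n : ℝ) / n - i / n) atTop (𝓝 γ) := by
      have := h.sub (tendsto_const_div_atTop_nhds_zero_nat (i : ℝ))
      simpa using this
    refine tendsto_of_tendsto_of_tendsto_of_le_of_le h2 h ?_ ?_
    · intro n
      dsimp only
      rw [← sub_div]
      apply div_le_div_of_nonneg_right _ (Nat.cast_nonneg n)
      have h3 : (u n : ℝ) ≤ ((u n - i : ℕ) : ℝ) + i := by
        have : u n ≤ (u n - i) + i := by omega
        exact_mod_cast this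
      linarith
    · intro n
      dsimp only
      apply div_le_div_of_nonneg_right _ (Nat.cast_nonneg n)
      have : u n - i ≤ u n := by omega
      exact_mod_cast this
  have h3 : Tendsto (fun n : ℕ => ∏ i ∈ range k, ((u n - i : ℕ) : ℝ) / n) atTop
      (𝓝 (∏ _i ∈ range k, γ)) := tendsto_finset_prod _ (fun i _ => h1 i)
  have h4 : ∀ n : ℕ, ((u n).choose k : ℝ) / (n : ℝ) ^ k
      = (∏ i ∈ range k, ((u n - i : ℕ) : ℝ) / n) / (k.factorial : ℝ) := by
    intro n
    have h5 : ((u n).descFactorial k : ℝ) = (k.factorial : ℝ) * ((u n).choose k : ℝ) := by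
      exact_mod_cast Nat.descFactorial_eq_factorial_mul_choose (u n) k
    have h6 : ((u n).descFactorial k : ℝ) = ∏ i ∈ range k, ((u n - i : ℕ) : ℝ) := by
      rw [Nat.descFactorial_eq_prod_range]
      push_cast
      rfl
    have hk : (k.factorial : ℝ) ≠ 0 := by positivity
    rw [prod_div_distrib, ← h6, h5, prod_const, card_range]
    field_simp
  simp_rw [h4]
  have h7 := h3.div_const (k.factorial : ℝ)
  simpa using h7

/-- the larger share -/
noncomputable def al : ℝ := (1 + Real.sqrt (Real.sqrt 5 - 2)) / 2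

theorem inner_pos : 0 < Real.sqrt 5 - 2 := by have := sqrt5_lb; linarith

theorem inner_sq : Real.sqrt (Real.sqrt 5 - 2) ^ 2 = Real.sqrt 5 - 2 :=
  Real.sq_sqrt inner_pos.le

theorem al_pos : 0 < al := by
  unfold al
  have := Real.sqrt_nonneg (Real.sqrt 5 - 2)
  linarith

theorem al_lt : al < 1 := by
  unfold al
  have h1 := Real.sqrt_nonneg (Real.sqrt 5 - 2)
  have h2 := inner_sq
  have h3 := sqrt5_ub
  have : Real.sqrt (Real.sqrt 5 - 2) < 1 := by nlinarith
  linarith

theorem al_val : al ^ 6 * (1 - al) ^ 2 + al ^ 2 * (1 - al) ^ 6 = M := by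
  have h2 := inner_sq
  have h5 := sqrt5_sq
  have hp : al * (1 - al) = (3 - Real.sqrt 5) / 4 := by
    unfold al
    nlinarith
  have hq : al ^ 4 + (1 - al) ^ 4 = 1 - 4 * (al * (1 - al)) + 2 * (al * (1 - al)) ^ 2 := by ring
  have : al ^ 6 * (1 - al) ^ 2 + al ^ 2 * (1 - al) ^ 6
      = (al * (1 - al)) ^ 2 * (al ^ 4 + (1 - al) ^ 4) := by ring
  rw [this, hq, hp]
  unfold M
  set s := Real.sqrt 5 with hs
  have h5' : s ^ 2 = 5 := by rw [sq]; exact h5
  have h3 : s ^ 3 = 5 * s := by rw [pow_succ, h5']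
  have h4 : s ^ 4 = 25 := by
    have : s ^ 4 = (s ^ 2) ^ 2 := by ring
    rw [this, h5']; norm_num
  ring_nf
  rw [h5', h3, h4]
  ring

theorem irr : Irrational (28 * M) := by
  have h5 : Irrational (Real.sqrt 5) := by
    have := Nat.Prime.irrational_sqrt (p := 5) (by norm_num)
    simpa using this
  rintro ⟨q, hq⟩
  apply h5
  refine ⟨(q * 4 / 7 + 11) / 5, ?_⟩
  push_cast
  rw [hq]
  unfold M
  ring

/-- the set of densities -/
def F (n : ℕ) : Set ℝ := {x : ℝ | ∃ H : Finset (Finset (Fin n)), Valid H ∧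
  x = (Set.ncard {S : Finset (Fin n) | Ind D8 H S} : ℝ) / ((n.choose 8 : ℕ) : ℝ)}

theorem F_le {n : ℕ} {x : ℝ} (hx : x ∈ F n) :
    x ≤ M * (n : ℝ) ^ 8 / (1440 * (n.choose 8 : ℝ)) := by
  obtain ⟨H, hH, rfl⟩ := hx
  rw [ncard_eq]
  have h1 := upper hH
  have h2 : (0 : ℝ) ≤ (n.choose 8 : ℝ) := Nat.cast_nonneg _
  have h3 : ((d H univ : ℕ) : ℝ) / ((n.choose 8 : ℕ) : ℝ)
      = (1440 * (d H univ : ℝ)) / (1440 * (n.choose 8 : ℝ)) := by
    rw [mul_div_mul_left _ _ (by norm_num : (1440 : ℝ) ≠ 0)]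
  rw [h3]
  apply div_le_div_of_nonneg_right h1
  positivity

theorem lim_choose8 : Tendsto (fun n : ℕ => (n.choose 8 : ℝ) / (n : ℝ) ^ 8) atTop
    (𝓝 (1 / 40320)) := by
  have h0 : Tendsto (fun n : ℕ => ((id n : ℕ) : ℝ) / n) atTop (𝓝 1) := by
    refine tendsto_const_nhds.congr' ?_
    filter_upwards [eventually_gt_atTop 0] with n hn
    have : (n : ℝ) ≠ 0 := by positivity
    simp [this]
  have h1 := choose_lim h0 8
  have h2 : (1 : ℝ) ^ 8 / ((Nat.factorial 8 : ℕ) : ℝ) = 1 / 40320 := by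
    simp only [Nat.factorial]
    norm_num
  rw [h2] at h1
  exact h1

theorem upper_lim : Tendsto (fun n : ℕ => M * (n : ℝ) ^ 8 / (1440 * (n.choose 8 : ℝ))) atTop
    (𝓝 (28 * M)) := by
  have h1 := lim_choose8
  have h2 := (tendsto_const_nhds (x := M / 1440)).div h1 (by norm_num)
  have h3 : M / 1440 / (1 / 40320) = 28 * M := by ring
  rw [h3] at h2
  refine h2.congr' ?_
  filter_upwards [eventually_ge_atTop 8] with n hn
  have ha : (n : ℝ) ≠ 0 := by
    have : 0 < n := by omega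
    positivity
  have hb : (n.choose 8 : ℝ) ≠ 0 := by
    have := Nat.choose_pos hn
    positivity
  simp only [Pi.div_apply]
  field_simp

theorem lower_lim : Tendsto (fun n : ℕ =>
    (((⌊al * (n : ℝ)⌋₊).choose 6 * (n - ⌊al * (n : ℝ)⌋₊).choose 2
      + (⌊al * (n : ℝ)⌋₊).choose 2 * (n - ⌊al * (n : ℝ)⌋₊).choose 6 : ℕ) : ℝ)
      / (n.choose 8 : ℝ)) atTop (𝓝 (28 * M)) := by
  have ha : Tendsto (fun n : ℕ => ((⌊al * (n : ℝ)⌋₊ : ℕ) : ℝ) / n) atTop (𝓝 al) :=
    (tendsto_nat_floor_mul_div_atTop al_pos.le).comp tendsto_natCast_atTop_atTop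
  have hfl : ∀ n : ℕ, ⌊al * (n : ℝ)⌋₊ ≤ n := by
    intro n
    have : al * (n : ℝ) ≤ n := by
      have h1 := al_lt
      have h2 : (0 : ℝ) ≤ n := Nat.cast_nonneg n
      nlinarith
    exact Nat.floor_le_of_le this
  have hb : Tendsto (fun n : ℕ => ((n - ⌊al * (n : ℝ)⌋₊ : ℕ) : ℝ) / n) atTop (𝓝 (1 - al)) := by
    have h1 := (tendsto_const_nhds (x := (1 : ℝ))).sub ha
    refine h1.congr' ?_
    filter_upwards [eventually_gt_atTop 0] with n hn
    have h2 : (n : ℝ) ≠ 0 := by positivity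
    rw [Nat.cast_sub (hfl n)]
    field_simp
  have a6 := choose_lim ha 6
  have a2 := choose_lim ha 2
  have b6 := choose_lim hb 6
  have b2 := choose_lim hb 2
  have hnum := (a6.mul b2).add (a2.mul b6)
  have hall := hnum.div lim_choose8 (by norm_num)
  have hval : (al ^ 6 / ((Nat.factorial 6 : ℕ) : ℝ) * ((1 - al) ^ 2 / ((Nat.factorial 2 : ℕ) : ℝ))
      + al ^ 2 / ((Nat.factorial 2 : ℕ) : ℝ) * ((1 - al) ^ 6 / ((Nat.factorial 6 : ℕ) : ℝ)))
      / (1 / 40320) = 28 * M := by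
    rw [← al_val]
    simp only [Nat.factorial]
    push_cast
    ring
  rw [hval] at hall
  refine hall.congr' ?_
  filter_upwards [eventually_ge_atTop 8] with n hn
  have h1 : (n : ℝ) ≠ 0 := by
    have : 0 < n := by omega
    positivity
  have h2 : (n.choose 8 : ℝ) ≠ 0 := by
    have := Nat.choose_pos hn
    positivity
  simp only [Pi.div_apply]
  push_cast
  field_simp

theorem main_lim : Tendsto (fun n : ℕ => sSup (F n)) atTop (𝓝 (28 * M)) := by
  refine tendsto_of_tendsto_of_tendsto_of_le_of_le' lower_lim upper_lim ?_ ?_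
  · have hN : ∃ N : ℕ, ∀ n : ℕ, N ≤ n → 1 ≤ al * (n : ℝ) := by
      obtain ⟨N, hN⟩ := exists_nat_ge (1 / al)
      refine ⟨N, fun n hn => ?_⟩
      have h1 : (N : ℝ) ≤ n := by exact_mod_cast hn
      have h2 : 1 / al ≤ n := hN.trans h1
      have h3 := al_pos
      rw [div_le_iff₀ h3] at h2
      linarith
    obtain ⟨N, hN⟩ := hN
    filter_upwards [eventually_ge_atTop 8, eventually_ge_atTop N] with n hn hn2
    have h1 : 0 < ⌊al * (n : ℝ)⌋₊ := Nat.floor_pos.2 (hN n hn2)
    have h2 : ⌊al * (n : ℝ)⌋₊ < n := by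
      rw [Nat.floor_lt (by have := al_pos; positivity)]
      have h3 := al_lt
      have h4 : (0 : ℝ) < n := by
        have : 0 < n := by omega
        exact_mod_cast this
      nlinarith
    obtain ⟨H, hH, hd⟩ := exists_lower h1 h2
    have h5 : ((d H univ : ℕ) : ℝ) / (n.choose 8 : ℝ) ≤ sSup (F n) := by
      apply le_csSup
      · exact ⟨_, fun x hx => F_le hx⟩
      · exact ⟨H, hH, by rw [ncard_eq]⟩
    refine le_trans ?_ h5
    apply div_le_div_of_nonneg_right _ (Nat.cast_nonneg _)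
    exact_mod_cast hd
  · refine Eventually.of_forall fun n => ?_
    apply Real.sSup_le
    · intro x hx
      exact F_le hx
    · have := M_pos
      positivity

end Pool.Agent.H449R3.Induc
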