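import Pool.Agent.H932R4.MO.Stmts

/-! Task T7 of project H932-MO: the abstract queue lemma. -/

set_option autoImplicit false

open Finset

namespace Pool.Agent.H449R3.MoT7

open Pool.Agent.H932R4.MO

theorem t7 : T7 := by
  intro P _ Q c B hQ hc hB X h1 h2 Z hXZ
  have key : ∑ n ∈ (Ioc X Z).filter (fun n => P n ∧ Q n ≠ 0), B n ≤
      Q X + ∑ n ∈ (Ioc X Z).filter (fun n => ¬ P n), c n - Q Z := by
    induction Z, hXZ using Nat.le_induction with
    | base => simp
    | succ Z hXZ ih =>
      rw [Finset.sum_filter, Finset.sum_filter] at ih ⊢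
      rw [Finset.sum_Ioc_succ_top (by omega), Finset.sum_Ioc_succ_top (by omega)]
      by_cases hP : P (Z + 1)
      · have h3 := h2 (Z + 1) (by omega) hP
        rw [Nat.add_sub_cancel] at h3
        by_cases h0 : Q (Z + 1) = 0
        · rw [if_neg (by simp [h0]), if_neg (by simp [hP]), h0]
          have := hQ Z
          linarith
        · rw [if_pos ⟨hP, h0⟩, if_neg (by simp [hP])]
          have h4 : Q (Z + 1) = Q Z - B (Z + 1) := by
            rcases max_choice (Q Z - B (Z + 1)) 0 with h5 | h5
            · rw [h3, h5]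
            · rw [h5] at h3
              exact absurd h3 h0
          linarith
      · have h3 := h1 (Z + 1) (by omega) hP
        rw [Nat.add_sub_cancel] at h3
        rw [if_neg (by simp [hP]), if_pos hP]
        linarith
  have hB0 : 0 ≤ ∑ n ∈ (Ioc X Z).filter (fun n => P n ∧ Q n ≠ 0), B n :=
    Finset.sum_nonneg fun n _ => hB n
  refine ⟨by linarith, ?_, ?_⟩
  · intro hne
    have e1 : (Ioc X Z).filter (fun n => P n ∧ Q n ≠ 0) = (Ioc X Z).filter P := by
      apply Finset.filter_congr
      intro n hn
      exact ⟨fun h => h.1, fun h => ⟨h, hne n hn⟩⟩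
    rw [e1] at key
    linarith
  · have := hQ Z
    linarith

end Pool.Agent.H449R3.MoT7
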