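import Pool.Agent.H384R3.SPk.Defs2

/-!
Task H of project SPK384: monotonicity in the number of terms.
-/

set_option autoImplicit false

open Finset

namespace Pool.Agent.H449R3.SPkH

open Pool.Agent.H384R3.SPk

lemma sum_step {B : Finset ℤ} {b : ℤ} (hb : b ∈ B) (m : ℕ) :
    (sumset m B).card ≤ (sumset (m + 1) B).card := by
  apply Finset.card_le_card_of_injOn (fun x => b + x)
  · intro x hx
    simp only [sumset, Finset.coe_image, Set.mem_image, Finset.mem_coe, Fintype.mem_piFinset] at hx ⊢
    obtain ⟨f, hf, rfl⟩ := hx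
    refine ⟨Fin.cons b f, ?_, ?_⟩
    · intro i
      refine Fin.cases ?_ (fun j => ?_) i
      · simpa using hb
      · simpa using hf j
    · rw [Fin.sum_univ_succ]
      simp
  · intro x _ y _ h
    simpa using h

lemma prod_step {B : Finset ℤ} {b : ℤ} (hb : b ∈ B) (hb0 : 0 < b) (m : ℕ) :
    (prodset fun _ : Fin m => B).card ≤ (prodset fun _ : Fin (m + 1) => B).card := by
  apply Finset.card_le_card_of_injOn (fun x => b * x)
  · intro x hx
    simp only [prodset, Finset.coe_image, Set.mem_image, Finset.mem_coe, Fintype.mem_piFinset] at hx ⊢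
    obtain ⟨f, hf, rfl⟩ := hx
    refine ⟨Fin.cons b f, ?_, ?_⟩
    · intro i
      refine Fin.cases ?_ (fun j => ?_) i
      · simpa using hb
      · simpa using hf j
    · rw [Fin.prod_univ_succ]
      simp
  · intro x _ y _ h
    exact mul_left_cancel₀ hb0.ne' h

theorem taskH : TaskH := by
  rintro B ⟨b, hb⟩ hpos k N hkN
  have hb0 := hpos b hb
  constructor
  · exact Nat.le_induction le_rfl (fun m _ ih => ih.trans (sum_step hb m)) N hkN
  · exact Nat.le_induction le_rfl (fun m _ ih => ih.trans (prod_step hb hb0 m)) N hkN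

end Pool.Agent.H449R3.SPkH
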