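import Mathlib

set_option autoImplicit false

/-! H654-SALEM: plane sections of the sphere over a finite field (Schwartz-Zippel). -/

namespace Pool.Agent.H449R3.SalemPlane

open Finset MvPolynomial

theorem zero_count {K : Type} [Field K] [Fintype K] [DecidableEq K] {n : ℕ}
    (p : MvPolynomial (Fin (n + 1)) K) (hp : p ≠ 0) (hdeg : p.totalDegree ≤ 2) :
    (univ.filter fun f : Fin (n + 1) → K => eval f p = 0).card ≤ 2 * Fintype.card K ^ n := by
  have h := schwartz_zippel_totalDegree hp (univ : Finset K)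
  rw [Fintype.piFinset_univ, card_univ] at h
  have hq : (0 : ℚ≥0) < (Fintype.card K : ℚ≥0) := by
    exact_mod_cast Fintype.card_pos
  rw [div_le_iff₀ (by positivity)] at h
  have h2 : (p.totalDegree : ℚ≥0) / (Fintype.card K : ℚ≥0) * (Fintype.card K : ℚ≥0) ^ (n + 1) =
      p.totalDegree * (Fintype.card K : ℚ≥0) ^ n := by
    rw [pow_succ]
    field_simp
  rw [h2] at h
  have h3 : (univ.filter fun f : Fin (n + 1) → K => eval f p = 0).card ≤
      p.totalDegree * Fintype.card K ^ n := by
    exact_mod_cast h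
  exact h3.trans (Nat.mul_le_mul_right _ hdeg)

theorem deg_sq {K : Type} [Field K] {n : ℕ} :
    (∑ m : Fin n, (X m : MvPolynomial (Fin n) K) ^ 2).totalDegree ≤ 2 := by
  refine (totalDegree_finset_sum _ _).trans (Finset.sup_le fun m _ => ?_)
  refine (totalDegree_pow _ _).trans ?_
  rw [totalDegree_X]

theorem sphere_le {K : Type} [Field K] [Fintype K] [DecidableEq K] (n : ℕ) :
    (univ.filter fun a : Fin (n + 1) → K => ∑ i, a i ^ 2 = 1).card ≤
      2 * Fintype.card K ^ n := by
  have hp : (∑ m : Fin (n + 1), (X m : MvPolynomial (Fin (n + 1)) K) ^ 2 - 1) ≠ 0 := by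
    intro h
    have h1 := congrArg (eval (fun _ : Fin (n + 1) => (0 : K))) h
    simp at h1
  have h := zero_count (K := K) (∑ m : Fin (n + 1), (X m : MvPolynomial (Fin (n + 1)) K) ^ 2 - 1)
    hp ((totalDegree_sub _ _).trans (max_le deg_sq (by simp)))
  refine le_trans (le_of_eq ?_) h
  congr 1
  ext a
  simp only [mem_filter, mem_univ, true_and, map_sub, map_sum, map_pow, eval_X, map_one,
    sub_eq_zero]

theorem plane_succ {K : Type} [Field K] [Fintype K] [DecidableEq K] (h2 : (2 : K) ≠ 0) (n : ℕ)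
    (w : Fin (n + 1 + 1) → K) (hw : w ≠ 0) (c : K) :
    (univ.filter fun a : Fin (n + 1 + 1) → K => ∑ i, a i ^ 2 = 1 ∧ ∑ i, w i * a i = c).card ≤
      2 * Fintype.card K ^ n := by
  obtain ⟨k, hk⟩ : ∃ k, w k ≠ 0 := by
    by_contra h
    push Not at h
    exact hw (funext h)
  let Q : MvPolynomial (Fin (n + 1)) K := C ((w k)⁻¹ ^ 2) *
    (C c - ∑ m, C (w (k.succAbove m)) * X m) ^ 2 + (∑ m : Fin (n + 1), X m ^ 2) - 1
  have hev : ∀ f : Fin (n + 1) → K, eval f Q =
      (w k)⁻¹ ^ 2 * (c - ∑ m, w (k.succAbove m) * f m) ^ 2 + (∑ m, f m ^ 2) - 1 := by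
    intro f
    simp only [Q, map_sub, map_add, map_sum, map_mul, map_pow, eval_X, eval_C, map_one]
  have hQ : Q ≠ 0 := by
    intro h
    have e : ∀ f : Fin (n + 1) → K,
        (w k)⁻¹ ^ 2 * (c - ∑ m, w (k.succAbove m) * f m) ^ 2 + (∑ m, f m ^ 2) - 1 = 0 := by
      intro f
      rw [← hev, h, map_zero]
    have g : ∀ t : K, (w k)⁻¹ ^ 2 * (c - w (k.succAbove 0) * t) ^ 2 + t ^ 2 - 1 = 0 := by
      intro t
      have := e (Pi.single 0 t)
      have s1 : ∑ m, w (k.succAbove m) * (Pi.single 0 t : Fin (n + 1) → K) m =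
          w (k.succAbove 0) * t := by
        rw [Finset.sum_eq_single 0]
        · simp
        · intro b _ hb
          simp [Pi.single_eq_of_ne hb]
        · simp
      have s2 : ∑ m, (Pi.single 0 t : Fin (n + 1) → K) m ^ 2 = t ^ 2 := by
        rw [Finset.sum_eq_single 0]
        · simp
        · intro b _ hb
          simp [Pi.single_eq_of_ne hb]
        · simp
      rw [s1, s2] at this
      exact this
    have g0 := g 0
    have g1 := g 1
    have g2 := g (-1)
    have hv : (w k)⁻¹ ≠ 0 := inv_ne_zero hk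
    generalize (w k)⁻¹ = v at g0 g1 g2 hv
    generalize w (k.succAbove 0) = u at g0 g1 g2
    have r0 : v ^ 2 * c ^ 2 = 1 := by linear_combination g0
    have r1 : 2 * (v ^ 2 * u ^ 2 + 1) = 0 := by linear_combination g1 + g2 - 2 * g0
    have r2 : 2 * 2 * (v ^ 2 * (c * u)) = 0 := by linear_combination g2 - g1
    have r1' : v ^ 2 * u ^ 2 + 1 = 0 := (mul_eq_zero.1 r1).resolve_left h2
    have r2' : v ^ 2 * (c * u) = 0 := (mul_eq_zero.1 r2).resolve_left (mul_ne_zero h2 h2)
    rcases mul_eq_zero.1 r2' with h3 | h3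
    · rw [h3, zero_mul] at r0
      exact zero_ne_one r0
    · rcases mul_eq_zero.1 h3 with h4 | h4
      · rw [h4] at r0
        simp at r0
      · rw [h4] at r1'
        simp at r1'
  have hdeg : Q.totalDegree ≤ 2 := by
    refine (totalDegree_sub _ _).trans (max_le ?_ (by simp))
    refine (totalDegree_add _ _).trans (max_le ?_ deg_sq)
    refine (totalDegree_mul _ _).trans ?_
    rw [totalDegree_C, zero_add]
    refine (totalDegree_pow _ _).trans ?_
    have h1 : (C c - ∑ m, C (w (k.succAbove m)) * X m :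
        MvPolynomial (Fin (n + 1)) K).totalDegree ≤ 1 := by
      refine (totalDegree_sub _ _).trans (max_le (by simp) ?_)
      refine (totalDegree_finset_sum _ _).trans (Finset.sup_le fun m _ => ?_)
      refine (totalDegree_mul _ _).trans ?_
      rw [totalDegree_C, totalDegree_X]
    omega
  refine le_trans ?_ (zero_count Q hQ hdeg)
  have hsum : ∀ a : Fin (n + 1 + 1) → K, ∑ i, w i * a i = c →
      a k = (w k)⁻¹ * (c - ∑ m, w (k.succAbove m) * a (k.succAbove m)) := by
    intro a ha
    rw [Fin.sum_univ_succAbove _ k] at ha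
    rw [← ha]
    field_simp
    ring
  refine Finset.card_le_card_of_injOn (fun a i => a (k.succAbove i)) ?_ ?_
  · intro a ha
    rw [Finset.mem_coe, mem_filter] at ha
    rw [Finset.mem_coe, mem_filter]
    refine ⟨mem_univ _, ?_⟩
    rw [hev]
    have h3 := ha.2.1
    rw [Fin.sum_univ_succAbove _ k, hsum a ha.2.2] at h3
    linear_combination h3
  · intro a ha b hb hab
    rw [Finset.mem_coe, mem_filter] at ha hb
    have h3 : ∀ i, a (k.succAbove i) = b (k.succAbove i) := fun i => congrFun hab i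
    funext i
    by_cases hi : i = k
    · rw [hi, hsum a ha.2.2, hsum b hb.2.2]
      simp only [h3]
    · obtain ⟨j, rfl⟩ := Fin.exists_succAbove_eq hi
      exact h3 j

/-- plane sections of the unit sphere -/
theorem plane {K : Type} [Field K] [Fintype K] [DecidableEq K] (h2 : (2 : K) ≠ 0) (d : ℕ)
    (hd : 2 ≤ d) (w : Fin d → K) (hw : w ≠ 0) (c : K) :
    (univ.filter fun a : Fin d → K => ∑ i, a i ^ 2 = 1 ∧ ∑ i, w i * a i = c).card ≤
      2 * Fintype.card K ^ (d - 2) := by
  obtain ⟨n, rfl⟩ : ∃ n, d = n + 1 + 1 := ⟨d - 2, by omega⟩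
  exact plane_succ h2 n w hw c

end Pool.Agent.H449R3.SalemPlane
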