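import Pool.Agent.H197R3.SF.Stmts

/-! Task POSL of project H197-SF: positivity of the convolution operator on `L²`. -/

set_option autoImplicit false

namespace Pool.Agent.H449R3.SfPosL

open MeasureTheory Filter Topology Set
open scoped ComplexConjugate FourierTransform SchwartzMap
open Pool.Agent.H197R3.SF

/-- the character `e^{2 π i w t}` -/
noncomputable def ex (w t : ℝ) : ℂ := Complex.exp (((2 * Real.pi * (w * t) : ℝ) : ℂ) * Complex.I)

lemma ex_norm (w t : ℝ) : ‖ex w t‖ = 1 := by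
  unfold ex
  exact Complex.norm_exp_ofReal_mul_I _

lemma ex_cont : Continuous (fun z : ℝ × ℝ => ex z.1 z.2) := by
  unfold ex
  fun_prop

lemma ex_ch (w t : ℝ) : ch (2 * Real.pi * w) t = ex w (-t) := by
  unfold ex ch
  congr 1
  push_cast
  ring

lemma ex_conj (w t : ℝ) : conj (ex w t) = ex w (-t) := by
  unfold ex
  rw [← Complex.exp_conj]
  congr 1
  rw [map_mul, Complex.conj_I, Complex.conj_ofReal]
  push_cast
  ring

lemma ex_add (w s t : ℝ) : ex w (s + t) = ex w s * ex w t := by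
  unfold ex
  rw [← Complex.exp_add]
  congr 1
  push_cast
  ring

/-- inversion formula -/
lemma inv (u : 𝓢(ℝ, ℂ)) (t : ℝ) : u t = ∫ w, ex w t * (𝓕 u : 𝓢(ℝ, ℂ)) w := by
  have h1 : (𝓕⁻ (𝓕 u)) t = u t := by rw [FourierTransform.fourierInv_fourier_eq]
  rw [← h1, SchwartzMap.fourierInv_coe, Real.fourierInv_eq']
  congr 1
  funext w
  rw [smul_eq_mul]
  congr 1
  unfold ex
  rw [show (inner ℝ w t : ℝ) = w * t by simp [mul_comm], mul_assoc]

lemma fwd (u : 𝓢(ℝ, ℂ)) (w : ℝ) : ∫ t, conj (u t) * ex w t = conj ((𝓕 u : 𝓢(ℝ, ℂ)) w) := by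
  have h1 : (𝓕 u : 𝓢(ℝ, ℂ)) w = ∫ t, u t * ex w (-t) := by
    rw [SchwartzMap.fourier_coe, Real.fourier_eq']
    congr 1
    funext t
    rw [smul_eq_mul, mul_comm]
    congr 1
    unfold ex
    rw [show (inner ℝ t w : ℝ) = t * w by simp [mul_comm]]
    congr 2
    push_cast
    ring
  rw [h1, ← integral_conj]
  congr 1
  funext t
  rw [map_mul, ex_conj, neg_neg]

lemma conj_int (u : 𝓢(ℝ, ℂ)) : Integrable (fun t => conj (u t)) := by
  have := u.integrable (μ := volume)
  exact (Complex.conjLIE.toContinuousLinearEquiv.toContinuousLinearMap.restrictScalars ℝ).integrable_comp this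

/-- the double integral -/
lemma dbl {f H : ℝ → ℂ} (hf : Integrable f) (hH : Integrable H) :
    Integrable (fun z : ℝ × ℝ => f z.1 * (ex z.2 z.1 * H z.2)) (volume.prod volume) := by
  have h1 := hf.mul_prod hH
  have h2 := h1.bdd_mul (f := fun z : ℝ × ℝ => ex z.2 z.1) (c := 1)
    ((ex_cont.comp continuous_swap).aestronglyMeasurable)
    (Filter.Eventually.of_forall fun z => (ex_norm _ _).le)
  refine h2.congr (Filter.Eventually.of_forall fun z => ?_)
  simp only
  ring

lemma pair {H : ℝ → ℂ} (hH : Integrable H) (u : 𝓢(ℝ, ℂ)) :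
    Integrable (fun t => conj (u t) * ∫ w, ex w t * H w) ∧
    Integrable (fun w => conj ((𝓕 u : 𝓢(ℝ, ℂ)) w) * H w) ∧
    ∫ t, conj (u t) * (∫ w, ex w t * H w) = ∫ w, conj ((𝓕 u : 𝓢(ℝ, ℂ)) w) * H w := by
  have h1 := dbl (conj_int u) hH
  have e1 : (fun t => conj (u t) * ∫ w, ex w t * H w) =
      fun t => ∫ w, conj (u t) * (ex w t * H w) := by
    funext t
    rw [integral_const_mul]
  have e2 : (fun w => conj ((𝓕 u : 𝓢(ℝ, ℂ)) w) * H w) =
      fun w => ∫ t, conj (u t) * (ex w t * H w) := by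
    funext w
    rw [← fwd, ← integral_mul_const]
    congr 1
    funext t
    ring
  refine ⟨?_, ?_, ?_⟩
  · rw [e1]; exact h1.integral_prod_left
  · rw [e2]; exact h1.integral_prod_right
  · rw [e1, e2]
    exact integral_integral_swap (f := fun t w => conj (u t) * (ex w t * H w)) h1

/-- convolution with an integrable function -/
lemma convS {g : ℝ → ℂ} (hg : Integrable g) (u : 𝓢(ℝ, ℂ)) :
    Integrable (fun w => (∫ s, g s * ch (2 * Real.pi * w) s) * (𝓕 u : 𝓢(ℝ, ℂ)) w) ∧
    ∀ t, ∫ s, g s * u (t - s) =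
      ∫ w, ex w t * ((∫ s, g s * ch (2 * Real.pi * w) s) * (𝓕 u : 𝓢(ℝ, ℂ)) w) := by
  have hu : Integrable (fun w => (𝓕 u : 𝓢(ℝ, ℂ)) w) := (𝓕 u).integrable
  have key : ∀ t, Integrable (fun z : ℝ × ℝ => g z.1 * (ex z.2 (t - z.1) * (𝓕 u : 𝓢(ℝ, ℂ)) z.2))
      (volume.prod volume) := by
    intro t
    have h1 := hg.mul_prod hu
    have h2 := h1.bdd_mul (f := fun z : ℝ × ℝ => ex z.2 (t - z.1)) (c := 1)
      ((ex_cont.comp (by fun_prop : Continuous fun z : ℝ × ℝ => (z.2, t - z.1))).aestronglyMeasurable)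
      (Filter.Eventually.of_forall fun z => (ex_norm _ _).le)
    refine h2.congr (Filter.Eventually.of_forall fun z => ?_)
    simp only
    ring
  have e3 : ∀ t w, ∫ s, g s * (ex w (t - s) * (𝓕 u : 𝓢(ℝ, ℂ)) w) =
      ex w t * ((∫ s, g s * ch (2 * Real.pi * w) s) * (𝓕 u : 𝓢(ℝ, ℂ)) w) := by
    intro t w
    rw [← integral_mul_const, ← integral_const_mul]
    congr 1
    funext s
    rw [ex_ch, sub_eq_add_neg, ex_add]
    ring
  constructor
  · have h3 := (key 0).integral_prod_right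
    refine h3.congr (Filter.Eventually.of_forall fun w => ?_)
    simp only
    rw [e3 0 w]
    have : ex w 0 = 1 := by unfold ex; simp
    rw [this, one_mul]
  · intro t
    have h4 : ∫ s, g s * u (t - s) = ∫ s, ∫ w, g s * (ex w (t - s) * (𝓕 u : 𝓢(ℝ, ℂ)) w) := by
      congr 1
      funext s
      rw [inv u (t - s), integral_const_mul]
    rw [h4, integral_integral_swap (f := fun s w => g s * (ex w (t - s) * (𝓕 u : 𝓢(ℝ, ℂ)) w)) (key t)]
    congr 1
    funext w
    exact e3 t w

lemma conj_mul_self (z : ℂ) : conj z * z = ((‖z‖ ^ 2 : ℝ) : ℂ) := by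
  rw [mul_comm, Complex.mul_conj, Complex.normSq_eq_norm_sq]

/-- the inequality for Schwartz functions -/
lemma schw (n : ℕ) (c0 : ℝ) (g : ℝ → Matrix (Fin n) (Fin n) ℂ)
    (hg : ∀ i j, Integrable (fun t => g t i j))
    (hc : ∀ ω : ℝ, Coer c0 (1 + Matrix.of fun i j => ∫ t, g t i j * ch ω t))
    (u : Fin n → 𝓢(ℝ, ℂ)) :
    c0 * ∑ i, ∫ t, ‖u i t‖ ^ 2 ≤
      (∑ i, ∫ t, conj (u i t) * (u i t + ∑ j, ∫ s, g s i j * u j (t - s))).re := by
  set v : Fin n → 𝓢(ℝ, ℂ) := fun i => 𝓕 (u i) with hv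
  set Gm : Fin n → Fin n → ℝ → ℂ := fun i j w => ∫ s, g s i j * ch (2 * Real.pi * w) s with hGm
  have hP : ∀ i, Integrable (fun t => conj (u i t) * u i t) ∧
      Integrable (fun w => conj (v i w) * v i w) ∧
      ∫ t, conj (u i t) * u i t = ∫ w, conj (v i w) * v i w := by
    intro i
    have h := pair (H := fun w => v i w) ((v i).integrable) (u i)
    have e : ∀ t, ∫ w, ex w t * v i w = u i t := fun t => (inv (u i) t).symm
    simp only [e] at h
    exact h
  have hC : ∀ i j, Integrable (fun t => conj (u i t) * ∫ s, g s i j * u j (t - s)) ∧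
      Integrable (fun w => conj (v i w) * (Gm i j w * v j w)) ∧
      ∫ t, conj (u i t) * (∫ s, g s i j * u j (t - s)) =
        ∫ w, conj (v i w) * (Gm i j w * v j w) := by
    intro i j
    obtain ⟨h1, h2⟩ := convS (hg i j) (u j)
    have h := pair h1 (u i)
    simp only [← h2] at h
    exact h
  have e1 : ∀ i, ∫ t, conj (u i t) * (u i t + ∑ j, ∫ s, g s i j * u j (t - s)) =
      ∫ w, (conj (v i w) * v i w + ∑ j, conj (v i w) * (Gm i j w * v j w)) := by
    intro i
    have e2 : ∀ t, conj (u i t) * (u i t + ∑ j, ∫ s, g s i j * u j (t - s)) =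
        conj (u i t) * u i t + ∑ j, conj (u i t) * ∫ s, g s i j * u j (t - s) := by
      intro t
      rw [mul_add, Finset.mul_sum]
    simp only [e2]
    rw [integral_add (hP i).1 (integrable_finsetSum _ fun j _ => (hC i j).1),
      integral_finsetSum _ fun j _ => (hC i j).1,
      integral_add (hP i).2.1 (integrable_finsetSum _ fun j _ => (hC i j).2.1),
      integral_finsetSum _ fun j _ => (hC i j).2.1, (hP i).2.2]
    congr 1
    exact Finset.sum_congr rfl fun j _ => (hC i j).2.2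
  have hI : ∀ i, Integrable (fun w => conj (v i w) * v i w +
      ∑ j, conj (v i w) * (Gm i j w * v j w)) := fun i =>
    (hP i).2.1.add (integrable_finsetSum _ fun j _ => (hC i j).2.1)
  have hN : ∀ i, ∫ t, ‖u i t‖ ^ 2 = ∫ w, ‖v i w‖ ^ 2 := by
    intro i
    have h := (hP i).2.2
    simp only [conj_mul_self] at h
    rw [integral_complex_ofReal, integral_complex_ofReal] at h
    exact Complex.ofReal_injective h
  have hNi : ∀ i, Integrable (fun w => ‖v i w‖ ^ 2) := by
    intro i
    have h := (hP i).2.1.re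
    refine h.congr (Filter.Eventually.of_forall fun w => ?_)
    simp only
    rw [conj_mul_self]
    exact Complex.ofReal_re _
  rw [Finset.sum_congr rfl fun i _ => e1 i, ← integral_finsetSum _ fun i _ => hI i,
    Finset.sum_congr rfl fun i _ => hN i, ← integral_finsetSum _ fun i _ => hNi i,
    ← integral_const_mul]
  have hre : (∫ w, ∑ i, (conj (v i w) * v i w + ∑ j, conj (v i w) * (Gm i j w * v j w))).re =
      ∫ w, (∑ i, (conj (v i w) * v i w + ∑ j, conj (v i w) * (Gm i j w * v j w))).re :=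
    (integral_re (integrable_finsetSum _ fun i _ => hI i)).symm
  rw [hre]
  apply integral_mono
  · exact (integrable_finsetSum _ fun i _ => hNi i).const_mul c0
  · exact (integrable_finsetSum _ fun i _ => hI i).re
  intro w
  have h := hc (2 * Real.pi * w) (fun i => v i w)
  simp only at h ⊢
  refine h.trans (le_of_eq ?_)
  congr 1
  rw [Matrix.add_mulVec, Matrix.one_mulVec]
  unfold dotProduct
  apply Finset.sum_congr rfl
  intro i _
  simp only [Pi.star_apply, Pi.add_apply, Matrix.mulVec, dotProduct, Matrix.of_apply, mul_add,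
    Finset.mul_sum]
  rfl

/-- convolutions only depend on the class -/
lemma conv_congr {g u v : ℝ → ℂ} (h : u =ᵐ[volume] v) (t : ℝ) :
    (fun s => g s * u (t - s)) =ᵐ[volume] fun s => g s * v (t - s) := by
  have h1 := (quasiMeasurePreserving_sub_left_of_right_invariant (volume : Measure ℝ) t).tendsto_ae
  filter_upwards [h1.eventually h] with s hs
  rw [hs]

/-- the convolution operator -/
noncomputable def T (hY : TaskYoung) (g : ℝ → ℂ) (hg : Integrable g) :
    Lp ℂ 2 (volume : Measure ℝ) →L[ℂ] Lp ℂ 2 (volume : Measure ℝ) :=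
  LinearMap.mkContinuous
    { toFun := fun U => (hY g U hg (Lp.memLp U)).1.toLp
      map_add' := by
        intro U V
        apply Lp.ext
        have h1 := (hY g (⇑(U + V)) hg (Lp.memLp (U + V))).1.coeFn_toLp
        have h2 := (hY g U hg (Lp.memLp U)).1.coeFn_toLp
        have h3 := (hY g V hg (Lp.memLp V)).1.coeFn_toLp
        have h4 := Lp.coeFn_add ((hY g U hg (Lp.memLp U)).1.toLp) ((hY g V hg (Lp.memLp V)).1.toLp)
        filter_upwards [h1, h2, h3, h4, (hY g U hg (Lp.memLp U)).2.2,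
          (hY g V hg (Lp.memLp V)).2.2] with t a1 a2 a3 a4 a5 a6
        rw [a1, a4, Pi.add_apply, a2, a3, ← integral_add a5 a6]
        apply integral_congr_ae
        refine (conv_congr (Lp.coeFn_add U V) t).trans (Filter.Eventually.of_forall fun s => ?_)
        simp only [Pi.add_apply]
        ring
      map_smul' := by
        intro c U
        apply Lp.ext
        have h1 := (hY g (⇑(c • U)) hg (Lp.memLp (c • U))).1.coeFn_toLp
        have h2 := (hY g U hg (Lp.memLp U)).1.coeFn_toLp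
        have h4 := Lp.coeFn_smul c ((hY g U hg (Lp.memLp U)).1.toLp)
        filter_upwards [h1, h2, h4] with t a1 a2 a4
        rw [a1, RingHom.id_apply, a4, Pi.smul_apply, a2, smul_eq_mul, ← integral_const_mul]
        apply integral_congr_ae
        refine (conv_congr (Lp.coeFn_smul c U) t).trans (Filter.Eventually.of_forall fun s => ?_)
        simp only [Pi.smul_apply, smul_eq_mul]
        ring }
    (∫ s, ‖g s‖) (by
      intro U
      show ‖(hY g U hg (Lp.memLp U)).1.toLp‖ ≤ _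
      rw [Lp.norm_toLp, Lp.norm_def]
      exact (hY g U hg (Lp.memLp U)).2.1)

lemma T_apply (hY : TaskYoung) (g : ℝ → ℂ) (hg : Integrable g) {u : ℝ → ℂ} (hu : MemLp u 2 volume) :
    (T hY g hg hu.toLp : ℝ → ℂ) =ᵐ[volume] fun t => ∫ s, g s * u (t - s) := by
  have h1 := (hY g hu.toLp hg (Lp.memLp hu.toLp)).1.coeFn_toLp
  refine Filter.EventuallyEq.trans h1 (Filter.Eventually.of_forall fun t => ?_)
  exact integral_congr_ae (conv_congr hu.coeFn_toLp t)

/-- conversion of the quadratic form -/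
lemma conv_form (hY : TaskYoung) (n : ℕ) (g : ℝ → Matrix (Fin n) (Fin n) ℂ)
    (hg : ∀ i j, Integrable (fun t => g t i j)) (u : Fin n → ℝ → ℂ)
    (hu : ∀ i, MemLp (u i) 2 volume) (i : Fin n) :
    inner ℂ (hu i).toLp ((hu i).toLp + ∑ j, T hY (fun t => g t i j) (hg i j) (hu j).toLp) =
      ∫ t, conj (u i t) * (u i t + ∑ j, ∫ s, g s i j * u j (t - s)) := by
  rw [L2.inner_def]
  apply integral_congr_ae
  have h1 := (hu i).coeFn_toLp
  have h2 := Lp.coeFn_add (hu i).toLp (∑ j, T hY (fun t => g t i j) (hg i j) (hu j).toLp)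
  have h3 : (⇑(∑ j, T hY (fun t => g t i j) (hg i j) (hu j).toLp) : ℝ → ℂ) =ᵐ[volume]
      fun t => ∑ j, (T hY (fun t => g t i j) (hg i j) (hu j).toLp : ℝ → ℂ) t := by
    have h := Lp.coeFn_finsetSum (p := 2) (μ := (volume : Measure ℝ)) (Finset.univ)
      (fun j => T hY (fun t => g t i j) (hg i j) (hu j).toLp)
    refine h.trans (Filter.Eventually.of_forall fun t => ?_)
    simp
  have h4 : ∀ᵐ t, ∀ j, (T hY (fun t => g t i j) (hg i j) (hu j).toLp : ℝ → ℂ) t =
      ∫ s, g s i j * u j (t - s) := ae_all_iff.2 fun j => T_apply hY _ (hg i j) (hu j)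
  filter_upwards [h1, h2, h3, h4] with t a1 a2 a3 a4
  rw [a2, Pi.add_apply, a3, a1]
  simp only [a4]
  rw [RCLike.inner_apply, mul_comm]

lemma conv_norm {u : ℝ → ℂ} (hu : MemLp u 2 volume) : ‖hu.toLp‖ ^ 2 = ∫ t, ‖u t‖ ^ 2 := by
  have h1 : inner ℂ hu.toLp hu.toLp = ((∫ t, ‖u t‖ ^ 2 : ℝ) : ℂ) := by
    rw [L2.inner_def, ← integral_complex_ofReal]
    apply integral_congr_ae
    filter_upwards [hu.coeFn_toLp] with t ht
    rw [ht, RCLike.inner_apply, mul_comm, conj_mul_self]
  rw [inner_self_eq_norm_sq_to_K] at h1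
  apply Complex.ofReal_injective
  rw [← h1]
  push_cast
  rfl

theorem taskPosL : TaskPosL := by
  intro hY n c0 g hg hc u hu
  set Q : (Fin n → Lp ℂ 2 (volume : Measure ℝ)) → ℝ := fun U =>
    (∑ i, inner ℂ (U i) (U i + ∑ j, T hY (fun t => g t i j) (hg i j) (U j))).re with hQ
  have hcl : IsClosed {U : Fin n → Lp ℂ 2 (volume : Measure ℝ) | c0 * ∑ i, ‖U i‖ ^ 2 ≤ Q U} := by
    apply isClosed_le
    · fun_prop
    · simp only [hQ]
      apply Complex.continuous_re.comp
      apply continuous_finsetSum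
      intro i _
      apply Continuous.inner (by fun_prop)
      apply Continuous.add (by fun_prop)
      apply continuous_finsetSum
      intro j _
      exact (T hY (fun t => g t i j) (hg i j)).continuous.comp (continuous_apply j)
  have hall : ∀ U : Fin n → Lp ℂ 2 (volume : Measure ℝ), c0 * ∑ i, ‖U i‖ ^ 2 ≤ Q U := by
    have hd : DenseRange (Pi.map fun _ : Fin n =>
        (SchwartzMap.toLpCLM ℝ ℂ 2 (volume : Measure ℝ) : 𝓢(ℝ, ℂ) → Lp ℂ 2 (volume : Measure ℝ))) :=
      DenseRange.piMap fun i => SchwartzMap.denseRange_toLpCLM ENNReal.ofNat_ne_top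
    intro U
    refine hd.induction_on (p := fun U => c0 * ∑ i, ‖U i‖ ^ 2 ≤ Q U) U hcl ?_
    intro φ
    have h := schw n c0 g hg hc φ
    have e1 : ∀ i, ‖(Pi.map (fun _ : Fin n =>
        (SchwartzMap.toLpCLM ℝ ℂ 2 (volume : Measure ℝ) : 𝓢(ℝ, ℂ) → Lp ℂ 2 (volume : Measure ℝ))) φ) i‖ ^ 2 =
        ∫ t, ‖φ i t‖ ^ 2 := fun i => conv_norm ((φ i).memLp 2 volume)
    rw [Finset.sum_congr rfl fun i _ => e1 i]
    refine h.trans (le_of_eq ?_)
    simp only [hQ]
    congr 1
    apply Finset.sum_congr rfl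
    intro i _
    exact (conv_form hY n g hg (fun i t => φ i t) (fun i => (φ i).memLp 2 volume) i).symm
  have h := hall fun i => (hu i).toLp
  rw [Finset.sum_congr rfl fun i _ => conv_norm (hu i)] at h
  refine h.trans (le_of_eq ?_)
  simp only [hQ]
  congr 1
  apply Finset.sum_congr rfl
  intro i _
  exact conv_form hY n g hg (fun i t => u t i) hu i

end Pool.Agent.H449R3.SfPosL
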